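import Pool.Agent.R207.MB.Stm

/-! Piece BL: the bilaplacian of `-log (s^2 + |z|^2)` in dimension four. -/

set_option autoImplicit false

open MeasureTheory Filter Topology Metric

noncomputable section

namespace Pool.Agent.R207.MB

namespace BL

def w (s : ℝ) (z : E4) : ℝ := s ^ 2 + ‖z‖ ^ 2

theorem w_continuous (s : ℝ) : Continuous (w s) := by
  unfold w
  fun_prop

theorem inner_bv (z : E4) (i : Fin 4) : inner ℝ z (bv i) = z i := by
  simp [bv, EuclideanSpace.inner_single_right]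

theorem hasFDerivAt_w (s : ℝ) (z : E4) : HasFDerivAt (w s) (2 • innerSL ℝ z) z := by
  unfold w
  have h := (hasStrictFDerivAt_norm_sq z).hasFDerivAt
  exact h.const_add (s ^ 2)

theorem pd_comp {F : ℝ → ℝ} {F' : ℝ} {s : ℝ} {z : E4} (i : Fin 4)
    (h : HasDerivAt F F' (w s z)) : pd i (fun y => F (w s y)) z = 2 * z i * F' := by
  have h1 : HasFDerivAt (fun y => F (w s y)) (F' • (2 • innerSL ℝ z)) z :=
    h.comp_hasFDerivAt z (hasFDerivAt_w s z)
  unfold pd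
  rw [h1.fderiv]
  simp only [smul_apply, innerSL_apply_apply, inner_bv, smul_eq_mul, nsmul_eq_mul]
  push_cast
  ring

theorem pd_comp2 {F : ℝ → ℝ} {F' : ℝ} {s : ℝ} {z : E4} (i : Fin 4)
    (h : HasDerivAt F F' (w s z)) :
    pd i (fun y => 2 * y i * F (w s y)) z = 2 * F (w s z) + 4 * (z i) ^ 2 * F' := by
  have h1 : HasFDerivAt (fun y => F (w s y)) (F' • (2 • innerSL ℝ z)) z :=
    h.comp_hasFDerivAt z (hasFDerivAt_w s z)
  have h2 : HasFDerivAt (fun y : E4 => 2 * y i)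
      ((2 : ℝ) • (EuclideanSpace.proj i : E4 →L[ℝ] ℝ)) z :=
    ((EuclideanSpace.proj i : E4 →L[ℝ] ℝ).hasFDerivAt (x := z)).const_mul (2 : ℝ)
  have h3 := h2.mul h1
  unfold pd
  have h4 : fderiv ℝ (fun y : E4 => 2 * y i * F (w s y)) z = _ := h3.fderiv
  rw [h4]
  have e : (EuclideanSpace.proj i : E4 →L[ℝ] ℝ) (bv i) = 1 := by simp [bv]
  simp only [add_apply, smul_apply, innerSL_apply_apply,
    inner_bv, smul_eq_mul, nsmul_eq_mul, e]
  push_cast
  ring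

theorem pd_congr {f g : E4 → ℝ} {z : E4} (i : Fin 4) (h : f =ᶠ[𝓝 z] g) :
    pd i f =ᶠ[𝓝 z] pd i g := by
  have := h.fderiv (𝕜 := ℝ)
  filter_upwards [this] with y hy
  simp only [pd, hy]

theorem lap_congr {f g : E4 → ℝ} {z : E4} (h : f =ᶠ[𝓝 z] g) : lap f z = lap g z := by
  unfold lap
  refine Finset.sum_congr rfl (fun i _ => ?_)
  exact (pd_congr i (pd_congr i h)).eq_of_nhds

theorem norm_sq_eq (z : E4) : ‖z‖ ^ 2 = ∑ i, (z i) ^ 2 := by
  rw [EuclideanSpace.norm_sq_eq]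
  simp

theorem w_pos_eventually {s : ℝ} {z : E4} (hz : 0 < w s z) : ∀ᶠ y in 𝓝 z, 0 < w s y :=
  (w_continuous s).continuousAt.eventually (lt_mem_nhds hz)

theorem lap_comp {F F' F'' : ℝ → ℝ} (h1 : ∀ t, 0 < t → HasDerivAt F (F' t) t)
    (h2 : ∀ t, 0 < t → HasDerivAt F' (F'' t) t) {s : ℝ} {z : E4} (hz : 0 < w s z) :
    lap (fun y => F (w s y)) z = 8 * F' (w s z) + 4 * (w s z - s ^ 2) * F'' (w s z) := by
  have e1 : ∀ i : Fin 4, pd i (fun y => F (w s y)) =ᶠ[𝓝 z] fun y => 2 * y i * F' (w s y) := by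
    intro i
    filter_upwards [w_pos_eventually hz] with y hy
    exact pd_comp i (h1 _ hy)
  have e2 : ∀ i : Fin 4, pd i (pd i (fun y => F (w s y))) z =
      2 * F' (w s z) + 4 * (z i) ^ 2 * F'' (w s z) := by
    intro i
    rw [(pd_congr i (e1 i)).eq_of_nhds]
    exact pd_comp2 i (h2 _ hz)
  unfold lap
  simp only [e2]
  have h3 : w s z - s ^ 2 = ∑ i, (z i) ^ 2 := by rw [← norm_sq_eq]; unfold w; ring
  rw [h3]
  simp only [Fin.sum_univ_four]
  ring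

end BL

open BL in
theorem t_BL : S_BL := by
  intro s z hz
  have hz' : 0 < w s z := hz
  have hB : Bf s = fun y => (fun t => -Real.log t) (w s y) := rfl
  have d1 : ∀ t : ℝ, 0 < t → HasDerivAt (fun t => -Real.log t) ((fun t : ℝ => -t⁻¹) t) t := by
    intro t ht
    exact (Real.hasDerivAt_log ht.ne').neg
  have d2 : ∀ t : ℝ, 0 < t → HasDerivAt (fun t : ℝ => -t⁻¹) ((fun t : ℝ => (t ^ 2)⁻¹) t) t := by
    intro t ht
    exact (hasDerivAt_inv ht.ne').neg.congr_deriv (by simp)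
  have h1 : lap (Bf s) =ᶠ[𝓝 z]
      fun y => (fun t : ℝ => -4 * t⁻¹ - 4 * s ^ 2 * (t⁻¹) ^ 2) (w s y) := by
    filter_upwards [w_pos_eventually hz'] with y hy
    rw [hB, lap_comp d1 d2 hy]
    have : w s y ≠ 0 := hy.ne'
    field_simp
    ring
  unfold bilap
  rw [lap_congr h1]
  have d3 : ∀ t : ℝ, 0 < t → HasDerivAt (fun t : ℝ => -4 * t⁻¹ - 4 * s ^ 2 * (t⁻¹) ^ 2)
      ((fun t : ℝ => 4 * (t⁻¹) ^ 2 + 8 * s ^ 2 * (t⁻¹) ^ 3) t) t := by
    intro t ht
    have h := hasDerivAt_inv ht.ne'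
    have := (h.const_mul (-4)).sub ((h.pow 2).const_mul (4 * s ^ 2))
    refine this.congr_deriv ?_
    simp only [show (2 : ℕ) - 1 = 1 from rfl, show (3 : ℕ) - 1 = 2 from rfl, pow_one]
    have hne : t ≠ 0 := ht.ne'
    simp only [inv_pow]
    field_simp
    push_cast
    ring
  have d4 : ∀ t : ℝ, 0 < t → HasDerivAt (fun t : ℝ => 4 * (t⁻¹) ^ 2 + 8 * s ^ 2 * (t⁻¹) ^ 3)
      ((fun t : ℝ => -8 * (t⁻¹) ^ 3 - 24 * s ^ 2 * (t⁻¹) ^ 4) t) t := by
    intro t ht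
    have h := hasDerivAt_inv ht.ne'
    have := ((h.pow 2).const_mul 4).add ((h.pow 3).const_mul (8 * s ^ 2))
    refine this.congr_deriv ?_
    simp only [show (2 : ℕ) - 1 = 1 from rfl, show (3 : ℕ) - 1 = 2 from rfl, pow_one]
    have hne : t ≠ 0 := ht.ne'
    simp only [inv_pow]
    field_simp
    push_cast
    ring
  rw [lap_comp d3 d4 hz']
  simp only [hs]
  have e : s ^ 2 + ‖z‖ ^ 2 = w s z := rfl
  rw [e]
  have : w s z ≠ 0 := hz'.ne'
  field_simp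
  ring

end Pool.Agent.R207.MB
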