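import Pool.Agent.R207.MB.Stm

set_option autoImplicit false

open MeasureTheory Filter Topology Metric

namespace Pool.Agent.R207.MB

theorem t_C (h : S_J) : S_C := by
  obtain ⟨hlim, hpos, -⟩ := h
  have hlog : Tendsto (fun β => -(1 / 5) * Real.log (Jf β)) atTop atTop := by
    have h1 : Tendsto Jf atTop (𝓝[>] 0) := by
      rw [tendsto_nhdsWithin_iff]
      refine ⟨hlim, ?_⟩
      filter_upwards [eventually_ge_atTop (0 : ℝ)] with β hβ using hpos β hβ
    have h2 := Real.tendsto_log_nhdsGT_zero.comp h1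
    have h3 := h2.const_mul_atBot_of_neg (r := -(1 / 5 : ℝ)) (by norm_num)
    exact h3
  have hsq : Tendsto (fun β : ℝ => Real.sqrt β) atTop atTop := Real.tendsto_sqrt_atTop
  refine ⟨fun β => min (Real.sqrt β) (-(1 / 5) * Real.log (Jf β)), ?_, ?_⟩
  · exact tendsto_inf_atTop _ hsq hlog
  · filter_upwards [eventually_ge_atTop (0 : ℝ), hlog.eventually_ge_atTop 0] with β hβ hl
    refine ⟨le_min (Real.sqrt_nonneg _) hl, min_le_left _ _, ?_⟩
    have h5 : Real.exp (5 * min (Real.sqrt β) (-(1 / 5) * Real.log (Jf β))) ≤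
        Real.exp (-Real.log (Jf β)) := by
      apply Real.exp_le_exp.2
      have := min_le_right (Real.sqrt β) (-(1 / 5) * Real.log (Jf β))
      linarith
    have hJ := hpos β hβ
    calc Real.exp (5 * min (Real.sqrt β) (-(1 / 5) * Real.log (Jf β))) * Jf β
        ≤ Real.exp (-Real.log (Jf β)) * Jf β := by gcongr
      _ = 1 := by
        rw [Real.exp_neg, Real.exp_log hJ]
        exact inv_mul_cancel₀ hJ.ne'

end Pool.Agent.R207.MB
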