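import Pool.Agent.R207.MB.Stm

/-!
DER (project MB, MP_e2b804_an): derivative bounds for potentials away from the singular set.
helper710.
-/

set_option autoImplicit false

open MeasureTheory Filter Topology Metric

noncomputable section

namespace Pool.Agent.R207.MB

namespace DER

theorem pi_ge : (1 : ℝ) ≤ 16 * Real.pi ^ 2 := by
  have := Real.pi_gt_three
  nlinarith

theorem iter_kf (h3 : S_K3) (s : ℝ) (hs : 0 < s) (n : ℕ) (z : E4) :
    iteratedFDeriv ℝ n (kf s) z = (16 * Real.pi ^ 2)⁻¹ • iteratedFDeriv ℝ n (Bf s) z := by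
  have h : kf s = (16 * Real.pi ^ 2)⁻¹ • Bf s := by
    funext w
    simp only [kf, Pi.smul_apply, smul_eq_mul]
    ring
  rw [h]
  apply iteratedFDeriv_const_smul_apply
  have h1 : ContDiffAt ℝ (⊤ : ℕ∞) (Bf s) z := h3 s z (by positivity)
  exact h1.of_le (by exact_mod_cast le_top)

theorem inv_pi_le : (16 * Real.pi ^ 2)⁻¹ ≤ 1 := inv_le_one_of_one_le₀ pi_ge

theorem iter_kf_le (h1 : S_K1) (h3 : S_K3) (n : ℕ) (hn : 1 ≤ n) : ∃ M : ℝ, 0 < M ∧
    ∀ (s : ℝ) (z : E4), 0 < s → z ≠ 0 →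
      ‖iteratedFDeriv ℝ n (kf s) z‖ ≤ M * ‖z‖ ^ (-(n : ℝ)) := by
  obtain ⟨M, hM, h⟩ := h1 n hn
  refine ⟨M, hM, fun s z hs hz => ?_⟩
  have hz' : 0 < ‖z‖ := norm_pos_iff.2 hz
  rw [iter_kf h3 s hs, norm_smul, Real.norm_of_nonneg (by positivity)]
  have h2 := h s z (by positivity)
  have h4 : M / (Real.sqrt (s ^ 2 + ‖z‖ ^ 2)) ^ n ≤ M * ‖z‖ ^ (-(n : ℝ)) := by
    rw [Real.rpow_neg hz'.le, Real.rpow_natCast, div_eq_mul_inv]
    apply mul_le_mul_of_nonneg_left _ hM.le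
    apply inv_anti₀ (by positivity)
    apply pow_le_pow_left₀ hz'.le
    apply Real.le_sqrt_of_sq_le
    nlinarith [sq_nonneg s]
  calc (16 * Real.pi ^ 2)⁻¹ * ‖iteratedFDeriv ℝ n (Bf s) z‖
      ≤ 1 * ‖iteratedFDeriv ℝ n (Bf s) z‖ :=
        mul_le_mul_of_nonneg_right inv_pi_le (norm_nonneg _)
    _ ≤ M * ‖z‖ ^ (-(n : ℝ)) := by rw [one_mul]; exact h2.trans h4

theorem ae_ne (x : E4) : ∀ᵐ y : E4, x - y ≠ 0 := by
  have h : ∀ᵐ y : E4, y ≠ x := by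
    rw [ae_iff]
    simp
  filter_upwards [h] with y hy
  exact fun h => hy (sub_eq_zero.1 h).symm

theorem der_le (h1 : S_K1) (h3 : S_K3) (hT : S_T1) (hP : S_POT1) (n : ℕ) (hn : 1 ≤ n)
    (hn3 : n ≤ 3) (η : ℝ) (hη : 0 < η) (hη1 : η ≤ 1) : ∃ C : ℝ, 0 < C ∧
    ∀ (H : E4 → ℝ), Src H → (∫ y, |H y|) ≤ 1 → ∀ s : ℝ, 0 < s → ∀ x : E4,
      (∀ y ∈ ball x η, |H y| ≤ 1) → ‖iteratedFDeriv ℝ n (pot s H) x‖ ≤ C := by
  obtain ⟨M, hM, hk⟩ := iter_kf_le h1 h3 n hn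
  obtain ⟨P, hP0, hp⟩ := hP (n : ℝ) (by positivity) (by
    have : (n : ℝ) ≤ 3 := by exact_mod_cast hn3
    linarith)
  refine ⟨M * (η ^ (-(n : ℝ)) + P), by positivity, fun H hH hH1 s hs x hx => ?_⟩
  obtain ⟨_, _, h5, h6⟩ := hT s H hs hH
  rw [h5 n hn x]
  obtain ⟨h7, h8⟩ := hp H hH η 1 hη hη1 x hx
  calc ‖∫ y, H y • iteratedFDeriv ℝ n (kf s) (x - y)‖
      ≤ ∫ y, M * (‖x - y‖ ^ (-(n : ℝ)) * |H y|) := by
        apply norm_integral_le_of_norm_le (h7.const_mul M)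
        filter_upwards [ae_ne x] with y hy
        rw [norm_smul, Real.norm_eq_abs]
        calc |H y| * ‖iteratedFDeriv ℝ n (kf s) (x - y)‖
            ≤ |H y| * (M * ‖x - y‖ ^ (-(n : ℝ))) :=
              mul_le_mul_of_nonneg_left (hk s _ hs hy) (abs_nonneg _)
          _ = M * (‖x - y‖ ^ (-(n : ℝ)) * |H y|) := by ring
    _ = M * ∫ y, ‖x - y‖ ^ (-(n : ℝ)) * |H y| := integral_const_mul _ _
    _ ≤ M * (η ^ (-(n : ℝ)) * (∫ y, |H y|) + P * 1) := mul_le_mul_of_nonneg_left h8 hM.le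
    _ ≤ M * (η ^ (-(n : ℝ)) + P) := by
        apply mul_le_mul_of_nonneg_left _ hM.le
        have : η ^ (-(n : ℝ)) * (∫ y, |H y|) ≤ η ^ (-(n : ℝ)) * 1 :=
          mul_le_mul_of_nonneg_left hH1 (by positivity)
        linarith

theorem hold_le (h2 : S_K2) (h3 : S_K3) (hT : S_T1) (hP : S_POT1) (α : ℝ) (hα : 0 ≤ α)
    (hα1 : α < 1) (η : ℝ) (hη : 0 < η) (hη1 : η ≤ 1) : ∃ C : ℝ, 0 < C ∧
    ∀ (H : E4 → ℝ), Src H → (∫ y, |H y|) ≤ 1 → ∀ s : ℝ, 0 < s → ∀ x x' : E4,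
      (∀ y ∈ ball x η, |H y| ≤ 1) → (∀ y ∈ ball x' η, |H y| ≤ 1) →
      ‖iteratedFDeriv ℝ 3 (pot s H) x - iteratedFDeriv ℝ 3 (pot s H) x'‖ ≤
        C * ‖x - x'‖ ^ α := by
  obtain ⟨M, hM, hk⟩ := h2 α hα hα1.le
  obtain ⟨P, hP0, hp⟩ := hP (3 + α) (by positivity) (by linarith)
  refine ⟨M * (2 * (η ^ (-(3 + α)) + P)), by positivity, fun H hH hH1 s hs x x' hx hx' => ?_⟩
  obtain ⟨_, _, h5, h6⟩ := hT s H hs hH
  rw [h5 3 (by norm_num) x, h5 3 (by norm_num) x', ← integral_sub (h6 3 (by norm_num) x)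
    (h6 3 (by norm_num) x')]
  obtain ⟨h7, h8⟩ := hp H hH η 1 hη hη1 x hx
  obtain ⟨h9, h10⟩ := hp H hH η 1 hη hη1 x' hx'
  have hI : ∀ g : ℝ, g ≤ η ^ (-(3 + α)) * (∫ y, |H y|) + P * 1 → g ≤ η ^ (-(3 + α)) + P := by
    intro g hg
    have : η ^ (-(3 + α)) * (∫ y, |H y|) ≤ η ^ (-(3 + α)) * 1 :=
      mul_le_mul_of_nonneg_left hH1 (by positivity)
    linarith
  have hd : 0 ≤ ‖x - x'‖ ^ α := by positivity
  calc ‖∫ y, (H y • iteratedFDeriv ℝ 3 (kf s) (x - y) - H y • iteratedFDeriv ℝ 3 (kf s) (x' - y))‖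
      ≤ ∫ y, (M * ‖x - x'‖ ^ α) * (‖x - y‖ ^ (-(3 + α)) * |H y| +
          ‖x' - y‖ ^ (-(3 + α)) * |H y|) := by
        apply norm_integral_le_of_norm_le ((h7.add h9).const_mul _)
        filter_upwards [ae_ne x, ae_ne x'] with y hy hy'
        rw [iter_kf h3 s hs, iter_kf h3 s hs, ← smul_sub, ← smul_sub, norm_smul, norm_smul,
          Real.norm_eq_abs, Real.norm_of_nonneg (by positivity)]
        have hb := hk s _ _ hy hy'
        have he : x - y - (x' - y) = x - x' := by abel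
        rw [he] at hb
        calc |H y| * ((16 * Real.pi ^ 2)⁻¹ * ‖iteratedFDeriv ℝ 3 (Bf s) (x - y) -
              iteratedFDeriv ℝ 3 (Bf s) (x' - y)‖)
            ≤ |H y| * (1 * ‖iteratedFDeriv ℝ 3 (Bf s) (x - y) -
              iteratedFDeriv ℝ 3 (Bf s) (x' - y)‖) := by
              apply mul_le_mul_of_nonneg_left _ (abs_nonneg _)
              exact mul_le_mul_of_nonneg_right inv_pi_le (norm_nonneg _)
          _ ≤ |H y| * (M * ‖x - x'‖ ^ α * (‖x - y‖ ^ (-(3 + α)) + ‖x' - y‖ ^ (-(3 + α)))) := by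
              apply mul_le_mul_of_nonneg_left _ (abs_nonneg _)
              rw [one_mul]
              exact hb
          _ = (M * ‖x - x'‖ ^ α) * (‖x - y‖ ^ (-(3 + α)) * |H y| +
                ‖x' - y‖ ^ (-(3 + α)) * |H y|) := by ring
    _ = (M * ‖x - x'‖ ^ α) * ((∫ y, ‖x - y‖ ^ (-(3 + α)) * |H y|) +
          ∫ y, ‖x' - y‖ ^ (-(3 + α)) * |H y|) := by
        rw [integral_const_mul, integral_add h7 h9]
    _ ≤ (M * ‖x - x'‖ ^ α) * ((η ^ (-(3 + α)) + P) + (η ^ (-(3 + α)) + P)) := by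
        apply mul_le_mul_of_nonneg_left _ (by positivity)
        exact add_le_add (hI _ h8) (hI _ h10)
    _ = M * (2 * (η ^ (-(3 + α)) + P)) * ‖x - x'‖ ^ α := by ring

end DER

open DER

theorem t_DER (h1 : S_K1) (h2 : S_K2) (h3 : S_K3) (hT : S_T1) (hP : S_POT1) (hE : S_EST)
    (hL : S_LOC) : S_DER := by
  intro c hc K hK hKU α hα hα1
  have hU : IsOpen {z : E4 | -1 < z 0 ∧ z ≠ 0 ∧ z 0 ≠ 2} := by
    have hcont : Continuous fun z : E4 => z 0 := by fun_prop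
    refine (isOpen_lt continuous_const hcont).inter ?_
    exact isOpen_ne.inter (isOpen_ne_fun hcont continuous_const)
  obtain ⟨δ, hδ, hδU⟩ := hK.exists_cthickening_subset_open hU hKU
  set η := min δ 1 with hη
  have hη0 : 0 < η := lt_min hδ one_pos
  have hη1 : η ≤ 1 := min_le_right _ _
  have hK'U : cthickening η K ⊆ {z : E4 | -1 < z 0 ∧ z ≠ 0 ∧ z 0 ≠ 2} :=
    (cthickening_mono (min_le_left _ _) K).trans hδU
  have hK' : IsCompact (cthickening η K) := hK.cthickening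
  have hball : ∀ x ∈ K, ball x η ⊆ cthickening η K := fun x hx =>
    ball_subset_closedBall.trans (closedBall_subset_cthickening hx η)
  obtain ⟨R, hR⟩ := hK.isBounded.exists_norm_le
  obtain ⟨C1, hC1, hd1⟩ := der_le h1 h3 hT hP 1 le_rfl (by norm_num) η hη0 hη1
  obtain ⟨C2, hC2, hd2⟩ := der_le h1 h3 hT hP 2 (by norm_num) (by norm_num) η hη0 hη1
  obtain ⟨C3, hC3, hd3⟩ := der_le h1 h3 hT hP 3 (by norm_num) le_rfl η hη0 hη1
  obtain ⟨C4, hC4, hd4⟩ := hold_le h2 h3 hT hP α hα hα1 η hη0 hη1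
  obtain ⟨ε, hε, hev⟩ := hE c hc
  have hloc := hL c hc _ hK' hK'U 1 one_pos
  have hε1 : ∀ᶠ β in atTop, ε β < 1 := hε.eventually_lt_const one_pos
  have hA : 0 ≤ Real.log (1 + R ^ 2) := Real.log_nonneg (by nlinarith [sq_nonneg R])
  refine ⟨1 + Real.log (1 + R ^ 2) + C1 + C2 + C3 + C4, by positivity, ?_⟩
  filter_upwards [hev, hloc, hε1] with β hβ hβl hβε H hH s hs hs1
  obtain ⟨hSrc, hint, hpot⟩ := hβ H hH
  have hint1 : (∫ y, |H y|) ≤ 1 := hint.trans hβε.le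
  have hb : ∀ x ∈ K, ∀ y ∈ ball x η, |H y| ≤ 1 := fun x hx y hy => hβl H hH y (hball x hx hy)
  constructor
  · intro n hn x hx
    have h0 : ‖iteratedFDeriv ℝ 0 (pot s H) x‖ ≤ 1 + Real.log (1 + R ^ 2) := by
      rw [norm_iteratedFDeriv_zero, Real.norm_eq_abs]
      have h4 := hpot s hs hs1 x
      have h5 : Real.log (1 + ‖x‖ ^ 2) ≤ Real.log (1 + R ^ 2) := by
        apply Real.log_le_log (by positivity)
        have := hR x hx
        nlinarith [norm_nonneg x]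
      have h6 : 0 ≤ Real.log (1 + ‖x‖ ^ 2) := Real.log_nonneg (by nlinarith [sq_nonneg ‖x‖])
      calc |pot s H x| ≤ ε β * (1 + Real.log (1 + ‖x‖ ^ 2)) := h4
        _ ≤ 1 * (1 + Real.log (1 + ‖x‖ ^ 2)) := mul_le_mul_of_nonneg_right hβε.le (by positivity)
        _ ≤ 1 + Real.log (1 + R ^ 2) := by linarith
    have h1' := hd1 H hSrc hint1 s hs x (hb x hx)
    have h2' := hd2 H hSrc hint1 s hs x (hb x hx)
    have h3' := hd3 H hSrc hint1 s hs x (hb x hx)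
    interval_cases n
    · linarith
    · linarith
    · linarith
    · linarith
  · intro x hx y hy
    have h4' := hd4 H hSrc hint1 s hs x y (hb x hx) (hb y hy)
    have h5' : 0 ≤ ‖x - y‖ ^ α := by positivity
    refine h4'.trans (mul_le_mul_of_nonneg_right ?_ h5')
    linarith

end Pool.Agent.R207.MB
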