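import Mathlib

set_option autoImplicit false

open MeasureTheory Filter Topology Metric

noncomputable section

namespace Pool.Agent.R207.MB

/-- four-dimensional Euclidean space -/
abbrev E4 : Type := EuclideanSpace ℝ (Fin 4)

/-- the coordinate vector -/
def bv (i : Fin 4) : E4 := EuclideanSpace.single i 1

/-- partial derivative -/
def pd (i : Fin 4) (f : E4 → ℝ) (x : E4) : ℝ := fderiv ℝ f x (bv i)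

/-- Laplacian -/
def lap (f : E4 → ℝ) (x : E4) : ℝ := ∑ i, pd i (pd i f) x

/-- bilaplacian -/
def bilap (f : E4 → ℝ) (x : E4) : ℝ := lap (lap f) x

/-- the potential `-log (s^2 + |z|^2)` -/
def Bf (s : ℝ) (z : E4) : ℝ := -Real.log (s ^ 2 + ‖z‖ ^ 2)

/-- its bilaplacian -/
def hs (s : ℝ) (z : E4) : ℝ := 96 * s ^ 4 / (s ^ 2 + ‖z‖ ^ 2) ^ 4

/-- normalised kernel -/
def kf (s : ℝ) (z : E4) : ℝ := Bf s z / (16 * Real.pi ^ 2)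

/-- normalised density (total mass one) -/
def gf (s : ℝ) (z : E4) : ℝ := hs s z / (16 * Real.pi ^ 2)

/-- mollified potential of `H` -/
def pot (s : ℝ) (H : E4 → ℝ) (x : E4) : ℝ := ∫ y, kf s (x - y) * H y

/-- mollification of `H` -/
def mol (s : ℝ) (H : E4 → ℝ) (x : E4) : ℝ := ∫ y, gf s (x - y) * H y

/-- admissible sources -/
def Src (H : E4 → ℝ) : Prop :=
  Measurable H ∧ ∃ M : ℝ, ∀ y, |H y| ≤ M / (1 + ‖y‖ ^ 2) ^ 4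

/-! ### Kernels -/

def S_K1 : Prop := ∀ n : ℕ, 1 ≤ n → ∃ M : ℝ, 0 < M ∧ ∀ (s : ℝ) (z : E4), 0 < s ^ 2 + ‖z‖ ^ 2 →
  ‖iteratedFDeriv ℝ n (Bf s) z‖ ≤ M / (Real.sqrt (s ^ 2 + ‖z‖ ^ 2)) ^ n

def S_K2 : Prop := ∀ α : ℝ, 0 ≤ α → α ≤ 1 → ∃ C : ℝ, 0 < C ∧ ∀ (s : ℝ) (z w : E4), z ≠ 0 → w ≠ 0 →
  ‖iteratedFDeriv ℝ 3 (Bf s) z - iteratedFDeriv ℝ 3 (Bf s) w‖ ≤
    C * ‖z - w‖ ^ α * (‖z‖ ^ (-(3 + α)) + ‖w‖ ^ (-(3 + α)))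

def S_K3 : Prop := ∀ (s : ℝ) (z : E4), 0 < s ^ 2 + ‖z‖ ^ 2 → ContDiffAt ℝ (⊤ : ℕ∞) (Bf s) z

def S_BL : Prop := ∀ (s : ℝ) (z : E4), 0 < s ^ 2 + ‖z‖ ^ 2 → bilap (Bf s) z = hs s z

def S_MASS : Prop := ∀ s : ℝ, 0 < s → Integrable (hs s) ∧ ∫ z, hs s z = 16 * Real.pi ^ 2

/-- concentration of `hs s` at the origin -/
def S_CONC : Prop := ∀ r : ℝ, 0 < r → ∃ C : ℝ, 0 < C ∧ ∀ s : ℝ, 0 < s →
  ∫ z in {z : E4 | r ≤ ‖z‖}, hs s z ≤ C * s ^ 4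

/-! ### Linearity of the bilaplacian -/

def S_LIN : Prop :=
  (∀ (f g : E4 → ℝ) (x : E4), ContDiffAt ℝ (⊤ : ℕ∞) f x → ContDiffAt ℝ (⊤ : ℕ∞) g x →
    bilap (fun y => f y + g y) x = bilap f x + bilap g x) ∧
  (∀ (c : ℝ) (f : E4 → ℝ) (x : E4), ContDiffAt ℝ (⊤ : ℕ∞) f x →
    bilap (fun y => c * f y) x = c * bilap f x) ∧
  (∀ (ι : Type) (t : Finset ι) (f : ι → E4 → ℝ) (x : E4), (∀ i ∈ t, ContDiffAt ℝ (⊤ : ℕ∞) (f i) x) →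
    bilap (fun y => ∑ i ∈ t, f i y) x = ∑ i ∈ t, bilap (f i) x) ∧
  (∀ (f : E4 → ℝ) (p x : E4), bilap (fun y => f (y - p)) x = bilap f (x - p)) ∧
  (∀ (c : ℝ) (x : E4), bilap (fun _ => c) x = 0) ∧
  (∀ x : E4, bilap (fun y => y 0 - (y 0) ^ 3 / 3 - 2 / 3) x = 0)

/-! ### Calculus of the mollified potential -/

def S_T1 : Prop := ∀ (s : ℝ) (H : E4 → ℝ), 0 < s → Src H →
  ContDiff ℝ (⊤ : ℕ∞) (pot s H) ∧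
  (∀ x, Integrable (fun y => kf s (x - y) * H y)) ∧
  (∀ n : ℕ, 1 ≤ n → ∀ x, iteratedFDeriv ℝ n (pot s H) x = ∫ y, H y • iteratedFDeriv ℝ n (kf s) (x - y)) ∧
  (∀ n : ℕ, 1 ≤ n → ∀ x, Integrable (fun y => H y • iteratedFDeriv ℝ n (kf s) (x - y)))

def S_T1b : Prop := ∀ (s : ℝ) (H : E4 → ℝ), 0 < s → Src H → ∀ x, bilap (pot s H) x = mol s H x

def S_T2 : Prop := ∀ (s : ℝ) (H : E4 → ℝ), 0 < s → Src H →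
  Continuous (mol s H) ∧ (∃ C : ℝ, ∀ x, |mol s H x| ≤ C / (1 + ‖x‖ ^ 2) ^ 4) ∧
  Integrable (mol s H) ∧ ∫ x, |mol s H x| ≤ ∫ x, |H x|

def S_P6 : Prop := ∀ (H : E4 → ℝ), Src H → ∀ U : Set E4, IsOpen U → ContinuousOn H U →
  TendstoLocallyUniformlyOn (fun s x => mol s H x) H (𝓝[>] (0 : ℝ)) U

/-! ### Size of potentials -/

def S_POT0 : Prop := ∃ C : ℝ, 0 < C ∧ ∀ (s : ℝ) (H : E4 → ℝ), 0 < s → s ≤ 1 → Src H →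
  ∀ (M L : ℝ), 0 ≤ L → (∀ y, |H y| ≤ M) → ∀ x : E4,
    |pot s H x| ≤ C * ((1 + L + Real.log (1 + ‖x‖ ^ 2)) * (∫ y, (1 + ‖y‖) * |H y|)
      + Real.exp (-(3 * L)) * M)

def S_POT1 : Prop := ∀ σ : ℝ, 0 ≤ σ → σ < 4 → ∃ C : ℝ, 0 < C ∧ ∀ (H : E4 → ℝ), Src H →
  ∀ (η m : ℝ), 0 < η → η ≤ 1 → ∀ x : E4, (∀ y ∈ ball x η, |H y| ≤ m) →
    Integrable (fun y => ‖x - y‖ ^ (-σ) * |H y|) ∧
    ∫ y, ‖x - y‖ ^ (-σ) * |H y| ≤ η ^ (-σ) * (∫ y, |H y|) + C * m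

/-! ### The sources -/

/-- `q t = t^2 - t^3/3` -/
def qf (t : ℝ) : ℝ := t ^ 2 - t ^ 3 / 3

/-- `om t = 4/3 - q t = (t-2)^2 (t+1) / 3` -/
def om (t : ℝ) : ℝ := 4 / 3 - qf t

/-- the weight integral -/
def Jf (β : ℝ) : ℝ := ∫ z : E4, (if -1 ≤ z 0 then Real.exp (-(4 * β * om (z 0))) else 0) / (1 + ‖z‖ ^ 2) ^ 3

def S_J : Prop := Tendsto Jf atTop (𝓝 0) ∧ (∀ β : ℝ, 0 ≤ β → 0 < Jf β) ∧ ∀ β : ℝ, 0 ≤ β →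
  Integrable (fun z : E4 => (if -1 ≤ z 0 then Real.exp (-(4 * β * om (z 0))) else 0) / (1 + ‖z‖ ^ 2) ^ 3)

/-- the lifting constants -/
def CGood (c : ℝ → ℝ) : Prop := Tendsto c atTop atTop ∧
  ∀ᶠ β in atTop, 0 ≤ c β ∧ c β ≤ Real.sqrt β ∧ Real.exp (5 * c β) * Jf β ≤ 1

def S_C : Prop := ∃ c : ℝ → ℝ, CGood c

/-- the bubble scale -/
def ep (c β : ℝ) : ℝ := Real.exp (-(4 * β / 3) + c) / 2

/-- the exact source at size `s` -/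
def Fs (c β s : ℝ) (z : E4) : ℝ :=
  (if -1 ≤ z 0 then Real.exp (-(4 * β * om (z 0))) else 0) * (6 * Real.exp (4 * c)) / (s ^ 2 + ‖z‖ ^ 2) ^ 4

/-- the remainder source of the bubble -/
def Hb (c β : ℝ) (z : E4) : ℝ := Fs c β (ep c β) z - hs (ep c β) z

/-- everything about the sources which is used later -/
def S_EST : Prop := ∀ c : ℝ → ℝ, CGood c → ∃ ε : ℝ → ℝ, Tendsto ε atTop (𝓝 0) ∧
  ∀ᶠ β in atTop, ∀ H : E4 → ℝ, (H = Hb (c β) β ∨ H = Fs (c β) β 1) →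
    Src H ∧ (∫ y, |H y|) ≤ ε β ∧
    ∀ s : ℝ, 0 < s → s ≤ 1 → ∀ x : E4, |pot s H x| ≤ ε β * (1 + Real.log (1 + ‖x‖ ^ 2))

def S_LOC : Prop := ∀ c : ℝ → ℝ, CGood c → ∀ K : Set E4, IsCompact K →
  K ⊆ {z : E4 | -1 < z 0 ∧ z ≠ 0 ∧ z 0 ≠ 2} → ∀ ε : ℝ, 0 < ε →
  ∀ᶠ β in atTop, ∀ H : E4 → ℝ, (H = Hb (c β) β ∨ H = Fs (c β) β 1) → ∀ z ∈ K, |H z| ≤ ε

/-- derivative bounds for potentials away from the singular set -/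
def S_DER : Prop := ∀ c : ℝ → ℝ, CGood c → ∀ K : Set E4, IsCompact K →
  K ⊆ {z : E4 | -1 < z 0 ∧ z ≠ 0 ∧ z 0 ≠ 2} → ∀ α : ℝ, 0 ≤ α → α < 1 → ∃ C : ℝ, 0 < C ∧
  ∀ᶠ β in atTop, ∀ H : E4 → ℝ, (H = Hb (c β) β ∨ H = Fs (c β) β 1) → ∀ s : ℝ, 0 < s → s ≤ 1 →
    (∀ n : ℕ, n ≤ 3 → ∀ x ∈ K, ‖iteratedFDeriv ℝ n (pot s H) x‖ ≤ C) ∧
    ∀ x ∈ K, ∀ y ∈ K, ‖iteratedFDeriv ℝ 3 (pot s H) x - iteratedFDeriv ℝ 3 (pot s H) y‖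
      ≤ C * ‖x - y‖ ^ α

end Pool.Agent.R207.MB
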