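import Mathlib
import Pool.Agent.R207.MB.Stm

/-! # Project MB (MP_e2b804_an), piece EST: estimates of the sources -/

set_option autoImplicit false

open MeasureTheory Filter Topology Metric

noncomputable section

namespace Pool.Agent.R207.MB.EST

open Pool.Agent.R207.MB

/-- the weight -/
def w3 (z : E4) : ℝ := 1 / (1 + ‖z‖ ^ 2) ^ 3

theorem w3_int : Integrable w3 := by
  have h := integrable_rpow_neg_one_add_norm_sq (E := E4) (μ := volume) (r := 6)
    (by simp; norm_num)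
  refine h.congr (Eventually.of_forall fun z => ?_)
  show ((1 : ℝ) + ‖z‖ ^ 2) ^ (-6 / 2 : ℝ) = 1 / (1 + ‖z‖ ^ 2) ^ 3
  rw [show (-6 / 2 : ℝ) = -((3 : ℕ) : ℝ) by norm_num, Real.rpow_neg (by positivity),
    Real.rpow_natCast, one_div]

theorem w3_pos (z : E4) : 0 < w3 z := by
  unfold w3
  positivity

/-- the constant -/
def KK : ℝ := ∫ z, w3 z

theorem KK_nonneg : 0 ≤ KK := integral_nonneg fun z => (w3_pos z).le

theorem scale (e : ℝ) (he : 0 < e) :
    Integrable (fun z : E4 => 1 / (e ^ 2 + ‖z‖ ^ 2) ^ 3) ∧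
    ∫ z : E4, 1 / (e ^ 2 + ‖z‖ ^ 2) ^ 3 = KK / e ^ 2 := by
  have h1 : ∀ z : E4, 1 / (e ^ 2 + ‖z‖ ^ 2) ^ 3 = (1 / e ^ 6) * w3 (e⁻¹ • z) := by
    intro z
    unfold w3
    rw [norm_smul, Real.norm_eq_abs, abs_of_pos (inv_pos.mpr he)]
    field_simp
  constructor
  · have h2 : Integrable (fun z : E4 => w3 (e⁻¹ • z)) := w3_int.comp_smul (inv_ne_zero he.ne')
    refine (h2.const_mul (1 / e ^ 6)).congr (Eventually.of_forall fun z => ?_)
    exact (h1 z).symm
  · simp only [h1]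
    rw [integral_const_mul, Measure.integral_comp_smul volume w3 e⁻¹]
    have h3 : Module.finrank ℝ E4 = 4 := by simp
    rw [h3, smul_eq_mul, abs_of_pos (by positivity)]
    unfold KK
    field_simp

theorem om_nonneg {t : ℝ} (ht : -1 ≤ t) : 0 ≤ om t := by
  have : om t = (t - 2) ^ 2 * (t + 1) / 3 := by
    unfold om qf
    ring
  rw [this]
  have : 0 ≤ t + 1 := by linarith
  positivity

/-- the cut-off exponential -/
def ce (β : ℝ) (z : E4) : ℝ := if -1 ≤ z 0 then Real.exp (-(4 * β * om (z 0))) else 0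

theorem ce_nonneg (β : ℝ) (z : E4) : 0 ≤ ce β z := by
  unfold ce
  split_ifs
  · exact (Real.exp_pos _).le
  · exact le_rfl

theorem ce_le (β : ℝ) (hβ : 0 ≤ β) (z : E4) : ce β z ≤ 1 := by
  unfold ce
  split_ifs with h
  · rw [Real.exp_le_one_iff]
    have := om_nonneg h
    have : 0 ≤ 4 * β * om (z 0) := by positivity
    linarith
  · exact zero_le_one

theorem ce_meas (β : ℝ) : Measurable (ce β) := by
  unfold ce om qf
  refine Measurable.ite ?_ ?_ measurable_const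
  · exact measurableSet_le measurable_const (by fun_prop)
  · fun_prop

theorem Fs_eq (c β s : ℝ) (z : E4) :
    Fs c β s z = ce β z * (6 * Real.exp (4 * c)) / (s ^ 2 + ‖z‖ ^ 2) ^ 4 := rfl

/-- `1 + |z|² ≤ (1 + s⁻²) (s² + |z|²)` -/
theorem sz (s : ℝ) (hs : 0 < s) (z : E4) :
    1 + ‖z‖ ^ 2 ≤ (1 + 1 / s ^ 2) * (s ^ 2 + ‖z‖ ^ 2) := by
  have h1 : (1 + 1 / s ^ 2) * (s ^ 2 + ‖z‖ ^ 2) = 1 + ‖z‖ ^ 2 + s ^ 2 + ‖z‖ ^ 2 / s ^ 2 := by
    field_simp
    ring
  rw [h1]
  have : 0 ≤ ‖z‖ ^ 2 / s ^ 2 := by positivity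
  nlinarith [sq_nonneg s]

theorem inv4_le (s : ℝ) (hs : 0 < s) (z : E4) :
    1 / (s ^ 2 + ‖z‖ ^ 2) ^ 4 ≤ (1 + 1 / s ^ 2) ^ 4 / (1 + ‖z‖ ^ 2) ^ 4 := by
  rw [div_le_div_iff₀ (by positivity) (by positivity), one_mul, ← mul_pow]
  exact pow_le_pow_left₀ (by positivity) (sz s hs z) 4

theorem src_Fs (c β s : ℝ) (hβ : 0 ≤ β) (hs : 0 < s) : Src (Fs c β s) := by
  constructor
  · have h1 := ce_meas β
    have : Fs c β s = fun z => ce β z * (6 * Real.exp (4 * c)) / (s ^ 2 + ‖z‖ ^ 2) ^ 4 := rfl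
    rw [this]
    fun_prop
  · refine ⟨6 * Real.exp (4 * c) * (1 + 1 / s ^ 2) ^ 4, fun z => ?_⟩
    rw [Fs_eq, abs_of_nonneg (by have := ce_nonneg β z; positivity)]
    have h1 := ce_le β hβ z
    have h2 := ce_nonneg β z
    have h3 := inv4_le s hs z
    have h4 := Real.exp_pos (4 * c)
    calc ce β z * (6 * Real.exp (4 * c)) / (s ^ 2 + ‖z‖ ^ 2) ^ 4
        = ce β z * (6 * Real.exp (4 * c) * (1 / (s ^ 2 + ‖z‖ ^ 2) ^ 4)) := by ring
      _ ≤ 1 * (6 * Real.exp (4 * c) * ((1 + 1 / s ^ 2) ^ 4 / (1 + ‖z‖ ^ 2) ^ 4)) := by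
          gcongr
      _ = _ := by ring

theorem src_hs (s : ℝ) (hs' : 0 < s) : Src (hs s) := by
  constructor
  · unfold hs
    fun_prop
  · refine ⟨96 * s ^ 4 * (1 + 1 / s ^ 2) ^ 4, fun z => ?_⟩
    unfold hs
    rw [abs_of_nonneg (by positivity)]
    have h3 := inv4_le s hs' z
    calc 96 * s ^ 4 / (s ^ 2 + ‖z‖ ^ 2) ^ 4 = 96 * s ^ 4 * (1 / (s ^ 2 + ‖z‖ ^ 2) ^ 4) := by ring
      _ ≤ 96 * s ^ 4 * ((1 + 1 / s ^ 2) ^ 4 / (1 + ‖z‖ ^ 2) ^ 4) := by gcongr
      _ = _ := by ring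

theorem src_sub {H G : E4 → ℝ} (hH : Src H) (hG : Src G) : Src (fun z => H z - G z) := by
  obtain ⟨h1, M1, h2⟩ := hH
  obtain ⟨g1, M2, g2⟩ := hG
  refine ⟨h1.sub g1, M1 + M2, fun z => ?_⟩
  rw [add_div]
  exact (abs_sub _ _).trans (add_le_add (h2 z) (g2 z))

theorem src_ind {H : E4 → ℝ} (hH : Src H) {S : Set E4} (hS : MeasurableSet S) :
    Src (S.indicator H) := by
  obtain ⟨h1, M1, h2⟩ := hH
  refine ⟨h1.indicator hS, M1, fun z => ?_⟩
  refine le_trans ?_ (h2 z)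
  by_cases hz : z ∈ S
  · rw [Set.indicator_of_mem hz]
  · rw [Set.indicator_of_notMem hz, abs_zero]
    exact abs_nonneg _

theorem src_zero : Src (fun _ => (0 : ℝ)) := ⟨measurable_const, 0, fun y => by simp⟩

/-- integrability against the kernel -/
theorem ker_int (s : ℝ) (hs : 0 < s) {H : E4 → ℝ} (hH : Src H) (x : E4) :
    Integrable (fun y => kf s (x - y) * H y) := by
  obtain ⟨hm, M, hM⟩ := hH
  have hM0 : 0 ≤ M := by
    have := (abs_nonneg _).trans (hM 0)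
    simpa using this
  have hb : ∀ y : E4, |Real.log (s ^ 2 + ‖x - y‖ ^ 2)| ≤
      (|Real.log (s ^ 2)| + s ^ 2 + 2 * ‖x‖ ^ 2 + 2) * (1 + ‖y‖ ^ 2) := by
    intro y
    have h1 : Real.log (s ^ 2) ≤ Real.log (s ^ 2 + ‖x - y‖ ^ 2) :=
      Real.log_le_log (by positivity) (by nlinarith [sq_nonneg ‖x - y‖])
    have h2 : Real.log (s ^ 2 + ‖x - y‖ ^ 2) ≤ s ^ 2 + ‖x - y‖ ^ 2 := by
      have := Real.log_le_sub_one_of_pos (show 0 < s ^ 2 + ‖x - y‖ ^ 2 by positivity)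
      linarith
    have h3 : ‖x - y‖ ^ 2 ≤ 2 * ‖x‖ ^ 2 + 2 * ‖y‖ ^ 2 := by
      have h4 := norm_sub_le x y
      have h5 : ‖x - y‖ ^ 2 ≤ (‖x‖ + ‖y‖) ^ 2 := pow_le_pow_left₀ (norm_nonneg _) h4 2
      nlinarith [sq_nonneg (‖x‖ - ‖y‖)]
    have h6 := neg_abs_le (Real.log (s ^ 2))
    have h7 := abs_nonneg (Real.log (s ^ 2))
    rw [abs_le]
    constructor
    · nlinarith [sq_nonneg ‖y‖, sq_nonneg ‖x‖, sq_nonneg s, mul_nonneg h7 (sq_nonneg ‖y‖),
        mul_nonneg (sq_nonneg ‖x‖) (sq_nonneg ‖y‖), mul_nonneg (sq_nonneg s) (sq_nonneg ‖y‖)]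
    · nlinarith [sq_nonneg ‖y‖, sq_nonneg ‖x‖, sq_nonneg s, mul_nonneg h7 (sq_nonneg ‖y‖),
        mul_nonneg (sq_nonneg ‖x‖) (sq_nonneg ‖y‖), mul_nonneg (sq_nonneg s) (sq_nonneg ‖y‖)]
  set D := |Real.log (s ^ 2)| + s ^ 2 + 2 * ‖x‖ ^ 2 + 2 with hD
  have hD0 : 0 ≤ D := by positivity
  refine (w3_int.const_mul (D * M / (16 * Real.pi ^ 2))).mono' ?_ (Eventually.of_forall fun y => ?_)
  · have : Measurable (fun y => kf s (x - y) * H y) := by
      unfold kf Bf
      fun_prop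
    exact this.aestronglyMeasurable
  · rw [Real.norm_eq_abs, abs_mul]
    unfold kf Bf w3
    rw [abs_div, abs_neg, abs_of_pos (show (0 : ℝ) < 16 * Real.pi ^ 2 by positivity)]
    have h1 := hb y
    have h2 := hM y
    calc |Real.log (s ^ 2 + ‖x - y‖ ^ 2)| / (16 * Real.pi ^ 2) * |H y|
        ≤ D * (1 + ‖y‖ ^ 2) / (16 * Real.pi ^ 2) * (M / (1 + ‖y‖ ^ 2) ^ 4) := by gcongr
      _ = _ := by
          have : (1 + ‖y‖ ^ 2) ≠ 0 := by positivity
          field_simp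

theorem pot_add (s : ℝ) (hs : 0 < s) {H G : E4 → ℝ} (hH : Src H) (hG : Src G) (x : E4) :
    pot s (fun z => H z + G z) x = pot s H x + pot s G x := by
  unfold pot
  rw [← integral_add (ker_int s hs hH x) (ker_int s hs hG x)]
  refine integral_congr_ae (Eventually.of_forall fun y => ?_)
  show kf s (x - y) * (H y + G y) = _
  ring

/-! ### The scale -/

theorem ep_pos (c β : ℝ) : 0 < ep c β := by
  unfold ep
  positivity

theorem ep_sq (c β : ℝ) : ep c β ^ 2 = Real.exp (-(8 * β / 3) + 2 * c) / 4 := by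
  unfold ep
  rw [div_pow, ← Real.exp_nat_mul]
  norm_num
  ring

theorem ep_four (c β : ℝ) : ep c β ^ 4 = Real.exp (-(16 * β / 3) + 4 * c) / 16 := by
  unfold ep
  rw [div_pow, ← Real.exp_nat_mul]
  norm_num
  ring

theorem Hb_eq (c β : ℝ) (z : E4) (hz : -1 ≤ z 0) :
    Hb c β z = 96 * ep c β ^ 4 / (ep c β ^ 2 + ‖z‖ ^ 2) ^ 4 * (Real.exp (4 * β * qf (z 0)) - 1) := by
  have h1 : ce β z * (6 * Real.exp (4 * c)) =
      96 * ep c β ^ 4 * Real.exp (4 * β * qf (z 0)) := by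
    unfold ce om
    rw [if_pos hz, ep_four]
    have : Real.exp (-(4 * β * (4 / 3 - qf (z 0)))) * (6 * Real.exp (4 * c)) =
        6 * (Real.exp (-(4 * β * (4 / 3 - qf (z 0)))) * Real.exp (4 * c)) := by ring
    rw [this, ← Real.exp_add]
    have : 96 * (Real.exp (-(16 * β / 3) + 4 * c) / 16) * Real.exp (4 * β * qf (z 0)) =
        6 * (Real.exp (-(16 * β / 3) + 4 * c) * Real.exp (4 * β * qf (z 0))) := by ring
    rw [this, ← Real.exp_add]
    congr 2
    ring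
  unfold Hb hs
  rw [Fs_eq, h1]
  ring

/-- inner estimate -/
theorem inner (c b : ℝ) (hb : 0 ≤ b) (z : E4) (hz : ‖z‖ < 1 / 2) :
    |Hb c b z| ≤ 480 * b * Real.exp (4 * b / 3) * ep c b ^ 4 * (1 / (ep c b ^ 2 + ‖z‖ ^ 2) ^ 3) := by
  have h0 : |z 0| ≤ ‖z‖ := by
    have := PiLp.norm_apply_le z 0
    simpa using this
  have h1 : |z 0| < 1 / 2 := lt_of_le_of_lt h0 hz
  obtain ⟨h2, h3⟩ := abs_lt.mp h1
  rw [Hb_eq c b z (by linarith)]
  set t := z 0 with ht
  have h4 : t ^ 2 ≤ ‖z‖ ^ 2 := by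
    rw [← sq_abs t]
    exact pow_le_pow_left₀ (abs_nonneg _) h0 2
  have h5 : 0 ≤ qf t := by
    unfold qf
    nlinarith [sq_nonneg t, mul_nonneg (sq_nonneg t) (show 0 ≤ 3 - t by linarith)]
  have h6 : qf t ≤ 7 / 6 * t ^ 2 := by
    unfold qf
    nlinarith [mul_nonneg (sq_nonneg t) (show 0 ≤ 1 / 2 + t by linarith)]
  have h7 : t ^ 2 ≤ 1 / 4 := by nlinarith
  set u := 4 * b * qf t with hu
  have hu0 : 0 ≤ u := by positivity
  have hu1 : u ≤ 4 * b / 3 := by
    have : qf t ≤ 1 / 3 := by linarith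
    have := mul_le_mul_of_nonneg_left this (show 0 ≤ 4 * b by positivity)
    linarith
  have hu2 : u ≤ 5 * b * ‖z‖ ^ 2 := by
    have h8 : qf t ≤ 7 / 6 * ‖z‖ ^ 2 := by linarith
    have := mul_le_mul_of_nonneg_left h8 (show 0 ≤ 4 * b by positivity)
    have h9 : 0 ≤ b * ‖z‖ ^ 2 := by positivity
    have h10 : 4 * b * (7 / 6 * ‖z‖ ^ 2) = 14 / 3 * (b * ‖z‖ ^ 2) := by ring
    have h11 : 5 * b * ‖z‖ ^ 2 = 5 * (b * ‖z‖ ^ 2) := by ring
    rw [h11]
    rw [h10] at this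
    linarith
  have he : Real.exp u - 1 ≤ u * Real.exp u := by
    have h9 := Real.add_one_le_exp (-u)
    have h10 : (-u + 1) * Real.exp u ≤ Real.exp (-u) * Real.exp u :=
      mul_le_mul_of_nonneg_right h9 (Real.exp_pos u).le
    rw [← Real.exp_add, neg_add_cancel, Real.exp_zero] at h10
    linarith
  have he0 : 0 ≤ Real.exp u - 1 := by
    have := Real.add_one_le_exp u
    linarith
  have hE : Real.exp u ≤ Real.exp (4 * b / 3) := Real.exp_le_exp.mpr hu1
  have hp := ep_pos c b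
  have hD : 0 < ep c b ^ 2 + ‖z‖ ^ 2 := by positivity
  rw [abs_of_nonneg (by positivity)]
  calc 96 * ep c b ^ 4 / (ep c b ^ 2 + ‖z‖ ^ 2) ^ 4 * (Real.exp u - 1)
      ≤ 96 * ep c b ^ 4 / (ep c b ^ 2 + ‖z‖ ^ 2) ^ 4 *
          ((5 * b * (ep c b ^ 2 + ‖z‖ ^ 2)) * Real.exp (4 * b / 3)) := by
        refine mul_le_mul_of_nonneg_left ?_ (by positivity)
        refine he.trans ?_
        refine mul_le_mul ?_ hE (Real.exp_pos _).le (by positivity)
        refine hu2.trans ?_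
        refine mul_le_mul_of_nonneg_left ?_ (by positivity)
        have := sq_nonneg (ep c b)
        linarith
    _ = _ := by
        field_simp
        ring

/-- outer estimate -/
theorem outer (c b : ℝ) (z : E4) (hz : 1 / 2 ≤ ‖z‖) :
    |Hb c b z| ≤ 625 * (6 * Real.exp (4 * c) * ce b z + 96 * ep c b ^ 4) * (1 / (1 + ‖z‖ ^ 2) ^ 4) := by
  have h1 : (1 + ‖z‖ ^ 2) / 5 ≤ ep c b ^ 2 + ‖z‖ ^ 2 := by
    have : 1 / 4 ≤ ‖z‖ ^ 2 := by nlinarith
    nlinarith [sq_nonneg (ep c b)]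
  have h2 : 1 / (ep c b ^ 2 + ‖z‖ ^ 2) ^ 4 ≤ 625 * (1 / (1 + ‖z‖ ^ 2) ^ 4) := by
    have h3 : ((1 + ‖z‖ ^ 2) / 5) ^ 4 ≤ (ep c b ^ 2 + ‖z‖ ^ 2) ^ 4 :=
      pow_le_pow_left₀ (by positivity) h1 4
    have h4 : 1 / (ep c b ^ 2 + ‖z‖ ^ 2) ^ 4 ≤ 1 / ((1 + ‖z‖ ^ 2) / 5) ^ 4 :=
      one_div_le_one_div_of_le (by positivity) h3
    refine h4.trans (le_of_eq ?_)
    field_simp
    norm_num
  have hc := ce_nonneg b z
  have hp := ep_pos c b
  have h5 : |Hb c b z| ≤ (6 * Real.exp (4 * c) * ce b z + 96 * ep c b ^ 4) *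
      (1 / (ep c b ^ 2 + ‖z‖ ^ 2) ^ 4) := by
    unfold Hb hs
    rw [Fs_eq]
    refine (abs_sub _ _).trans ?_
    rw [abs_of_nonneg (by positivity), abs_of_nonneg (by positivity)]
    refine le_of_eq ?_
    ring
  refine h5.trans ?_
  calc (6 * Real.exp (4 * c) * ce b z + 96 * ep c b ^ 4) * (1 / (ep c b ^ 2 + ‖z‖ ^ 2) ^ 4)
      ≤ (6 * Real.exp (4 * c) * ce b z + 96 * ep c b ^ 4) * (625 * (1 / (1 + ‖z‖ ^ 2) ^ 4)) := by
        gcongr
    _ = _ := by ring

theorem outer1 (c b : ℝ) (z : E4) :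
    |Fs c b 1 z| ≤ 625 * (6 * Real.exp (4 * c) * ce b z + 96 * ep c b ^ 4) * (1 / (1 + ‖z‖ ^ 2) ^ 4) := by
  have hc := ce_nonneg b z
  have hp := ep_pos c b
  rw [Fs_eq, abs_of_nonneg (by positivity)]
  have h1 : ce b z * (6 * Real.exp (4 * c)) / (1 ^ 2 + ‖z‖ ^ 2) ^ 4 =
      (6 * Real.exp (4 * c) * ce b z) * (1 / (1 + ‖z‖ ^ 2) ^ 4) := by
    rw [one_pow]
    ring
  rw [h1]
  refine mul_le_mul_of_nonneg_right ?_ (by positivity)
  have h2 : 0 ≤ 6 * Real.exp (4 * c) * ce b z := by positivity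
  have h3 : 0 ≤ 96 * ep c b ^ 4 := by positivity
  linarith

/-- facts about the parameters -/
theorem par {b c : ℝ} (hb : 36 ≤ b) (hc1 : c ≤ Real.sqrt b) : 6 * c ≤ b := by
  have h1 : 6 ≤ Real.sqrt b := by
    rw [show (6 : ℝ) = Real.sqrt 36 by
      rw [show (36 : ℝ) = 6 ^ 2 by norm_num, Real.sqrt_sq (by norm_num)]]
    exact Real.sqrt_le_sqrt hb
  have h2 : Real.sqrt b * Real.sqrt b = b := Real.mul_self_sqrt (by linarith)
  nlinarith

/-- a piece of the source: bounds by a large sup and small weighted mass -/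
structure Pc (H : E4 → ℝ) (M A : ℝ) : Prop where
  src : Src H
  sup : ∀ z, |H z| ≤ M
  int : Integrable (fun z : E4 => (1 + ‖z‖) * |H z|)
  mass : ∫ z : E4, (1 + ‖z‖) * |H z| ≤ A

theorem src_int {H : E4 → ℝ} (hH : Src H) : Integrable (fun z : E4 => (1 + ‖z‖) * |H z|) := by
  obtain ⟨hm, M, hM⟩ := hH
  refine (w3_int.const_mul (2 * M)).mono' ?_ (Eventually.of_forall fun z => ?_)
  · have : Measurable (fun z : E4 => (1 + ‖z‖) * |H z|) := by fun_prop
    exact this.aestronglyMeasurable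
  · rw [Real.norm_eq_abs, abs_of_nonneg (by positivity)]
    unfold w3
    have h1 := hM z
    have h2 : 1 + ‖z‖ ≤ 2 * (1 + ‖z‖ ^ 2) := by nlinarith [sq_nonneg (‖z‖ - 1), norm_nonneg z]
    calc (1 + ‖z‖) * |H z| ≤ (2 * (1 + ‖z‖ ^ 2)) * (M / (1 + ‖z‖ ^ 2) ^ 4) := by gcongr
      _ = _ := by
          have : (1 + ‖z‖ ^ 2) ≠ 0 := by positivity
          field_simp

theorem pc_inner {b c : ℝ} (hb : 36 ≤ b) (hc0 : 0 ≤ c) (hc1 : c ≤ Real.sqrt b) :
    Pc ((ball (0 : E4) (1 / 2)).indicator (Hb c b)) (1920 * b * Real.exp (4 * b))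
      (180 * KK * b * Real.exp (-b)) := by
  have h6 := par hb hc1
  have hb0 : 0 ≤ b := by linarith
  have hp := ep_pos c b
  have hsrc : Src ((ball (0 : E4) (1 / 2)).indicator (Hb c b)) :=
    src_ind (src_sub (src_Fs c b _ hb0 hp) (src_hs _ hp)) measurableSet_ball
  have hbd : ∀ z : E4, |(ball (0 : E4) (1 / 2)).indicator (Hb c b) z| ≤
      480 * b * Real.exp (4 * b / 3) * ep c b ^ 4 * (1 / (ep c b ^ 2 + ‖z‖ ^ 2) ^ 3) := by
    intro z
    by_cases hz : z ∈ ball (0 : E4) (1 / 2)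
    · rw [Set.indicator_of_mem hz]
      exact inner c b hb0 z (by simpa using hz)
    · rw [Set.indicator_of_notMem hz, abs_zero]
      positivity
  refine ⟨hsrc, fun z => (hbd z).trans ?_, src_int hsrc, ?_⟩
  · have h1 : 1 / (ep c b ^ 2 + ‖z‖ ^ 2) ^ 3 ≤ 1 / (ep c b ^ 2) ^ 3 := by
      apply one_div_le_one_div_of_le (by positivity)
      exact pow_le_pow_left₀ (by positivity) (by nlinarith [sq_nonneg ‖z‖]) 3
    calc 480 * b * Real.exp (4 * b / 3) * ep c b ^ 4 * (1 / (ep c b ^ 2 + ‖z‖ ^ 2) ^ 3)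
        ≤ 480 * b * Real.exp (4 * b / 3) * ep c b ^ 4 * (1 / (ep c b ^ 2) ^ 3) := by gcongr
      _ = 480 * b * Real.exp (4 * b / 3) / ep c b ^ 2 := by
          field_simp
      _ = 1920 * b * (Real.exp (4 * b / 3) * Real.exp (-(-(8 * b / 3) + 2 * c))) := by
          rw [ep_sq, Real.exp_neg]
          field_simp
          ring
      _ ≤ 1920 * b * Real.exp (4 * b) := by
          rw [← Real.exp_add]
          refine mul_le_mul_of_nonneg_left (Real.exp_le_exp.mpr ?_) (by positivity)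
          linarith
  · obtain ⟨hs1, hs2⟩ := scale (ep c b) hp
    have h1 : ∫ z : E4, (1 + ‖z‖) * |(ball (0 : E4) (1 / 2)).indicator (Hb c b) z| ≤
        ∫ z : E4, (720 * b * Real.exp (4 * b / 3) * ep c b ^ 4) *
          (1 / (ep c b ^ 2 + ‖z‖ ^ 2) ^ 3) := by
      refine integral_mono (src_int hsrc) (hs1.const_mul _) fun z => ?_
      show (1 + ‖z‖) * |(ball (0 : E4) (1 / 2)).indicator (Hb c b) z| ≤
        (720 * b * Real.exp (4 * b / 3) * ep c b ^ 4) * (1 / (ep c b ^ 2 + ‖z‖ ^ 2) ^ 3)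
      by_cases hz : z ∈ ball (0 : E4) (1 / 2)
      · have hz' : ‖z‖ < 1 / 2 := by simpa using hz
        have h2 := hbd z
        calc (1 + ‖z‖) * |(ball (0 : E4) (1 / 2)).indicator (Hb c b) z|
            ≤ (3 / 2) * (480 * b * Real.exp (4 * b / 3) * ep c b ^ 4 *
                (1 / (ep c b ^ 2 + ‖z‖ ^ 2) ^ 3)) := by
              refine mul_le_mul (by linarith) h2 (abs_nonneg _) (by norm_num)
          _ = _ := by ring
      · rw [Set.indicator_of_notMem hz, abs_zero, mul_zero]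
        positivity
    refine h1.trans ?_
    rw [integral_const_mul, hs2]
    have h2 : 720 * b * Real.exp (4 * b / 3) * ep c b ^ 4 * (KK / ep c b ^ 2) =
        720 * b * KK * (Real.exp (4 * b / 3) * ep c b ^ 2) := by
      field_simp
    rw [h2, ep_sq]
    have h3 : 720 * b * KK * (Real.exp (4 * b / 3) * (Real.exp (-(8 * b / 3) + 2 * c) / 4)) =
        180 * KK * b * (Real.exp (4 * b / 3) * Real.exp (-(8 * b / 3) + 2 * c)) := by ring
    rw [h3, ← Real.exp_add]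
    have hK := KK_nonneg
    refine mul_le_mul_of_nonneg_left (Real.exp_le_exp.mpr ?_) (by positivity)
    linarith

theorem pc_outer {b c : ℝ} (hb : 36 ≤ b) (_hc0 : 0 ≤ c) (hc1 : c ≤ Real.sqrt b)
    (hJ : Real.exp (5 * c) * Jf b ≤ 1)
    (hJi : Integrable (fun z : E4 => (if -1 ≤ z 0 then Real.exp (-(4 * b * om (z 0))) else 0) / (1 + ‖z‖ ^ 2) ^ 3))
    {H : E4 → ℝ} (hS : Src H)
    (hH : ∀ z, |H z| ≤ 625 * (6 * Real.exp (4 * c) * ce b z + 96 * ep c b ^ 4) *
      (1 / (1 + ‖z‖ ^ 2) ^ 4)) :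
    Pc H (7500 * Real.exp (4 * c)) (7500 * (1 + KK) * Real.exp (-c)) := by
  have h6 := par hb hc1
  have hb0 : 0 ≤ b := by linarith
  have hp := ep_pos c b
  have hK := KK_nonneg
  have h96 : 96 * ep c b ^ 4 = 6 * Real.exp (-(16 * b / 3) + 4 * c) := by
    rw [ep_four]
    ring
  refine ⟨hS, fun z => (hH z).trans ?_, src_int hS, ?_⟩
  · have h1 : 1 / (1 + ‖z‖ ^ 2) ^ 4 ≤ 1 := by
      rw [div_le_one (by positivity)]
      exact one_le_pow₀ (by nlinarith [sq_nonneg ‖z‖])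
    have h2 := ce_le b hb0 z
    have h3 := ce_nonneg b z
    have h4 : 96 * ep c b ^ 4 ≤ 6 * Real.exp (4 * c) := by
      rw [h96]
      refine mul_le_mul_of_nonneg_left (Real.exp_le_exp.mpr ?_) (by norm_num)
      linarith
    calc 625 * (6 * Real.exp (4 * c) * ce b z + 96 * ep c b ^ 4) * (1 / (1 + ‖z‖ ^ 2) ^ 4)
        ≤ 625 * (6 * Real.exp (4 * c) * 1 + 6 * Real.exp (4 * c)) * 1 := by gcongr
      _ = _ := by ring
  · have hi : Integrable (fun z : E4 => 7500 * Real.exp (4 * c) *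
        ((if -1 ≤ z 0 then Real.exp (-(4 * b * om (z 0))) else 0) / (1 + ‖z‖ ^ 2) ^ 3) +
        (1250 * (96 * ep c b ^ 4)) * w3 z) := (hJi.const_mul _).add (w3_int.const_mul _)
    have h1 : ∫ z : E4, (1 + ‖z‖) * |H z| ≤ ∫ z : E4, (7500 * Real.exp (4 * c) *
        ((if -1 ≤ z 0 then Real.exp (-(4 * b * om (z 0))) else 0) / (1 + ‖z‖ ^ 2) ^ 3) +
        (1250 * (96 * ep c b ^ 4)) * w3 z) := by
      refine integral_mono (src_int hS) hi fun z => ?_
      show (1 + ‖z‖) * |H z| ≤ 7500 * Real.exp (4 * c) * (ce b z / (1 + ‖z‖ ^ 2) ^ 3) +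
        (1250 * (96 * ep c b ^ 4)) * (1 / (1 + ‖z‖ ^ 2) ^ 3)
      have h2 := hH z
      have h3 : 1 + ‖z‖ ≤ 2 * (1 + ‖z‖ ^ 2) := by
        nlinarith [sq_nonneg (‖z‖ - 1), norm_nonneg z]
      have h4 := ce_nonneg b z
      calc (1 + ‖z‖) * |H z| ≤ (2 * (1 + ‖z‖ ^ 2)) *
            (625 * (6 * Real.exp (4 * c) * ce b z + 96 * ep c b ^ 4) *
              (1 / (1 + ‖z‖ ^ 2) ^ 4)) := by gcongr
        _ = _ := by
            have : (1 + ‖z‖ ^ 2) ≠ 0 := by positivity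
            field_simp
            ring
    refine h1.trans ?_
    rw [integral_add (hJi.const_mul _) (w3_int.const_mul _), integral_const_mul,
      integral_const_mul]
    change 7500 * Real.exp (4 * c) * Jf b + 1250 * (96 * ep c b ^ 4) * KK ≤ _
    have h7 : Real.exp (4 * c) * Jf b ≤ Real.exp (-c) := by
      have h8 : Real.exp (4 * c) * Jf b = Real.exp (-c) * (Real.exp (5 * c) * Jf b) := by
        rw [← mul_assoc, ← Real.exp_add]
        congr 2
        ring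
      rw [h8]
      calc Real.exp (-c) * (Real.exp (5 * c) * Jf b) ≤ Real.exp (-c) * 1 := by gcongr
        _ = _ := mul_one _
    have h9 : 96 * ep c b ^ 4 ≤ 6 * Real.exp (-c) := by
      rw [h96]
      refine mul_le_mul_of_nonneg_left (Real.exp_le_exp.mpr ?_) (by norm_num)
      linarith
    calc 7500 * Real.exp (4 * c) * Jf b + 1250 * (96 * ep c b ^ 4) * KK
        = 7500 * (Real.exp (4 * c) * Jf b) + 1250 * (96 * ep c b ^ 4) * KK := by ring
      _ ≤ 7500 * Real.exp (-c) + 1250 * (6 * Real.exp (-c)) * KK := by gcongr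
      _ = _ := by ring

/-- splitting of the sources -/
theorem split {b c : ℝ} (hb : 36 ≤ b) (hc0 : 0 ≤ c) (hc1 : c ≤ Real.sqrt b)
    (hJ : Real.exp (5 * c) * Jf b ≤ 1)
    (hJi : Integrable (fun z : E4 => (if -1 ≤ z 0 then Real.exp (-(4 * b * om (z 0))) else 0) / (1 + ‖z‖ ^ 2) ^ 3))
    {H : E4 → ℝ} (hH : H = Hb c b ∨ H = Fs c b 1) :
    ∃ H1 H2 : E4 → ℝ, H = (fun z => H1 z + H2 z) ∧
      Pc H1 (1920 * b * Real.exp (4 * b)) (180 * KK * b * Real.exp (-b)) ∧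
      Pc H2 (7500 * Real.exp (4 * c)) (7500 * (1 + KK) * Real.exp (-c)) := by
  have hb0 : 0 ≤ b := by linarith
  have hp := ep_pos c b
  have hK := KK_nonneg
  rcases hH with rfl | rfl
  · refine ⟨(ball (0 : E4) (1 / 2)).indicator (Hb c b), (ball (0 : E4) (1 / 2))ᶜ.indicator (Hb c b),
      ?_, pc_inner hb hc0 hc1, ?_⟩
    · funext z
      have := congrFun (Set.indicator_self_add_compl (ball (0 : E4) (1 / 2)) (Hb c b)) z
      exact this.symm
    · refine pc_outer hb hc0 hc1 hJ hJi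
        (src_ind (src_sub (src_Fs c b _ hb0 hp) (src_hs _ hp)) measurableSet_ball.compl) ?_
      intro z
      by_cases hz : z ∈ (ball (0 : E4) (1 / 2))ᶜ
      · rw [Set.indicator_of_mem hz]
        refine outer c b z ?_
        simpa using hz
      · rw [Set.indicator_of_notMem hz, abs_zero]
        have := ce_nonneg b z
        positivity
  · refine ⟨fun _ => 0, Fs c b 1, ?_, ⟨src_zero, ?_, ?_, ?_⟩,
      pc_outer hb hc0 hc1 hJ hJi (src_Fs c b 1 hb0 one_pos) (outer1 c b)⟩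
    · funext z
      rw [zero_add]
    · intro z
      rw [abs_zero]
      positivity
    · simp
    · simp
      positivity

/-- the error function -/
def er (C : ℝ) (b c : ℝ) : ℝ :=
  (180 * KK * (C + 1) + 1920 * C) * (b ^ 1 * Real.exp (-b)) +
  (360 * KK * C) * (b ^ 2 * Real.exp (-b)) +
  (7500 * (1 + KK) * (C + 1) + 7500 * C) * (c ^ 0 * Real.exp (-c)) +
  (15000 * (1 + KK) * C) * (c ^ 1 * Real.exp (-c))

theorem er_tendsto (C : ℝ) (c : ℝ → ℝ) (hc : Tendsto c atTop atTop) :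
    Tendsto (fun b => er C b (c b)) atTop (𝓝 0) := by
  have h := fun n : ℕ => Real.tendsto_pow_mul_exp_neg_atTop_nhds_zero n
  have h1 := (h 1).const_mul (180 * KK * (C + 1) + 1920 * C)
  have h2 := (h 2).const_mul (360 * KK * C)
  have h3 := ((h 0).comp hc).const_mul (7500 * (1 + KK) * (C + 1) + 7500 * C)
  have h4 := ((h 1).comp hc).const_mul (15000 * (1 + KK) * C)
  have h5 := ((h1.add h2).add h3).add h4
  simp only [mul_zero, add_zero] at h5
  exact h5

end Pool.Agent.R207.MB.EST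

namespace Pool.Agent.R207.MB

open Pool.Agent.R207.MB.EST

theorem t_EST (hP : S_POT0) (hJ : S_J) : S_EST := by
  intro c hc
  obtain ⟨C, hC, hP⟩ := hP
  obtain ⟨-, -, hJi⟩ := hJ
  obtain ⟨hc1, hc2⟩ := hc
  refine ⟨fun b => er C b (c b), er_tendsto C c hc1, ?_⟩
  filter_upwards [hc2, eventually_ge_atTop (36 : ℝ)] with b hb hb36 H hH
  obtain ⟨hc0, hcs, hcJ⟩ := hb
  have hb0 : 0 ≤ b := by linarith
  have hK := KK_nonneg
  obtain ⟨H1, H2, hsum, p1, p2⟩ := split hb36 hc0 hcs hcJ (hJi b hb0) hH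
  have hSrc : Src H := by
    have hp := ep_pos (c b) b
    rcases hH with h | h
    · rw [h]
      exact src_sub (src_Fs _ b _ hb0 hp) (src_hs _ hp)
    · rw [h]
      exact src_Fs _ b 1 hb0 one_pos
  have hA1 : 0 ≤ 180 * KK * b * Real.exp (-b) := by positivity
  have hA2 : 0 ≤ 7500 * (1 + KK) * Real.exp (-(c b)) := by positivity
  refine ⟨hSrc, ?_, ?_⟩
  · have h1 : ∫ y, |H y| ≤ ∫ y, ((1 + ‖y‖) * |H1 y| + (1 + ‖y‖) * |H2 y|) := by
      refine integral_mono_of_nonneg (Eventually.of_forall fun y => abs_nonneg _)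
        (p1.int.add p2.int) (Eventually.of_forall fun y => ?_)
      show |H y| ≤ (1 + ‖y‖) * |H1 y| + (1 + ‖y‖) * |H2 y|
      have h2 : H y = H1 y + H2 y := congrFun hsum y
      rw [h2]
      have h3 := abs_add_le (H1 y) (H2 y)
      nlinarith [norm_nonneg y, abs_nonneg (H1 y), abs_nonneg (H2 y),
        mul_nonneg (norm_nonneg y) (abs_nonneg (H1 y)), mul_nonneg (norm_nonneg y) (abs_nonneg (H2 y))]
    rw [integral_add p1.int p2.int] at h1
    have h2 := p1.mass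
    have h3 := p2.mass
    have h4 : 180 * KK * b * Real.exp (-b) + 7500 * (1 + KK) * Real.exp (-(c b)) ≤ er C b (c b) := by
      unfold er
      have e1 := Real.exp_pos (-b)
      have e2 := Real.exp_pos (-(c b))
      have : 0 ≤ 180 * KK * C * (b * Real.exp (-b)) + 1920 * C * (b * Real.exp (-b)) +
        (360 * KK * C) * (b ^ 2 * Real.exp (-b)) + (7500 * (1 + KK) * C + 7500 * C) * Real.exp (-(c b))
        + (15000 * (1 + KK) * C) * (c b * Real.exp (-(c b))) := by positivity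
      rw [pow_one, pow_zero, pow_one, one_mul]
      linarith
    linarith
  · intro s hs hs1 x
    have h1 := hP s H1 hs hs1 p1.src _ (2 * b) (by positivity) p1.sup x
    have h2 := hP s H2 hs hs1 p2.src _ (2 * c b) (by positivity) p2.sup x
    have h3 : pot s H x = pot s H1 x + pot s H2 x := by
      rw [hsum]
      exact pot_add s hs p1.src p2.src x
    rw [h3]
    refine (abs_add_le _ _).trans ?_
    set ℓ := Real.log (1 + ‖x‖ ^ 2) with hℓ
    have hℓ0 : 0 ≤ ℓ := Real.log_nonneg (by nlinarith [sq_nonneg ‖x‖])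
    have e1 := Real.exp_pos (-b)
    have e2 := Real.exp_pos (-(c b))
    have i1 : 0 ≤ ∫ y : E4, (1 + ‖y‖) * |H1 y| := integral_nonneg fun y => by positivity
    have i2 : 0 ≤ ∫ y : E4, (1 + ‖y‖) * |H2 y| := integral_nonneg fun y => by positivity
    have h4 : |pot s H1 x| ≤ C * ((1 + 2 * b) * (1 + ℓ) * (180 * KK * b * Real.exp (-b)) +
        1920 * b * Real.exp (-b) * (1 + ℓ)) := by
      refine h1.trans (mul_le_mul_of_nonneg_left ?_ hC.le)
      refine add_le_add ?_ ?_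
      · refine mul_le_mul ?_ p1.mass i1 (by positivity)
        nlinarith
      · have h5 : Real.exp (-(3 * (2 * b))) * (1920 * b * Real.exp (4 * b)) =
            1920 * b * (Real.exp (-(3 * (2 * b))) * Real.exp (4 * b)) := by ring
        rw [h5, ← Real.exp_add]
        have h6 : Real.exp (-(3 * (2 * b)) + 4 * b) ≤ Real.exp (-b) :=
          Real.exp_le_exp.mpr (by linarith)
        calc 1920 * b * Real.exp (-(3 * (2 * b)) + 4 * b) ≤ 1920 * b * Real.exp (-b) * 1 := by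
              rw [mul_one]
              gcongr
          _ ≤ 1920 * b * Real.exp (-b) * (1 + ℓ) := by
              gcongr
              linarith
    have h5 : |pot s H2 x| ≤ C * ((1 + 2 * c b) * (1 + ℓ) * (7500 * (1 + KK) * Real.exp (-(c b))) +
        7500 * Real.exp (-(c b)) * (1 + ℓ)) := by
      refine h2.trans (mul_le_mul_of_nonneg_left ?_ hC.le)
      refine add_le_add ?_ ?_
      · refine mul_le_mul ?_ p2.mass i2 (by positivity)
        nlinarith
      · have h5 : Real.exp (-(3 * (2 * c b))) * (7500 * Real.exp (4 * c b)) =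
            7500 * (Real.exp (-(3 * (2 * c b))) * Real.exp (4 * c b)) := by ring
        rw [h5, ← Real.exp_add]
        have h6 : Real.exp (-(3 * (2 * c b)) + 4 * c b) ≤ Real.exp (-(c b)) :=
          Real.exp_le_exp.mpr (by linarith)
        calc 7500 * Real.exp (-(3 * (2 * c b)) + 4 * c b) ≤ 7500 * Real.exp (-(c b)) * 1 := by
              rw [mul_one]
              gcongr
          _ ≤ 7500 * Real.exp (-(c b)) * (1 + ℓ) := by
              gcongr
              linarith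
    refine (add_le_add h4 h5).trans ?_
    have h6 : 0 ≤ 180 * KK * b * Real.exp (-b) + 7500 * (1 + KK) * Real.exp (-(c b)) := by positivity
    have h7 : er C b (c b) * (1 + ℓ) = C * ((1 + 2 * b) * (1 + ℓ) * (180 * KK * b * Real.exp (-b)) +
        1920 * b * Real.exp (-b) * (1 + ℓ)) +
        C * ((1 + 2 * c b) * (1 + ℓ) * (7500 * (1 + KK) * Real.exp (-(c b))) +
        7500 * Real.exp (-(c b)) * (1 + ℓ)) +
        (180 * KK * b * Real.exp (-b) + 7500 * (1 + KK) * Real.exp (-(c b))) * (1 + ℓ) := by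
      unfold er
      ring
    rw [h7]
    have h8 : 0 ≤ (180 * KK * b * Real.exp (-b) + 7500 * (1 + KK) * Real.exp (-(c b))) * (1 + ℓ) := by
      positivity
    linarith

end Pool.Agent.R207.MB
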