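import Pool.Agent.R207.MB.Stm

set_option autoImplicit false

open MeasureTheory Filter Topology Metric

namespace Pool.Agent.R207.MB

namespace J

/-- the integrand of `Jf` -/
noncomputable def fJ (β : ℝ) (z : E4) : ℝ :=
  (if -1 ≤ z 0 then Real.exp (-(4 * β * om (z 0))) else 0) / (1 + ‖z‖ ^ 2) ^ 3

theorem om_eq (t : ℝ) : om t = (t - 2) ^ 2 * (t + 1) / 3 := by
  unfold om qf; ring

theorem om_nonneg {t : ℝ} (h : -1 ≤ t) : 0 ≤ om t := by
  rw [om_eq]
  have : 0 ≤ t + 1 := by linarith
  positivity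

theorem null_plane (c : ℝ) : volume {z : E4 | z 0 = c} = 0 := by
  have h := PiLp.volume_preserving_ofLp (Fin 4)
  have h2 : {z : E4 | z 0 = c} = WithLp.ofLp ⁻¹' {f : Fin 4 → ℝ | f 0 = c} := rfl
  have hm : MeasurableSet {f : Fin 4 → ℝ | f 0 = c} :=
    measurableSet_eq_fun (by fun_prop) measurable_const
  rw [h2, h.measure_preimage hm.nullMeasurableSet, volume_pi]
  exact Measure.pi_hyperplane (fun _ : Fin 4 => (volume : Measure ℝ)) 0 c

theorem meas_fJ (β : ℝ) : Measurable (fJ β) := by
  unfold fJ om qf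
  apply Measurable.div
  · exact Measurable.ite (measurableSet_le measurable_const (by fun_prop)) (by fun_prop)
      measurable_const
  · fun_prop

theorem bound_int : Integrable (fun z : E4 => 1 / (1 + ‖z‖ ^ 2) ^ 3) := by
  have h := integrable_rpow_neg_one_add_norm_sq (E := E4) (μ := volume) (r := 6)
    (by simp [E4]; norm_num)
  refine h.congr (Eventually.of_forall fun z => ?_)
  have hp : (0 : ℝ) < 1 + ‖z‖ ^ 2 := by positivity
  show (1 + ‖z‖ ^ 2) ^ (-(6 : ℝ) / 2) = 1 / (1 + ‖z‖ ^ 2) ^ 3
  rw [show -(6 : ℝ) / 2 = -((3 : ℕ) : ℝ) by norm_num, Real.rpow_neg hp.le, Real.rpow_natCast, one_div]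

theorem fJ_nonneg (β : ℝ) (z : E4) : 0 ≤ fJ β z := by
  unfold fJ
  split_ifs <;> positivity

theorem fJ_le {β : ℝ} (hβ : 0 ≤ β) (z : E4) : fJ β z ≤ 1 / (1 + ‖z‖ ^ 2) ^ 3 := by
  unfold fJ
  gcongr
  split_ifs with h
  · rw [Real.exp_le_one_iff]
    have := om_nonneg h
    have : 0 ≤ 4 * β * om (z 0) := by positivity
    linarith
  · exact zero_le_one

theorem int_fJ {β : ℝ} (hβ : 0 ≤ β) : Integrable (fJ β) := by
  refine bound_int.mono' (meas_fJ β).aestronglyMeasurable (Eventually.of_forall fun z => ?_)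
  rw [Real.norm_eq_abs, abs_of_nonneg (fJ_nonneg β z)]
  exact fJ_le hβ z

end J

open J in
theorem t_J : S_J := by
  refine ⟨?_, ?_, fun β hβ => int_fJ hβ⟩
  · have h0 : (0 : ℝ) = ∫ _z : E4, (0 : ℝ) := by simp
    rw [h0]
    refine tendsto_integral_filter_of_dominated_convergence
      (fun z : E4 => 1 / (1 + ‖z‖ ^ 2) ^ 3) (F := fun β => fJ β)
      (Eventually.of_forall fun β => (meas_fJ β).aestronglyMeasurable) ?_ bound_int ?_
    · filter_upwards [eventually_ge_atTop (0 : ℝ)] with β hβ
      refine Eventually.of_forall fun z => ?_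
      rw [Real.norm_eq_abs, abs_of_nonneg (fJ_nonneg β z)]
      exact fJ_le hβ z
    · have hn : ∀ᵐ z : E4 ∂volume, z 0 ≠ -1 ∧ z 0 ≠ 2 := by
        have h1 : ∀ᵐ z : E4 ∂volume, z 0 ≠ -1 := by
          rw [ae_iff]; simpa using null_plane (-1)
        have h2 : ∀ᵐ z : E4 ∂volume, z 0 ≠ 2 := by
          rw [ae_iff]; simpa using null_plane 2
        filter_upwards [h1, h2] with z a b using ⟨a, b⟩
      filter_upwards [hn] with z hz
      unfold fJ
      split_ifs with h
      · have hom : 0 < om (z 0) := by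
          rw [om_eq]
          have h3 : 0 < z 0 + 1 := by
            have := lt_of_le_of_ne h (Ne.symm hz.1)
            linarith
          have h4 : 0 < (z 0 - 2) ^ 2 := by
            have : z 0 - 2 ≠ 0 := sub_ne_zero.2 hz.2
            positivity
          positivity
        have h5 : Tendsto (fun β : ℝ => -(4 * β * om (z 0))) atTop atBot := by
          have : Tendsto (fun β : ℝ => (4 * om (z 0)) * β) atTop atTop :=
            tendsto_id.const_mul_atTop (by positivity)
          refine (tendsto_neg_atTop_atBot.comp this).congr fun β => ?_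
          simp only [Function.comp]; ring
        have h6 := (Real.tendsto_exp_atBot.comp h5).div_const ((1 + ‖z‖ ^ 2) ^ 3)
        simpa using h6
      · simp
  · intro β hβ
    show 0 < ∫ z : E4, fJ β z
    rw [integral_pos_iff_support_of_nonneg (fJ_nonneg β) (int_fJ hβ)]
    have hopen : IsOpen {z : E4 | -1 < z 0} := isOpen_lt continuous_const (by fun_prop)
    refine lt_of_lt_of_le (hopen.measure_pos volume ⟨0, by simp⟩) (measure_mono ?_)
    intro z hz
    have hz' : -1 < z 0 := hz
    rw [Function.mem_support]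
    unfold fJ
    rw [if_pos hz'.le]
    positivity

end Pool.Agent.R207.MB
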