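import Pool.Agent.R207.MB.Stm

/-! Pieces K3 and K1: smoothness and derivative bounds of `-log (s^2 + |z|^2)`. -/

set_option autoImplicit false

open MeasureTheory Filter Topology Metric

noncomputable section

namespace Pool.Agent.R207.MB

namespace K1

abbrev W : Type := ℝ × E4

def G (p : W) : ℝ := -Real.log (p.1 ^ 2 + ‖p.2‖ ^ 2)

def U : Set W := {p | 0 < p.1 ^ 2 + ‖p.2‖ ^ 2}

theorem isOpen_U : IsOpen U := by
  refine isOpen_lt continuous_const ?_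
  fun_prop

theorem G_contDiffAt {p : W} (hp : p ∈ U) : ContDiffAt ℝ (⊤ : ℕ∞) G p := by
  have h1 : ContDiff ℝ (⊤ : ℕ∞) (fun p : W => p.1 ^ 2 + ‖p.2‖ ^ 2) :=
    (contDiff_fst.pow 2).add ((contDiff_norm_sq ℝ).comp contDiff_snd)
  have h2 : p.1 ^ 2 + ‖p.2‖ ^ 2 ≠ 0 := ne_of_gt hp
  exact (h1.contDiffAt.log h2).neg

theorem bound (n : ℕ) : ∃ M : ℝ, 0 < M ∧ ∀ p : W, p.1 ^ 2 + ‖p.2‖ ^ 2 = 1 →
    ‖iteratedFDeriv ℝ n G p‖ ≤ M := by
  have hc : IsCompact {p : W | p.1 ^ 2 + ‖p.2‖ ^ 2 = 1} := by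
    refine Metric.isCompact_of_isClosed_isBounded (isClosed_eq (by fun_prop) continuous_const) ?_
    refine (Metric.isBounded_closedBall (x := (0 : W)) (r := 1)).subset ?_
    intro p hp
    have hp' : p.1 ^ 2 + ‖p.2‖ ^ 2 = 1 := hp
    rw [mem_closedBall_zero_iff, Prod.norm_def]
    apply max_le
    · rw [Real.norm_eq_abs, ← sq_le_one_iff_abs_le_one]
      nlinarith [sq_nonneg ‖p.2‖]
    · rw [← abs_of_nonneg (norm_nonneg p.2), ← sq_le_one_iff_abs_le_one]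
      nlinarith [sq_nonneg p.1]
  have hcont : ContinuousOn (fun p => ‖iteratedFDeriv ℝ n G p‖)
      {p : W | p.1 ^ 2 + ‖p.2‖ ^ 2 = 1} := by
    intro p hp
    have hp' : p.1 ^ 2 + ‖p.2‖ ^ 2 = 1 := hp
    have hU : p ∈ U := by
      show 0 < p.1 ^ 2 + ‖p.2‖ ^ 2
      rw [hp']; exact one_pos
    have h1 : ContDiffAt ℝ 0 (iteratedFDeriv ℝ n G) p :=
      (G_contDiffAt hU).iteratedFDeriv_right (m := 0) (i := n) (by
        rw [zero_add]
        exact_mod_cast le_top)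
    exact h1.continuousAt.norm.continuousWithinAt
  obtain ⟨M, hM⟩ := hc.bddAbove_image hcont
  refine ⟨max M 1, lt_of_lt_of_le one_pos (le_max_right _ _), fun p hp => ?_⟩
  exact le_trans (hM ⟨p, hp, rfl⟩) (le_max_left _ _)

theorem key (n : ℕ) (hn : 1 ≤ n) (s : ℝ) (z : E4) (h : 0 < s ^ 2 + ‖z‖ ^ 2) (l : ℝ)
    (hl : 0 < l) :
    ‖iteratedFDeriv ℝ n (Bf s) z‖ ≤ ‖iteratedFDeriv ℝ n G (l * s, l • z)‖ * l ^ n := by
  set g : E4 →L[ℝ] W := l • ContinuousLinearMap.inr ℝ ℝ E4 with hg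
  set f : W → ℝ := fun w => G ((l * s, 0) + w) with hf'
  set V : Set W := {w | (l * s, (0 : E4)) + w ∈ U} with hV'
  have hgy : ∀ y : E4, (l * s, (0 : E4)) + g y = (l * s, l • y) := by
    intro y
    simp [hg]
  have hV : IsOpen V := isOpen_U.preimage (by fun_prop)
  have hf : ContDiffOn ℝ (⊤ : ℕ∞) f V := by
    intro w hw
    have h1 : ContDiffAt ℝ (⊤ : ℕ∞) (fun w : W => (l * s, (0 : E4)) + w) w :=
      contDiffAt_const.add contDiffAt_id
    exact (ContDiffAt.comp w (G_contDiffAt hw) h1).contDiffWithinAt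
  have hpos : ∀ y : E4, 0 < s ^ 2 + ‖y‖ ^ 2 → (l * s, l • y) ∈ U := by
    intro y hy
    show 0 < (l * s) ^ 2 + ‖l • y‖ ^ 2
    rw [norm_smul, mul_pow, mul_pow, Real.norm_eq_abs, sq_abs, ← mul_add]
    positivity
  have hgz : g z ∈ V := by
    show (l * s, (0 : E4)) + g z ∈ U
    rw [hgy]
    exact hpos z h
  have hgV : IsOpen (g ⁻¹' V) := hV.preimage g.continuous
  have h1 := g.iteratedFDerivWithin_comp_right hf hV.uniqueDiffOn hgV.uniqueDiffOn hgz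
    (i := n) (by exact_mod_cast le_top)
  rw [iteratedFDerivWithin_of_isOpen n hgV hgz, iteratedFDerivWithin_of_isOpen n hV hgz] at h1
  have h2 : Bf s =ᶠ[𝓝 z] (f ∘ g) + (fun _ => 2 * Real.log l) := by
    have hcont : Continuous (fun y : E4 => s ^ 2 + ‖y‖ ^ 2) := by fun_prop
    filter_upwards [hcont.continuousAt.eventually (lt_mem_nhds h)] with y hy
    simp only [Pi.add_apply, Function.comp_apply, hf', hgy, G, Bf]
    rw [norm_smul, mul_pow, mul_pow, Real.norm_eq_abs, sq_abs, ← mul_add,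
      Real.log_mul (by positivity) hy.ne', Real.log_pow]
    push_cast
    ring
  have h3 : iteratedFDeriv ℝ n (Bf s) z = iteratedFDeriv ℝ n (f ∘ g) z := by
    rw [(h2.iteratedFDeriv (𝕜 := ℝ) n).eq_of_nhds]
    rw [iteratedFDeriv_add_apply]
    · rw [iteratedFDeriv_const_of_ne (by omega)]
      simp
    · have hfa : ContDiffAt ℝ (⊤ : ℕ∞) f (g z) := hf.contDiffAt (hV.mem_nhds hgz)
      have : ContDiffAt ℝ (⊤ : ℕ∞) (f ∘ g) z := hfa.comp z g.contDiff.contDiffAt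
      exact this.of_le (by exact_mod_cast le_top)
    · exact contDiffAt_const
  rw [h3, h1]
  refine le_trans (ContinuousMultilinearMap.norm_compContinuousLinearMap_le _ _) ?_
  have h4 : iteratedFDeriv ℝ n f (g z) = iteratedFDeriv ℝ n G (l * s, l • z) := by
    rw [hf', iteratedFDeriv_comp_add_left, hgy]
  rw [h4]
  refine mul_le_mul_of_nonneg_left ?_ (norm_nonneg _)
  simp only [Finset.prod_const, Finset.card_univ, Fintype.card_fin]
  refine pow_le_pow_left₀ (norm_nonneg _) ?_ n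
  refine ContinuousLinearMap.opNorm_le_bound _ hl.le (fun y => ?_)
  simp [hg, Prod.norm_def, norm_smul, abs_of_pos hl]
  positivity

end K1

open K1 in
theorem t_K3 : S_K3 := by
  intro s z hz
  have h1 : ContDiff ℝ (⊤ : ℕ∞) (fun y : E4 => s ^ 2 + ‖y‖ ^ 2) :=
    contDiff_const.add (contDiff_norm_sq ℝ)
  exact (h1.contDiffAt.log hz.ne').neg

open K1 in
theorem t_K1 : S_K1 := by
  intro n hn
  obtain ⟨M, hM, hb⟩ := bound n
  refine ⟨M, hM, fun s z hz => ?_⟩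
  set ρ := Real.sqrt (s ^ 2 + ‖z‖ ^ 2) with hρ
  have hρ0 : 0 < ρ := Real.sqrt_pos.mpr hz
  have hρ2 : ρ ^ 2 = s ^ 2 + ‖z‖ ^ 2 := Real.sq_sqrt hz.le
  have h1 := key n hn s z hz ρ⁻¹ (inv_pos.mpr hρ0)
  have h2 := hb (ρ⁻¹ * s, ρ⁻¹ • z) (by
    simp only
    rw [norm_smul, mul_pow, mul_pow, Real.norm_eq_abs, sq_abs, ← mul_add, ← hρ2]
    field_simp)
  calc ‖iteratedFDeriv ℝ n (Bf s) z‖ ≤ ‖iteratedFDeriv ℝ n G (ρ⁻¹ * s, ρ⁻¹ • z)‖ * ρ⁻¹ ^ n := h1
    _ ≤ M * ρ⁻¹ ^ n := mul_le_mul_of_nonneg_right h2 (by positivity)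
    _ = M / ρ ^ n := by rw [inv_pow, div_eq_mul_inv]

end Pool.Agent.R207.MB
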