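import Pool.Agent.R207.MB.Stm

set_option autoImplicit false

open MeasureTheory Filter Topology Metric

noncomputable section

namespace Pool.Agent.R207.MB.K2

theorem sqrt_ge (s : ℝ) (z : E4) : ‖z‖ ≤ Real.sqrt (s ^ 2 + ‖z‖ ^ 2) := by
  apply Real.le_sqrt_of_sq_le
  nlinarith [sq_nonneg s]

theorem bound (n : ℕ) (M : ℝ) (hM : 0 < M)
    (h : ∀ (s : ℝ) (z : E4), 0 < s ^ 2 + ‖z‖ ^ 2 →
      ‖iteratedFDeriv ℝ n (Bf s) z‖ ≤ M / (Real.sqrt (s ^ 2 + ‖z‖ ^ 2)) ^ n)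
    (s : ℝ) (z : E4) (r : ℝ) (hr : 0 < r) (hz : r ≤ ‖z‖) :
    ‖iteratedFDeriv ℝ n (Bf s) z‖ ≤ M / r ^ n := by
  have h1 : 0 < ‖z‖ := hr.trans_le hz
  refine (h s z (by positivity)).trans ?_
  have h2 := hz.trans (sqrt_ge s z)
  gcongr

theorem near (M : ℝ) (hM : 0 < M) (h3 : S_K3)
    (h : ∀ (s : ℝ) (z : E4), 0 < s ^ 2 + ‖z‖ ^ 2 →
      ‖iteratedFDeriv ℝ 4 (Bf s) z‖ ≤ M / (Real.sqrt (s ^ 2 + ‖z‖ ^ 2)) ^ 4)
    (s : ℝ) (z w : E4) (hz : z ≠ 0) (hzw : ‖z - w‖ ≤ ‖z‖ / 2) :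
    ‖iteratedFDeriv ℝ 3 (Bf s) z - iteratedFDeriv ℝ 3 (Bf s) w‖ ≤
      M / (‖z‖ / 2) ^ 4 * ‖z - w‖ := by
  have hz0 : 0 < ‖z‖ := norm_pos_iff.2 hz
  have hball : ∀ v ∈ closedBall z (‖z‖ / 2), ‖z‖ / 2 ≤ ‖v‖ := by
    intro v hv
    rw [mem_closedBall, dist_eq_norm] at hv
    have h1 : ‖z‖ ≤ ‖v - z‖ + ‖v‖ := by
      have := norm_sub_le v (v - z)
      rw [sub_sub_cancel] at this
      linarith
    linarith
  have key := Convex.norm_image_sub_le_of_norm_fderiv_le (𝕜 := ℝ)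
    (f := iteratedFDeriv ℝ 3 (Bf s)) (C := M / (‖z‖ / 2) ^ 4) (s := closedBall z (‖z‖ / 2))
    (x := w) (y := z)
    (fun v hv => by
      have h1 := hball v hv
      have h2 : 0 < ‖v‖ := (half_pos hz0).trans_le h1
      have h4 := (h3 s v (by positivity)).iteratedFDeriv_right (i := 3) (m := 1)
        (by norm_cast)
      exact h4.differentiableAt one_ne_zero)
    (fun v hv => by
      rw [norm_fderiv_iteratedFDeriv]
      exact bound 4 M hM h s v _ (half_pos hz0) (hball v hv))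
    (convex_closedBall _ _)
    (by rw [mem_closedBall, dist_eq_norm, norm_sub_rev]; exact hzw)
    (mem_closedBall_self (half_pos hz0).le)
  exact key

theorem near_rpow (α : ℝ) (h1 : α ≤ 1) (M a d : ℝ) (hM : 0 < M) (ha : 0 < a) (hd : 0 < d)
    (hda : d ≤ a / 2) : M / (a / 2) ^ 4 * d ≤ 16 * M * d ^ α * a ^ (-(3 + α)) := by
  have e1 : d = d ^ α * d ^ (1 - α) := by
    rw [← Real.rpow_add hd, add_sub_cancel, Real.rpow_one]
  have e2 : d ^ (1 - α) ≤ a ^ (1 - α) :=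
    Real.rpow_le_rpow hd.le (by linarith) (by linarith)
  have e3 : a ^ (-(3 + α)) = a ^ (1 - α) / a ^ 4 := by
    rw [← Real.rpow_natCast, ← Real.rpow_sub ha]
    congr 1
    push_cast
    ring
  have e4 : M / (a / 2) ^ 4 * d = 16 * M * (d ^ α * d ^ (1 - α)) / a ^ 4 := by
    rw [← e1]
    field_simp
    norm_num
  rw [e4, e3]
  have h5 : 0 < d ^ α := Real.rpow_pos_of_pos hd _
  calc 16 * M * (d ^ α * d ^ (1 - α)) / a ^ 4 ≤ 16 * M * (d ^ α * a ^ (1 - α)) / a ^ 4 := by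
        gcongr
    _ = 16 * M * d ^ α * (a ^ (1 - α) / a ^ 4) := by ring

theorem far_rpow (α : ℝ) (h0 : 0 ≤ α) (h1 : α ≤ 1) (M a d : ℝ) (hM : 0 < M) (ha : 0 < a)
    (hda : a / 2 ≤ d) : M / a ^ 3 ≤ 2 * M * d ^ α * a ^ (-(3 + α)) := by
  have hd : 0 < d := (half_pos ha).trans_le hda
  have e3 : a ^ (-(3 + α)) = 1 / (a ^ 3 * a ^ α) := by
    rw [Real.rpow_neg ha.le, Real.rpow_add ha, one_div]
    norm_num
  have e2 : a ^ α ≤ 2 * d ^ α := by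
    calc a ^ α ≤ (2 * d) ^ α := Real.rpow_le_rpow ha.le (by linarith) h0
      _ = 2 ^ α * d ^ α := Real.mul_rpow (by norm_num) hd.le
      _ ≤ 2 ^ (1 : ℝ) * d ^ α := by
          gcongr
          norm_num
      _ = 2 * d ^ α := by rw [Real.rpow_one]
  rw [e3]
  have h5 : 0 < a ^ α := Real.rpow_pos_of_pos ha _
  rw [mul_one_div, div_le_div_iff₀ (by positivity) (by positivity)]
  calc M * (a ^ 3 * a ^ α) ≤ M * (a ^ 3 * (2 * d ^ α)) := by gcongr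
    _ = 2 * M * d ^ α * a ^ 3 := by ring

end Pool.Agent.R207.MB.K2

namespace Pool.Agent.R207.MB

open K2 in
theorem t_K2 (h1 : S_K1) (h3 : S_K3) : S_K2 := by
  intro α hα0 hα1
  obtain ⟨M3, hM3, hb3⟩ := h1 3 (by norm_num)
  obtain ⟨M4, hM4, hb4⟩ := h1 4 (by norm_num)
  refine ⟨16 * M4 + 2 * M3, by positivity, ?_⟩
  intro s z w hz hw
  have hz0 : 0 < ‖z‖ := norm_pos_iff.2 hz
  have hw0 : 0 < ‖w‖ := norm_pos_iff.2 hw
  have hzr : 0 < ‖z‖ ^ (-(3 + α)) := Real.rpow_pos_of_pos hz0 _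
  have hwr : 0 < ‖w‖ ^ (-(3 + α)) := Real.rpow_pos_of_pos hw0 _
  rcases eq_or_ne z w with rfl | hne
  · rw [sub_self, norm_zero]
    have := Real.rpow_nonneg (norm_nonneg (z - z)) α
    positivity
  have hd : 0 < ‖z - w‖ := norm_pos_iff.2 (sub_ne_zero.2 hne)
  have hdr : 0 < ‖z - w‖ ^ α := Real.rpow_pos_of_pos hd _
  by_cases c1 : ‖z - w‖ ≤ ‖z‖ / 2
  · refine (near M4 hM4 h3 hb4 s z w hz c1).trans
      ((near_rpow α hα1 M4 _ _ hM4 hz0 hd c1).trans ?_)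
    have e1 : 16 * M4 * ‖z - w‖ ^ α * ‖z‖ ^ (-(3 + α)) ≤
        (16 * M4 + 2 * M3) * ‖z - w‖ ^ α * ‖z‖ ^ (-(3 + α)) := by
      gcongr
      linarith
    refine e1.trans ?_
    gcongr
    linarith
  by_cases c2 : ‖z - w‖ ≤ ‖w‖ / 2
  · have c2' : ‖w - z‖ ≤ ‖w‖ / 2 := by rwa [norm_sub_rev]
    have hn := near M4 hM4 h3 hb4 s w z hw c2'
    rw [norm_sub_rev, norm_sub_rev w z] at hn
    refine hn.trans ((near_rpow α hα1 M4 _ _ hM4 hw0 hd c2).trans ?_)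
    have e1 : 16 * M4 * ‖z - w‖ ^ α * ‖w‖ ^ (-(3 + α)) ≤
        (16 * M4 + 2 * M3) * ‖z - w‖ ^ α * ‖w‖ ^ (-(3 + α)) := by
      gcongr
      linarith
    refine e1.trans ?_
    gcongr
    linarith
  · push Not at c1 c2
    have f1 := (bound 3 M3 hM3 hb3 s z _ hz0 le_rfl).trans
      (far_rpow α hα0 hα1 M3 _ _ hM3 hz0 c1.le)
    have f2 := (bound 3 M3 hM3 hb3 s w _ hw0 le_rfl).trans
      (far_rpow α hα0 hα1 M3 _ _ hM3 hw0 c2.le)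
    refine (norm_sub_le _ _).trans ((add_le_add f1 f2).trans ?_)
    have e1 : 2 * M3 * ‖z - w‖ ^ α * ‖z‖ ^ (-(3 + α)) + 2 * M3 * ‖z - w‖ ^ α * ‖w‖ ^ (-(3 + α)) =
      2 * M3 * ‖z - w‖ ^ α * (‖z‖ ^ (-(3 + α)) + ‖w‖ ^ (-(3 + α))) := by ring
    rw [e1]
    gcongr
    linarith

end Pool.Agent.R207.MB
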