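import Pool.Agent.R207.MB.Stm

set_option autoImplicit false

open MeasureTheory Filter Topology Metric

namespace Pool.Agent.R207.MB

namespace LIN

theorem pd_cd (n : ℕ) (i : Fin 4) (f : E4 → ℝ) (x : E4) (h : ContDiffAt ℝ ((n + 1 : ℕ) : WithTop ℕ∞) f x) :
    ContDiffAt ℝ n (pd i f) x := by
  have h1 : ContDiffAt ℝ n (fderiv ℝ f) x := h.fderiv_right (by push_cast; exact le_rfl)
  exact h1.clm_apply contDiffAt_const

theorem lap_cd (n : ℕ) (f : E4 → ℝ) (x : E4) (h : ContDiffAt ℝ ((n + 2 : ℕ) : WithTop ℕ∞) f x) :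
    ContDiffAt ℝ n (lap f) x := by
  have h1 : ∀ i ∈ (Finset.univ : Finset (Fin 4)), ContDiffAt ℝ n (pd i (pd i f)) x :=
    fun i _ => pd_cd n i _ x (pd_cd (n + 1) i f x h)
  exact ContDiffAt.sum h1

theorem of_top (n : ℕ) (f : E4 → ℝ) (x : E4) (h : ContDiffAt ℝ (⊤ : ℕ∞) f x) :
    ContDiffAt ℝ (n : WithTop ℕ∞) f x := h.of_le (by exact_mod_cast le_top)

theorem pd_congr {i : Fin 4} {f g : E4 → ℝ} {x : E4} (h : f =ᶠ[𝓝 x] g) : pd i f =ᶠ[𝓝 x] pd i g := by
  filter_upwards [h.fderiv (𝕜 := ℝ)] with y hy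
  unfold pd
  rw [hy]

theorem lap_congr {f g : E4 → ℝ} {x : E4} (h : f =ᶠ[𝓝 x] g) : lap f =ᶠ[𝓝 x] lap g := by
  have : ∀ i : Fin 4, pd i (pd i f) =ᶠ[𝓝 x] pd i (pd i g) := fun i => pd_congr (pd_congr h)
  filter_upwards [eventually_all.2 this] with y hy
  unfold lap
  exact Finset.sum_congr rfl fun i _ => hy i

theorem ev_cd (n : ℕ) (f : E4 → ℝ) (x : E4) (h : ContDiffAt ℝ (n : WithTop ℕ∞) f x) :
    ∀ᶠ y in 𝓝 x, ContDiffAt ℝ (n : WithTop ℕ∞) f y := h.eventually (by simp)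

theorem dif_of_cd (n : ℕ) (f : E4 → ℝ) (x : E4) (h : ContDiffAt ℝ ((n + 1 : ℕ) : WithTop ℕ∞) f x) :
    DifferentiableAt ℝ f x := h.differentiableAt (by exact_mod_cast Nat.succ_ne_zero n)

theorem pd_add {i : Fin 4} {f g : E4 → ℝ} {x : E4} (hf : DifferentiableAt ℝ f x)
    (hg : DifferentiableAt ℝ g x) : pd i (fun y => f y + g y) x = pd i f x + pd i g x := by
  unfold pd
  rw [fderiv_fun_add hf hg]
  rfl

theorem pd_mul {i : Fin 4} {f : E4 → ℝ} {x : E4} (c : ℝ) (hf : DifferentiableAt ℝ f x) :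
    pd i (fun y => c * f y) x = c * pd i f x := by
  unfold pd
  rw [fderiv_const_mul hf]
  rfl

theorem lap_add {f g : E4 → ℝ} {x : E4} (hf : ContDiffAt ℝ ((2 : ℕ) : WithTop ℕ∞) f x)
    (hg : ContDiffAt ℝ ((2 : ℕ) : WithTop ℕ∞) g x) :
    lap (fun y => f y + g y) x = lap f x + lap g x := by
  unfold lap
  rw [← Finset.sum_add_distrib]
  refine Finset.sum_congr rfl fun i _ => ?_
  have h1 : pd i (fun y => f y + g y) =ᶠ[𝓝 x] fun y => pd i f y + pd i g y := by
    filter_upwards [ev_cd 2 f x hf, ev_cd 2 g x hg] with y h1 h2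
    exact pd_add (dif_of_cd 1 f y h1) (dif_of_cd 1 g y h2)
  rw [(pd_congr h1).eq_of_nhds]
  exact pd_add (dif_of_cd 0 _ x (pd_cd 1 i f x hf)) (dif_of_cd 0 _ x (pd_cd 1 i g x hg))

theorem lap_mul {f : E4 → ℝ} {x : E4} (c : ℝ) (hf : ContDiffAt ℝ ((2 : ℕ) : WithTop ℕ∞) f x) :
    lap (fun y => c * f y) x = c * lap f x := by
  unfold lap
  rw [Finset.mul_sum]
  refine Finset.sum_congr rfl fun i _ => ?_
  have h1 : pd i (fun y => c * f y) =ᶠ[𝓝 x] fun y => c * pd i f y := by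
    filter_upwards [ev_cd 2 f x hf] with y h1
    exact pd_mul c (dif_of_cd 1 f y h1)
  rw [(pd_congr h1).eq_of_nhds]
  exact pd_mul c (dif_of_cd 0 _ x (pd_cd 1 i f x hf))

theorem bilap_add {f g : E4 → ℝ} {x : E4} (hf : ContDiffAt ℝ ((4 : ℕ) : WithTop ℕ∞) f x)
    (hg : ContDiffAt ℝ ((4 : ℕ) : WithTop ℕ∞) g x) :
    bilap (fun y => f y + g y) x = bilap f x + bilap g x := by
  unfold bilap
  have h1 : lap (fun y => f y + g y) =ᶠ[𝓝 x] fun y => lap f y + lap g y := by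
    filter_upwards [ev_cd 4 f x hf, ev_cd 4 g x hg] with y h1 h2
    exact lap_add (h1.of_le (by norm_num)) (h2.of_le (by norm_num))
  rw [(lap_congr h1).eq_of_nhds]
  exact lap_add (lap_cd 2 f x hf) (lap_cd 2 g x hg)

theorem bilap_mul {f : E4 → ℝ} {x : E4} (c : ℝ) (hf : ContDiffAt ℝ ((4 : ℕ) : WithTop ℕ∞) f x) :
    bilap (fun y => c * f y) x = c * bilap f x := by
  unfold bilap
  have h1 : lap (fun y => c * f y) =ᶠ[𝓝 x] fun y => c * lap f y := by
    filter_upwards [ev_cd 4 f x hf] with y h1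
    exact lap_mul c (h1.of_le (by norm_num))
  rw [(lap_congr h1).eq_of_nhds]
  exact lap_mul c (lap_cd 2 f x hf)

theorem pd_const (i : Fin 4) (c : ℝ) : pd i (fun _ : E4 => c) = fun _ => 0 := by
  funext x
  simp [pd]

theorem lap_const (c : ℝ) : lap (fun _ : E4 => c) = fun _ => 0 := by
  funext x
  simp [lap, pd_const]

theorem bilap_const (c : ℝ) (x : E4) : bilap (fun _ => c) x = 0 := by
  unfold bilap
  rw [lap_const, lap_const]

theorem pd_shift (i : Fin 4) (f : E4 → ℝ) (p : E4) :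
    pd i (fun y => f (y - p)) = fun y => pd i f (y - p) := by
  funext x
  unfold pd
  have := fderiv_comp_add_right (𝕜 := ℝ) (f := f) (x := x) (-p)
  simp only [← sub_eq_add_neg] at this
  rw [this]

theorem lap_shift (f : E4 → ℝ) (p : E4) :
    lap (fun y => f (y - p)) = fun y => lap f (y - p) := by
  funext x
  unfold lap
  refine Finset.sum_congr rfl fun i _ => ?_
  rw [pd_shift, pd_shift]

theorem pd_fst (i : Fin 4) (g g' : ℝ → ℝ) (hg : ∀ t, HasDerivAt g (g' t) t) :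
    pd i (fun y : E4 => g (y 0)) = fun y => bv i 0 * g' (y 0) := by
  funext y
  have h1 : HasFDerivAt (fun y : E4 => y 0) (EuclideanSpace.proj 0 : E4 →L[ℝ] ℝ) y :=
    (EuclideanSpace.proj 0 : E4 →L[ℝ] ℝ).hasFDerivAt
  have h2 := (hg (y 0)).comp_hasFDerivAt y h1
  have h3 : HasFDerivAt (fun y : E4 => g (y 0)) (g' (y 0) • (EuclideanSpace.proj 0 : E4 →L[ℝ] ℝ)) y := h2
  unfold pd
  rw [h3.fderiv]
  simp [mul_comm]

theorem lap_fst (g g' g'' : ℝ → ℝ) (hg : ∀ t, HasDerivAt g (g' t) t)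
    (hg' : ∀ t, HasDerivAt g' (g'' t) t) :
    lap (fun y : E4 => g (y 0)) = fun y => g'' (y 0) := by
  funext y
  unfold lap
  have h : ∀ i : Fin 4, pd i (pd i (fun y : E4 => g (y 0))) y = bv i 0 * (bv i 0 * g'' (y 0)) := by
    intro i
    rw [pd_fst i g g' hg]
    have := pd_fst i (fun t => bv i 0 * g' t) (fun t => bv i 0 * g'' t) (fun t => (hg' t).const_mul _)
    rw [this]
  simp only [h]
  simp [Fin.sum_univ_four, bv]

end LIN

open LIN in
theorem t_LIN : S_LIN := by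
  have h4 : ∀ (f : E4 → ℝ) (x : E4), ContDiffAt ℝ (⊤ : ℕ∞) f x →
      ContDiffAt ℝ ((4 : ℕ) : WithTop ℕ∞) f x := fun f x h => of_top 4 f x h
  refine ⟨fun f g x hf hg => bilap_add (h4 f x hf) (h4 g x hg),
    fun c f x hf => bilap_mul c (h4 f x hf), ?_, ?_, bilap_const, ?_⟩
  · intro ι t f x
    classical
    induction t using Finset.induction_on with
    | empty => intro _; simp [bilap_const]
    | insert a s ha ih =>
      intro h
      simp only [Finset.sum_insert ha]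
      rw [bilap_add (h4 _ _ (h a (Finset.mem_insert_self a s))) ?_,
        ih fun i hi => h i (Finset.mem_insert_of_mem hi)]
      exact ContDiffAt.sum fun i hi => h4 _ _ (h i (Finset.mem_insert_of_mem hi))
  · intro f p x
    unfold bilap
    rw [lap_shift, lap_shift]
  · intro x
    have h1 : ∀ t : ℝ, HasDerivAt (fun t : ℝ => t - t ^ 3 / 3 - 2 / 3) (1 - t ^ 2) t := by
      intro t
      have := (((hasDerivAt_id t).fun_sub ((hasDerivAt_pow 3 t).div_const 3)).sub_const (2 / 3))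
      exact this.congr_deriv (by norm_num)
    have h2 : ∀ t : ℝ, HasDerivAt (fun t : ℝ => 1 - t ^ 2) (-2 * t) t := by
      intro t
      have := ((hasDerivAt_pow 2 t).const_sub 1)
      exact this.congr_deriv (by norm_num)
    have h3 : ∀ t : ℝ, HasDerivAt (fun t : ℝ => -2 * t) (-2) t := by
      intro t
      simpa using (hasDerivAt_id t).const_mul (-2)
    have h5 : ∀ t : ℝ, HasDerivAt (fun _ : ℝ => (-2 : ℝ)) 0 t := fun t => hasDerivAt_const t _
    unfold bilap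
    rw [lap_fst (fun t => t - t ^ 3 / 3 - 2 / 3) (fun t => 1 - t ^ 2) (fun t => -2 * t) h1 h2,
      lap_fst (fun t => -2 * t) (fun _ => -2) (fun _ => 0) h3 h5]

end Pool.Agent.R207.MB
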