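import Pool.Agent.R207.MB.Stm

set_option autoImplicit false

open MeasureTheory Filter Topology Metric

noncomputable section

namespace Pool.Agent.R207.MB

namespace LOC

lemma om_eq (t : ℝ) : om t = (t - 2) ^ 2 * (t + 1) / 3 := by
  unfold om qf; ring

lemma om_cont : Continuous om := by unfold om qf; fun_prop

lemma norm_lb (K : Set E4) (hK : IsCompact K) (h0 : ∀ z ∈ K, z ≠ 0) :
    ∃ r : ℝ, 0 < r ∧ ∀ z ∈ K, r ≤ ‖z‖ := by
  rcases K.eq_empty_or_nonempty with rfl | hne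
  · exact ⟨1, one_pos, by simp⟩
  obtain ⟨z0, hz0, hmin⟩ := hK.exists_isMinOn hne continuous_norm.continuousOn
  exact ⟨‖z0‖, norm_pos_iff.2 (h0 z0 hz0), fun z hz => hmin hz⟩

lemma om_lb (K : Set E4) (hK : IsCompact K) (h0 : ∀ z ∈ K, -1 < z 0 ∧ z 0 ≠ 2) :
    ∃ w : ℝ, 0 < w ∧ w ≤ 1 / 3 ∧ ∀ z ∈ K, w ≤ om (z 0) := by
  rcases K.eq_empty_or_nonempty with rfl | hne
  · exact ⟨1 / 3, by norm_num, le_rfl, by simp⟩
  have hc : Continuous (fun z : E4 => om (z 0)) := om_cont.comp (by fun_prop)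
  obtain ⟨z0, hz0, hmin⟩ := hK.exists_isMinOn hne hc.continuousOn
  have hpos : 0 < om (z0 0) := by
    obtain ⟨h1, h2⟩ := h0 z0 hz0
    rw [om_eq]
    have h3 : 0 < (z0 0 - 2) ^ 2 := by
      have : z0 0 - 2 ≠ 0 := sub_ne_zero.2 h2
      positivity
    have h4 : 0 < z0 0 + 1 := by linarith
    positivity
  refine ⟨min (1 / 3) (om (z0 0)), lt_min (by norm_num) hpos, min_le_left _ _, fun z hz => ?_⟩
  exact (min_le_right _ _).trans (hmin hz)

lemma den_lb (s r : ℝ) (z : E4) (hr : 0 < r) (hz : r ≤ ‖z‖) :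
    r ^ 8 ≤ (s ^ 2 + ‖z‖ ^ 2) ^ 4 := by
  have h1 : r ^ 2 ≤ s ^ 2 + ‖z‖ ^ 2 := by
    have : r ^ 2 ≤ ‖z‖ ^ 2 := pow_le_pow_left₀ hr.le hz 2
    nlinarith [sq_nonneg s]
  calc r ^ 8 = (r ^ 2) ^ 4 := by ring
    _ ≤ _ := pow_le_pow_left₀ (by positivity) h1 4

lemma hs_bound (s r : ℝ) (z : E4) (hr : 0 < r) (hz : r ≤ ‖z‖) :
    0 ≤ hs s z ∧ hs s z ≤ 96 * s ^ 4 / r ^ 8 := by
  unfold hs
  have h4 : 0 ≤ s ^ 4 := by positivity
  refine ⟨by positivity, ?_⟩
  exact div_le_div_of_nonneg_left (by positivity) (by positivity) (den_lb s r z hr hz)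

lemma Fs_bound (c β s r w : ℝ) (z : E4) (hr : 0 < r) (hz : r ≤ ‖z‖) (hβ : 0 ≤ β)
    (h0 : -1 < z 0) (hw : w ≤ om (z 0)) :
    0 ≤ Fs c β s z ∧ Fs c β s z ≤ 6 * Real.exp (4 * c - 4 * β * w) / r ^ 8 := by
  unfold Fs
  rw [if_pos h0.le]
  refine ⟨by positivity, ?_⟩
  have h1 : Real.exp (-(4 * β * om (z 0))) * (6 * Real.exp (4 * c))
      ≤ 6 * Real.exp (4 * c - 4 * β * w) := by
    have h2 : Real.exp (-(4 * β * om (z 0))) * (6 * Real.exp (4 * c))
        = 6 * Real.exp (4 * c - 4 * β * om (z 0)) := by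
      rw [sub_eq_add_neg, Real.exp_add]; ring
    rw [h2]
    have h3 : 4 * c - 4 * β * om (z 0) ≤ 4 * c - 4 * β * w := by
      have := mul_le_mul_of_nonneg_left hw hβ
      nlinarith
    have := Real.exp_le_exp.2 h3
    linarith
  exact div_le_div₀ (by positivity) h1 (by positivity) (den_lb s r z hr hz)

lemma ep_bound (c β w : ℝ) (hβ : 0 ≤ β) (hw : w ≤ 1 / 3) :
    96 * (ep c β) ^ 4 ≤ 6 * Real.exp (4 * c - 4 * β * w) := by
  unfold ep
  have h1 : (Real.exp (-(4 * β / 3) + c) / 2) ^ 4 = Real.exp (4 * (-(4 * β / 3) + c)) / 16 := by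
    rw [div_pow, ← Real.exp_nat_mul]
    norm_num
  rw [h1]
  have h3 : 4 * (-(4 * β / 3) + c) ≤ 4 * c - 4 * β * w := by
    have := mul_le_mul_of_nonneg_left hw hβ
    nlinarith
  have := Real.exp_le_exp.2 h3
  linarith

end LOC

theorem t_LOC : S_LOC := by
  intro c hc K hK hKs ε hε
  obtain ⟨r, hr, hrK⟩ := LOC.norm_lb K hK (fun z hz => (hKs hz).2.1)
  obtain ⟨w, hw, hw3, hwK⟩ := LOC.om_lb K hK (fun z hz => ⟨(hKs hz).1, (hKs hz).2.2⟩)
  have hlim : Tendsto (fun β : ℝ => 12 * Real.exp (-(2 * w * β)) / r ^ 8) atTop (𝓝 0) := by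
    have h1 : Tendsto (fun β : ℝ => Real.exp (-(2 * w * β))) atTop (𝓝 0) := by
      apply Real.tendsto_exp_neg_atTop_nhds_zero.comp
      exact tendsto_id.const_mul_atTop (by positivity)
    have h2 := (h1.const_mul 12).div_const (r ^ 8)
    simpa using h2
  have hsq : Tendsto (fun β : ℝ => Real.sqrt β) atTop atTop := Real.tendsto_sqrt_atTop
  filter_upwards [hc.2, hlim.eventually_lt_const hε, eventually_ge_atTop (0 : ℝ),
    hsq.eventually_ge_atTop (2 / w)] with β h1 h2 h3 h4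
  intro H hH z hz
  obtain ⟨hc0, hc1, -⟩ := h1
  have hzr := hrK z hz
  have hzw := hwK z hz
  have hz0 := (hKs hz).1
  have hexp : Real.exp (4 * c β - 4 * β * w) ≤ Real.exp (-(2 * w * β)) := by
    apply Real.exp_le_exp.2
    have h5 : 2 ≤ w * Real.sqrt β := by
      rw [div_le_iff₀ hw] at h4
      linarith
    have h6 : 2 * Real.sqrt β ≤ w * β := by
      calc 2 * Real.sqrt β ≤ (w * Real.sqrt β) * Real.sqrt β :=
            mul_le_mul_of_nonneg_right h5 (Real.sqrt_nonneg _)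
        _ = w * β := by rw [mul_assoc, Real.mul_self_sqrt h3]
    nlinarith
  have hr8 : 0 < r ^ 8 := by positivity
  have hfin : 12 * Real.exp (4 * c β - 4 * β * w) / r ^ 8 ≤ ε := by
    refine le_trans ?_ h2.le
    gcongr
  rcases hH with rfl | rfl
  · obtain ⟨a1, a2⟩ := LOC.Fs_bound (c β) β (ep (c β) β) r w z hr hzr h3 hz0 hzw
    obtain ⟨b1, b2⟩ := LOC.hs_bound (ep (c β) β) r z hr hzr
    have b3 : 96 * (ep (c β) β) ^ 4 / r ^ 8 ≤ 6 * Real.exp (4 * c β - 4 * β * w) / r ^ 8 := by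
      have := LOC.ep_bound (c β) β w h3 hw3
      gcongr
    have h7 : 12 * Real.exp (4 * c β - 4 * β * w) / r ^ 8
        = 6 * Real.exp (4 * c β - 4 * β * w) / r ^ 8 + 6 * Real.exp (4 * c β - 4 * β * w) / r ^ 8 := by
      ring
    unfold Hb
    rw [abs_le]
    constructor <;> linarith
  · obtain ⟨a1, a2⟩ := LOC.Fs_bound (c β) β 1 r w z hr hzr h3 hz0 hzw
    have h7 : 12 * Real.exp (4 * c β - 4 * β * w) / r ^ 8
        = 6 * Real.exp (4 * c β - 4 * β * w) / r ^ 8 + 6 * Real.exp (4 * c β - 4 * β * w) / r ^ 8 := by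
      ring
    rw [abs_le]
    constructor <;> linarith

end Pool.Agent.R207.MB
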