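import Pool.Agent.R207.MB.Stm

set_option autoImplicit false

open MeasureTheory Filter Topology Metric

noncomputable section

namespace Pool.Agent.R207.MB.MASS

/-- primitive of the radial density -/
def G (s r : ℝ) : ℝ := 96 * s ^ 4 *
  (-(1 / 4) * ((s ^ 2 + r ^ 2) ^ 2)⁻¹ + s ^ 2 / 6 * ((s ^ 2 + r ^ 2) ^ 3)⁻¹)

def g (s r : ℝ) : ℝ := r ^ 3 * (96 * s ^ 4 / (s ^ 2 + r ^ 2) ^ 4)

theorem hasDerivAt_G (s r : ℝ) (hs : 0 < s) : HasDerivAt (G s) (g s r) r := by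
  have hu : s ^ 2 + r ^ 2 ≠ 0 := by positivity
  have h0 : HasDerivAt (fun r : ℝ => s ^ 2 + r ^ 2) (2 * r) r := by
    have := ((hasDerivAt_id r).pow 2).const_add (s ^ 2)
    simpa using this
  have h1 := (h0.fun_pow 2).fun_inv (pow_ne_zero 2 hu)
  have h2 := (h0.fun_pow 3).fun_inv (pow_ne_zero 3 hu)
  have h3 := ((h1.const_mul (-(1 / 4))).add (h2.const_mul (s ^ 2 / 6))).const_mul (96 * s ^ 4)
  refine h3.congr_deriv ?_
  unfold g
  field_simp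
  push_cast
  ring

theorem g_nonneg (s r : ℝ) (hr : 0 < r) : 0 ≤ g s r := by
  unfold g
  positivity

theorem tendsto_G (s : ℝ) : Tendsto (G s) atTop (𝓝 0) := by
  have h0 : Tendsto (fun r : ℝ => s ^ 2 + r ^ 2) atTop atTop :=
    tendsto_atTop_add_const_left _ _ (tendsto_pow_atTop two_ne_zero)
  have h1 : Tendsto (fun r : ℝ => ((s ^ 2 + r ^ 2) ^ 2)⁻¹) atTop (𝓝 0) :=
    tendsto_inv_atTop_zero.comp ((tendsto_pow_atTop two_ne_zero).comp h0)
  have h2 : Tendsto (fun r : ℝ => ((s ^ 2 + r ^ 2) ^ 3)⁻¹) atTop (𝓝 0) :=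
    tendsto_inv_atTop_zero.comp ((tendsto_pow_atTop three_ne_zero).comp h0)
  have h3 := ((h1.const_mul (-(1 / 4))).add (h2.const_mul (s ^ 2 / 6))).const_mul (96 * s ^ 4)
  rw [mul_zero, mul_zero, add_zero, mul_zero] at h3
  exact h3

theorem G_zero (s : ℝ) (hs : 0 < s) : G s 0 = -8 := by
  unfold G
  field_simp
  ring

theorem radial_integrable (s : ℝ) (hs : 0 < s) : IntegrableOn (g s) (Set.Ioi 0) :=
  integrableOn_Ioi_deriv_of_nonneg' (fun r _ => hasDerivAt_G s r hs)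
    (fun r hr => g_nonneg s r hr) (tendsto_G s)

theorem radial_integral (s : ℝ) (hs : 0 < s) : ∫ r in Set.Ioi (0 : ℝ), g s r = 8 := by
  rw [integral_Ioi_of_hasDerivAt_of_nonneg' (fun r _ => hasDerivAt_G s r hs)
    (fun r hr => g_nonneg s r hr) (tendsto_G s), G_zero s hs]
  norm_num

theorem finrank_E4 : Module.finrank ℝ E4 = 4 := by simp [E4]

theorem vol_ball : (volume : Measure E4).real (ball 0 1) = Real.pi ^ 2 / 2 := by
  rw [Measure.real, InnerProductSpace.volume_ball_of_dim_even (k := 2) (by simp)]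
  rw [ENNReal.ofReal_one, one_pow, one_mul, ENNReal.toReal_ofReal (by positivity)]
  norm_num [Nat.factorial]

end Pool.Agent.R207.MB.MASS

namespace Pool.Agent.R207.MB

open MASS in
theorem t_MASS : S_MASS := by
  intro s hs
  have e : Pool.Agent.R207.MB.hs s = fun z : E4 => (fun r : ℝ => 96 * s ^ 4 / (s ^ 2 + r ^ 2) ^ 4) ‖z‖ := rfl
  have e2 : (fun r : ℝ => r ^ (Module.finrank ℝ E4 - 1) • (96 * s ^ 4 / (s ^ 2 + r ^ 2) ^ 4)) = g s := by
    funext r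
    rw [finrank_E4]
    rfl
  constructor
  · rw [e]
    refine (integrable_fun_norm_addHaar (volume : Measure E4)
      (f := fun r : ℝ => 96 * s ^ 4 / (s ^ 2 + r ^ 2) ^ 4)).2 ?_
    rw [e2]
    exact radial_integrable s hs
  · rw [e, integral_fun_norm_addHaar (volume : Measure E4)
      (fun r : ℝ => 96 * s ^ 4 / (s ^ 2 + r ^ 2) ^ 4), e2, radial_integral s hs, vol_ball, finrank_E4]
    simp only [nsmul_eq_mul, smul_eq_mul]
    push_cast
    ring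

open MASS in
theorem t_CONC : S_CONC := by
  intro r hr
  refine ⟨(1 + 1 / r ^ 2) ^ 4 * (16 * Real.pi ^ 2), by positivity, fun s hs => ?_⟩
  have hmeas : MeasurableSet {z : E4 | r ≤ ‖z‖} := measurableSet_le measurable_const measurable_norm
  have hle : ∀ z ∈ {z : E4 | r ≤ ‖z‖}, Pool.Agent.R207.MB.hs s z ≤
      s ^ 4 * (1 + 1 / r ^ 2) ^ 4 * Pool.Agent.R207.MB.hs 1 z := by
    intro z hz
    have hz' : r ≤ ‖z‖ := hz
    have hz0 : 0 < ‖z‖ := hr.trans_le hz'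
    have h1 : 1 + ‖z‖ ^ 2 ≤ (1 + 1 / r ^ 2) * (s ^ 2 + ‖z‖ ^ 2) := by
      have h2 : 1 ≤ 1 / r ^ 2 * ‖z‖ ^ 2 := by
        rw [one_div, inv_mul_eq_div, one_le_div (by positivity)]
        gcongr
      have h3 : 0 ≤ (1 + 1 / r ^ 2) * s ^ 2 := by positivity
      nlinarith
    have h4 : (1 + ‖z‖ ^ 2) ^ 4 ≤ (1 + 1 / r ^ 2) ^ 4 * (s ^ 2 + ‖z‖ ^ 2) ^ 4 := by
      rw [← mul_pow]
      gcongr
    unfold Pool.Agent.R207.MB.hs
    rw [one_pow, one_pow, mul_one, ← mul_div_assoc, div_le_div_iff₀ (by positivity) (by positivity)]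
    calc 96 * s ^ 4 * (1 + ‖z‖ ^ 2) ^ 4 ≤ 96 * s ^ 4 * ((1 + 1 / r ^ 2) ^ 4 * (s ^ 2 + ‖z‖ ^ 2) ^ 4) := by
          gcongr
      _ = s ^ 4 * (1 + 1 / r ^ 2) ^ 4 * 96 * (s ^ 2 + ‖z‖ ^ 2) ^ 4 := by ring
  have hint := (t_MASS 1 one_pos).1.const_mul (s ^ 4 * (1 + 1 / r ^ 2) ^ 4)
  calc ∫ z in {z : E4 | r ≤ ‖z‖}, Pool.Agent.R207.MB.hs s z
      ≤ ∫ z in {z : E4 | r ≤ ‖z‖}, s ^ 4 * (1 + 1 / r ^ 2) ^ 4 * Pool.Agent.R207.MB.hs 1 z :=
        setIntegral_mono_on (t_MASS s hs).1.integrableOn hint.integrableOn hmeas hle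
    _ ≤ ∫ z, s ^ 4 * (1 + 1 / r ^ 2) ^ 4 * Pool.Agent.R207.MB.hs 1 z := by
        refine setIntegral_le_integral hint (Eventually.of_forall fun z => ?_)
        unfold Pool.Agent.R207.MB.hs
        positivity
    _ = (1 + 1 / r ^ 2) ^ 4 * (16 * Real.pi ^ 2) * s ^ 4 := by
        rw [integral_const_mul, (t_MASS 1 one_pos).2]
        ring

end Pool.Agent.R207.MB
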