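import Pool.Agent.R207.MB.Stm

set_option autoImplicit false

open MeasureTheory Filter Topology Metric

noncomputable section

namespace Pool.Agent.R207.MB.Main

open Pool.Agent.R207.MB

/-- the domain `(-2,2) x R^3` -/
def Om : Set E4 := {x | -2 < x 0 ∧ x 0 < 2}

/-- the profile -/
def phi (x : E4) : ℝ := x 0 - (x 0) ^ 3 / 3 - 2 / 3

/-- a pole outside the domain -/
def q0 : E4 := EuclideanSpace.single 0 (-4)

/-- the auxiliary centre -/
def ps : E4 := EuclideanSpace.single 0 (-1)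

/-- sum of the potentials -/
def ww (P : Finset E4) (c β δ : ℝ) (x : E4) : ℝ :=
  (∑ p ∈ P, pot δ (Hb c β) (x - p)) + pot δ (Fs c β 1) (x - ps)

/-- the solutions -/
def uu (P : Finset E4) (c β δ : ℝ) (x : E4) : ℝ :=
  β * phi x + c + (-((P.card : ℝ) - 7 / 8)) * Bf 0 (x - q0) +
    ((∑ p ∈ P, (Bf (ep c β) (x - p) + pot δ (Hb c β) (x - p))) + pot δ (Fs c β 1) (x - ps))

/-- the right-hand sides -/
def ff (P : Finset E4) (c β δ : ℝ) (x : E4) : ℝ :=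
  (∑ p ∈ P, (hs (ep c β) (x - p) + mol δ (Hb c β) (x - p))) + mol δ (Fs c β 1) (x - ps)

/-- the curvature functions -/
def VV (P : Finset E4) (c β δ : ℝ) (x : E4) : ℝ := ff P c β δ x * Real.exp (-(4 * uu P c β δ x))

theorem isOpen_Om : IsOpen Om := by
  have h1 : Continuous (fun x : E4 => x 0) := by fun_prop
  exact (isOpen_lt continuous_const h1).inter (isOpen_lt h1 continuous_const)

theorem q0_zero : q0 0 = -4 := by simp [q0]

theorem ps_zero : ps 0 = -1 := by simp [ps]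

theorem abs_coord_le (x : E4) (i : Fin 4) : |x i| ≤ ‖x‖ := by
  have := EuclideanSpace.norm_eq x
  have h2 : ‖x‖ ^ 2 = ∑ j, (x j) ^ 2 := by
    rw [EuclideanSpace.norm_sq_eq]; simp
  have h3 : (x i) ^ 2 ≤ ‖x‖ ^ 2 := by
    rw [h2]; exact Finset.single_le_sum (f := fun j => (x j) ^ 2) (fun j _ => sq_nonneg _) (Finset.mem_univ i)
  exact abs_le_of_sq_le_sq h3 (norm_nonneg _)

theorem norm_sub_q0 {x : E4} (hx : x ∈ Om) : 2 ≤ ‖x - q0‖ := by
  have h := abs_coord_le (x - q0) 0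
  have h2 : (x - q0) 0 = x 0 + 4 := by simp [q0]
  rw [h2] at h
  have h3 : 2 ≤ |x 0 + 4| := by rw [abs_of_pos (by linarith [hx.1])]; linarith [hx.1]
  linarith

theorem om_eq (t : ℝ) : om t = (t - 2) ^ 2 * (t + 1) / 3 := by unfold om qf; ring

theorem om_nonneg {t : ℝ} (ht : -1 ≤ t) : 0 ≤ om t := by
  rw [om_eq]; have : 0 ≤ t + 1 := by linarith
  positivity

theorem phi_eq (x p : E4) (hp : p 0 = -1) : phi x = -om ((x - p) 0) := by
  have h : (x - p) 0 = x 0 + 1 := by simp [hp]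
  rw [h]; unfold phi om qf; ring

theorem phi_nonpos {x : E4} (hx : x ∈ Om) : phi x ≤ 0 := by
  rw [phi_eq x ps ps_zero]
  have h : (x - ps) 0 = x 0 + 1 := by simp [ps]
  have := om_nonneg (t := (x - ps) 0) (by rw [h]; linarith [hx.1])
  linarith

theorem phi_ge {x : E4} (hx : x ∈ Om) : -(4 / 3) ≤ phi x := by
  unfold phi
  have h1 := hx.1; have h2 := hx.2
  nlinarith [sq_nonneg (x 0 + 1), mul_nonneg (sq_nonneg (x 0 + 1)) (by linarith : (0:ℝ) ≤ 2 - x 0)]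

theorem ep_pos (c β : ℝ) : 0 < ep c β := by unfold ep; positivity

theorem ep_le_one {c β : ℝ} (h : c ≤ 4 * β / 3) : ep c β ≤ 1 := by
  unfold ep
  have : Real.exp (-(4 * β / 3) + c) ≤ 1 := Real.exp_le_one_iff.2 (by linarith)
  linarith

theorem Fs_eq {c β s : ℝ} {x p : E4} (hx : x ∈ Om) (hp : p 0 = -1) :
    Fs c β s (x - p) = 6 * Real.exp (4 * β * phi x + 4 * c) / (s ^ 2 + ‖x - p‖ ^ 2) ^ 4 := by
  have h : (x - p) 0 = x 0 + 1 := by simp [hp]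
  have h1 : -1 ≤ (x - p) 0 := by rw [h]; linarith [hx.1]
  unfold Fs
  rw [if_pos h1, phi_eq x p hp, Real.exp_add]
  have : 4 * β * -om ((x - p) 0) = -(4 * β * om ((x - p) 0)) := by ring
  rw [this]; ring

theorem sq_add_pos {s : ℝ} (hs : 0 < s) (z : E4) : 0 < s ^ 2 + ‖z‖ ^ 2 := by positivity

theorem cd_sub {f : E4 → ℝ} {x p : E4} (h : ContDiffAt ℝ (⊤ : ℕ∞) f (x - p)) :
    ContDiffAt ℝ (⊤ : ℕ∞) (fun y => f (y - p)) x :=
  ContDiffAt.comp (g := f) (f := fun y => y - p) x h (by fun_prop)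

theorem Bf_smooth (h3 : S_K3) {s : ℝ} (hs : 0 < s) (z : E4) : ContDiffAt ℝ (⊤ : ℕ∞) (Bf s) z :=
  h3 s z (sq_add_pos hs z)

theorem Bf0_smooth (h3 : S_K3) {x : E4} (hx : x ∈ Om) : ContDiffAt ℝ (⊤ : ℕ∞) (fun y => Bf 0 (y - q0)) x := by
  have h1 : ContDiffAt ℝ (⊤ : ℕ∞) (Bf 0) (x - q0) := by
    apply h3
    have := norm_sub_q0 hx
    positivity
  exact cd_sub h1

theorem phi_smooth : ContDiff ℝ (⊤ : ℕ∞) phi := by
  unfold phi; fun_prop

theorem bilap_uu (h3 : S_K3) (hB : S_BL) (hl : S_LIN) (hT : S_T1) (hTb : S_T1b)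
    (P : Finset E4) {c β δ : ℝ} (hδ : 0 < δ) (hH : Src (Hb c β)) (hF : Src (Fs c β 1)) {x : E4} (hx : x ∈ Om) :
    ContDiffAt ℝ (⊤ : ℕ∞) (uu P c β δ) x ∧ bilap (uu P c β δ) x = ff P c β δ x := by
  obtain ⟨hadd, hsmul, hsum, htr, hconst, hphi⟩ := hl
  have s1 : ContDiffAt ℝ (⊤ : ℕ∞) (fun y => β * phi y) x := contDiffAt_const.mul phi_smooth.contDiffAt
  have s2 : ContDiffAt ℝ (⊤ : ℕ∞) (fun _ : E4 => c) x := contDiffAt_const
  have s3 : ContDiffAt ℝ (⊤ : ℕ∞) (fun y => (-((P.card : ℝ) - 7 / 8)) * Bf 0 (y - q0)) x :=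
    contDiffAt_const.mul (Bf0_smooth h3 hx)
  have s4 : ∀ p ∈ P, ContDiffAt ℝ (⊤ : ℕ∞) (fun y => Bf (ep c β) (y - p)) x := fun p _ =>
    cd_sub (Bf_smooth h3 (ep_pos c β) (x - p))
  have s5 : ∀ p ∈ P, ContDiffAt ℝ (⊤ : ℕ∞) (fun y => pot δ (Hb c β) (y - p)) x := fun p _ =>
    cd_sub ((hT δ _ hδ hH).1.contDiffAt (x := x - p))
  have s6 : ContDiffAt ℝ (⊤ : ℕ∞) (fun y => pot δ (Fs c β 1) (y - ps)) x :=
    cd_sub ((hT δ _ hδ hF).1.contDiffAt (x := x - ps))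
  have s7 : ∀ p ∈ P, ContDiffAt ℝ (⊤ : ℕ∞) (fun y => Bf (ep c β) (y - p) + pot δ (Hb c β) (y - p)) x :=
    fun p hp => (s4 p hp).add (s5 p hp)
  have s8 : ContDiffAt ℝ (⊤ : ℕ∞)
      (fun y => ∑ p ∈ P, (Bf (ep c β) (y - p) + pot δ (Hb c β) (y - p))) x := ContDiffAt.sum s7
  have s9 := s8.add s6
  have s12 := s1.add s2
  have s123 := s12.add s3
  refine ⟨s123.add s9, ?_⟩
  have e0 : uu P c β δ = fun y => (β * phi y + c + (-((P.card : ℝ) - 7 / 8)) * Bf 0 (y - q0)) +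
    ((∑ p ∈ P, (Bf (ep c β) (y - p) + pot δ (Hb c β) (y - p))) + pot δ (Fs c β 1) (y - ps)) := rfl
  rw [e0, hadd _ _ x s123 s9, hadd _ _ x s12 s3, hadd _ _ x s1 s2, hsmul _ _ x phi_smooth.contDiffAt,
    hsmul _ _ x (Bf0_smooth h3 hx), hconst, hadd _ _ x s8 s6, hsum _ _ _ x s7, htr, htr]
  have e1 : bilap phi x = 0 := hphi x
  have e2 : bilap (Bf 0) (x - q0) = 0 := by
    rw [hB 0 (x - q0) (by have := norm_sub_q0 hx; positivity)]
    simp [hs]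
  rw [e1, e2, hTb δ _ hδ hF]
  have e3 : ∀ p ∈ P, bilap (fun y => Bf (ep c β) (y - p) + pot δ (Hb c β) (y - p)) x =
      hs (ep c β) (x - p) + mol δ (Hb c β) (x - p) := by
    intro p hp
    rw [hadd _ _ x (s4 p hp) (s5 p hp), htr, htr, hB _ _ (sq_add_pos (ep_pos c β) _), hTb δ _ hδ hH]
  rw [Finset.sum_congr rfl e3]
  unfold ff
  ring

theorem VV_mul (P : Finset E4) (c β δ : ℝ) (x : E4) :
    VV P c β δ x * Real.exp (4 * uu P c β δ x) = ff P c β δ x := by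
  unfold VV
  rw [mul_assoc, ← Real.exp_add]; simp

end Pool.Agent.R207.MB.Main
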