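import Pool.Agent.R207.MB.Main1

set_option autoImplicit false

open MeasureTheory Filter Topology Metric

noncomputable section

namespace Pool.Agent.R207.MB.Main

open Pool.Agent.R207.MB

/-- logarithmic weight -/
def lam (x : E4) : ℝ := Real.log (1 + ‖x‖ ^ 2)

theorem lam_nonneg (x : E4) : 0 ≤ lam x := Real.log_nonneg (by nlinarith [sq_nonneg ‖x‖])

theorem exp_lam (x : E4) : Real.exp (lam x) = 1 + ‖x‖ ^ 2 := Real.exp_log (by positivity)

theorem one_add_sub (x y : E4) : 1 + ‖x - y‖ ^ 2 ≤ 2 * (1 + ‖x‖ ^ 2) * (1 + ‖y‖ ^ 2) := by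
  have h := norm_sub_le x y
  have h0 := norm_nonneg (x - y)
  have h1 : ‖x - y‖ ^ 2 ≤ (‖x‖ + ‖y‖) ^ 2 := by gcongr
  nlinarith [sq_nonneg (‖x‖ - ‖y‖), mul_nonneg (sq_nonneg ‖x‖) (sq_nonneg ‖y‖)]

theorem one_add_le (x y : E4) : 1 + ‖x‖ ^ 2 ≤ 2 * (1 + ‖x - y‖ ^ 2) * (1 + ‖y‖ ^ 2) := by
  have h := one_add_sub (x - y) (-y)
  simpa using h

/-- translation constant -/
def Ct (p : E4) : ℝ := Real.log (2 * (1 + ‖p‖ ^ 2))

theorem Ct_nonneg (p : E4) : 0 ≤ Ct p := Real.log_nonneg (by nlinarith [sq_nonneg ‖p‖])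

theorem lam_sub_le (x p : E4) : lam (x - p) ≤ lam x + Ct p := by
  unfold lam Ct
  rw [← Real.log_mul (by positivity) (by positivity)]
  apply Real.log_le_log (by positivity)
  have := one_add_sub x p
  linarith

theorem lam_le_sub (x p : E4) : lam x ≤ lam (x - p) + Ct p := by
  unfold lam Ct
  rw [← Real.log_mul (by positivity) (by positivity)]
  apply Real.log_le_log (by positivity)
  have := one_add_le x p
  linarith

theorem norm_q0 : ‖q0‖ = 4 := by simp [q0]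

theorem lq {x : E4} (hx : x ∈ Om) : |(-Bf 0 (x - q0)) - lam x| ≤ Real.log 34 := by
  have h2 := norm_sub_q0 hx
  have e1 : -Bf 0 (x - q0) = Real.log (‖x - q0‖ ^ 2) := by simp [Bf]
  rw [e1]; unfold lam
  have a1 : ‖x - q0‖ ^ 2 ≤ 34 * (1 + ‖x‖ ^ 2) := by
    have h := norm_sub_le x q0
    rw [norm_q0] at h
    have h0 := norm_nonneg x
    nlinarith [sq_nonneg (‖x‖ - 4)]
  have a2 : 1 + ‖x‖ ^ 2 ≤ 34 * ‖x - q0‖ ^ 2 := by
    have h : ‖x‖ ≤ ‖x - q0‖ + 4 := by
      have := norm_add_le (x - q0) q0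
      rw [norm_q0, sub_add_cancel] at this; exact this
    have h0 := norm_nonneg x
    nlinarith [sq_nonneg (‖x - q0‖ - 4)]
  have p1 : 0 < ‖x - q0‖ ^ 2 := by positivity
  have p2 : 0 < 1 + ‖x‖ ^ 2 := by positivity
  have b1 := Real.log_le_log p1 a1
  have b2 := Real.log_le_log p2 a2
  rw [Real.log_mul (by norm_num) p2.ne'] at b1
  rw [Real.log_mul (by norm_num) p1.ne'] at b2
  rw [abs_le]; constructor <;> linarith

/-- logarithm of the denominator -/
def lD (s : ℝ) (z : E4) : ℝ := Real.log (s ^ 2 + ‖z‖ ^ 2)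

theorem Bf_eq (s : ℝ) (z : E4) : Bf s z = -lD s z := rfl

theorem lD_le {s : ℝ} (h0 : 0 < s) (h1 : s ≤ 1) (x p : E4) : lD s (x - p) ≤ lam x + Ct p := by
  refine le_trans ?_ (lam_sub_le x p)
  unfold lD lam
  apply Real.log_le_log (by positivity)
  nlinarith

theorem uu_eq (P : Finset E4) (c β δ : ℝ) (x : E4) : 4 * uu P c β δ x =
    4 * β * phi x + 4 * c + (4 * ((P.card : ℝ) - 7 / 8)) * (-Bf 0 (x - q0)) - 4 * (∑ p ∈ P, lD (ep c β) (x - p))
      + 4 * ww P c β δ x := by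
  unfold uu ww
  simp only [Bf_eq (ep c β), Finset.sum_add_distrib, Finset.sum_neg_distrib]
  ring

theorem uq_bound (N : ℕ) {x : E4} (hx : x ∈ Om) :
    |(4 * ((N : ℝ) - 7 / 8)) * (-Bf 0 (x - q0)) - (4 * ((N : ℝ) - 7 / 8)) * lam x| ≤
      (4 * (N : ℝ) + 4) * Real.log 34 := by
  rw [← mul_sub, abs_mul]
  have h1 : |4 * ((N : ℝ) - 7 / 8)| ≤ 4 * (N : ℝ) + 4 := by
    have : (0:ℝ) ≤ N := Nat.cast_nonneg N
    rw [abs_le]; constructor <;> linarith
  exact mul_le_mul h1 (lq hx) (abs_nonneg _) (by positivity)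

/-- bound from below for the solutions -/
theorem neg_uu_le (P : Finset E4) {c β δ : ℝ} (hβ : 0 ≤ β) (hc : 0 ≤ c) (he : c ≤ 4 * β / 3)
    (hw : ∀ x, |ww P c β δ x| ≤ 1 + lam x / 8) {x : E4} (hx : x ∈ Om) :
    -(4 * uu P c β δ x) ≤ 16 * β / 3 + ((4 * (P.card : ℝ) + 4) * Real.log 34 + 4 * ∑ p ∈ P, Ct p + 4) + 4 * lam x := by
  rw [uu_eq]
  have h1 := phi_ge hx
  have h2 := (abs_le.1 (uq_bound P.card hx)).1
  have h3 : ∑ p ∈ P, lD (ep c β) (x - p) ≤ (P.card : ℝ) * lam x + ∑ p ∈ P, Ct p := by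
    calc _ ≤ ∑ p ∈ P, (lam x + Ct p) := Finset.sum_le_sum (fun p _ => lD_le (ep_pos c β) (ep_le_one he) x p)
      _ = _ := by rw [Finset.sum_add_distrib]; simp
  have h4 := (abs_le.1 (hw x)).1
  have h5 : β * (-(4/3)) ≤ β * phi x := mul_le_mul_of_nonneg_left h1 hβ
  nlinarith [lam_nonneg x]

theorem exists_sep (P : Finset E4) : ∃ d : ℝ, 0 < d ∧ d ≤ 1 ∧ ∀ p ∈ P, ∀ b ∈ P, p ≠ b → 2 * d ≤ ‖p - b‖ := by
  classical
  by_cases h : P.offDiag.Nonempty
  · obtain ⟨m, hm, hmin⟩ := Finset.exists_min_image P.offDiag (fun p => ‖p.1 - p.2‖) h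
    rw [Finset.mem_offDiag] at hm
    have hpos : 0 < ‖m.1 - m.2‖ := norm_pos_iff.2 (sub_ne_zero.2 hm.2.2)
    refine ⟨min 1 (‖m.1 - m.2‖ / 2), by positivity, min_le_left _ _, ?_⟩
    intro p hp b hb hpb
    have h1 := hmin (p, b) (Finset.mem_offDiag.2 ⟨hp, hb, hpb⟩)
    have h2 := min_le_right 1 (‖m.1 - m.2‖ / 2)
    simp only at h1
    linarith
  · refine ⟨1, one_pos, le_refl _, ?_⟩
    intro p hp b hb hpb
    exact absurd ⟨(p, b), Finset.mem_offDiag.2 ⟨hp, hb, hpb⟩⟩ h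

theorem aux1 {A B E S t : ℝ} (hA : 0 ≤ A) (hB : 0 ≤ B) (hE : 0 ≤ E) (hS : 0 ≤ S) (h : t ≤ A * S) :
    t ≤ (B + A) * (E + S) := by
  have : (B + A) * (E + S) = B * E + B * S + A * E + A * S := by ring
  have := mul_nonneg hB hE; have := mul_nonneg hB hS; have := mul_nonneg hA hE
  linarith

theorem aux2 {A B E S : ℝ} (hA : 0 ≤ A) (hB : 0 ≤ B) (hE : 0 ≤ E) (hS : 0 ≤ S) :
    B * E ≤ (B + A) * (E + S) := by
  have : (B + A) * (E + S) = B * E + B * S + A * E + A * S := by ring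
  have := mul_nonneg hA hS; have := mul_nonneg hB hS; have := mul_nonneg hA hE
  linarith

/-- bound from above for the volume densities -/
theorem exp_uu_le (P : Finset E4) (hP : ∀ p ∈ P, p 0 = -1) : ∃ C : ℝ, 0 < C ∧ ∀ c β δ : ℝ,
    (∀ x, |ww P c β δ x| ≤ 1 + lam x / 8) → ∀ x ∈ Om,
    Real.exp (4 * uu P c β δ x) ≤ C * (Real.exp (4 * c) * (Real.exp (4 * β * phi x) / (1 + ‖x - ps‖ ^ 2) ^ 3) +
      ∑ p ∈ P, Fs c β (ep c β) (x - p)) := by
  classical
  obtain ⟨d, hd0, hd1, hsep⟩ := exists_sep P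
  -- constants
  set K1 : ℝ := (4 * (P.card : ℝ) + 4) * Real.log 34 with hK1
  have l34 : 0 ≤ Real.log 34 := Real.log_nonneg (by norm_num)
  have hK1n : 0 ≤ K1 := by positivity
  set K2 : ℝ := ∑ p ∈ P, (Ct p + Real.log (1 + 1 / d ^ 2)) with hK2
  set K3 : ℝ := ∑ p ∈ P, (Real.log 3 + Ct p) with hK3
  set K4 : ℝ := -Real.log (d ^ 2) with hK4
  have hK4n : 0 ≤ K4 := by
    rw [hK4]; have : Real.log (d ^ 2) ≤ 0 := Real.log_nonpos (by positivity) (by nlinarith)
    linarith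
  have hK3n : 0 ≤ K3 := Finset.sum_nonneg (fun p _ => add_nonneg (Real.log_nonneg (by norm_num)) (Ct_nonneg p))
  have hcard : (0 : ℝ) ≤ P.card := Nat.cast_nonneg _
  refine ⟨Real.exp (K1 + 4 * K2 + 4 + 3 * Ct ps) + Real.exp (K1 + (4 * P.card + 5) * K3 + 4 * P.card * K4 + 4),
    by positivity, ?_⟩
  intro c β δ hw x hx
  have hFn : ∀ p ∈ P, 0 ≤ Fs c β (ep c β) (x - p) := by
    intro p hp; rw [Fs_eq hx (hP p hp)]
    have := sq_add_pos (ep_pos c β) (x - p)
    positivity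
  have hsumn : 0 ≤ ∑ p ∈ P, Fs c β (ep c β) (x - p) := Finset.sum_nonneg hFn
  have hEn : 0 ≤ Real.exp (4 * c) * (Real.exp (4 * β * phi x) / (1 + ‖x - ps‖ ^ 2) ^ 3) := by positivity
  have h2 := (abs_le.1 (uq_bound P.card hx)).2
  have h4 := (abs_le.1 (hw x)).2
  have hl := lam_nonneg x
  by_cases hcase : ∀ p ∈ P, d ≤ ‖x - p‖
  · have h3 : (P.card : ℝ) * lam x - K2 ≤ ∑ p ∈ P, lD (ep c β) (x - p) := by
      have : (P.card : ℝ) * lam x - K2 = ∑ p ∈ P, (lam x - (Ct p + Real.log (1 + 1 / d ^ 2))) := by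
        rw [Finset.sum_sub_distrib]; simp [hK2]
      rw [this]
      apply Finset.sum_le_sum
      intro p hp
      have h5 := lam_le_sub x p
      have h6 : lam (x - p) ≤ lD (ep c β) (x - p) + Real.log (1 + 1 / d ^ 2) := by
        unfold lam lD
        have hpos := sq_add_pos (ep_pos c β) (x - p)
        rw [← Real.log_mul hpos.ne' (by positivity)]
        apply Real.log_le_log (by positivity)
        have h7 := hcase p hp
        have h8 : 1 ≤ ‖x - p‖ ^ 2 * (1 / d ^ 2) := by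
          rw [mul_one_div, le_div_iff₀ (by positivity)]; nlinarith
        have h9 : 0 < ep c β ^ 2 := pow_pos (ep_pos c β) 2
        have h10 : 0 < 1 / d ^ 2 := by positivity
        nlinarith [mul_pos h9 h10]
      linarith
    have h5 : 4 * uu P c β δ x ≤ (K1 + 4 * K2 + 4 + 3 * Ct ps) + (4 * c + 4 * β * phi x - 3 * lam (x - ps)) := by
      rw [uu_eq]
      have := lam_sub_le x ps
      linarith
    calc Real.exp (4 * uu P c β δ x) ≤ Real.exp ((K1 + 4 * K2 + 4 + 3 * Ct ps) + (4 * c + 4 * β * phi x - 3 * lam (x - ps))) :=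
          Real.exp_le_exp.2 h5
      _ = Real.exp (K1 + 4 * K2 + 4 + 3 * Ct ps) * (Real.exp (4 * c) * (Real.exp (4 * β * phi x) / (1 + ‖x - ps‖ ^ 2) ^ 3)) := by
          rw [Real.exp_add, Real.exp_sub, Real.exp_add (4 * c)]
          have : Real.exp (3 * lam (x - ps)) = (1 + ‖x - ps‖ ^ 2) ^ 3 := by
            rw [← exp_lam, ← Real.exp_nat_mul]; norm_num
          rw [this]; ring
      _ ≤ _ := aux2 (Real.exp_pos _).le (Real.exp_pos _).le hEn hsumn
  · push Not at hcase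
    obtain ⟨p, hp, hpd⟩ := hcase
    have hlamK : lam x ≤ K3 := by
      have h5 := lam_le_sub x p
      have h6 : lam (x - p) ≤ Real.log 3 := by
        unfold lam; apply Real.log_le_log (by positivity)
        have := norm_nonneg (x - p)
        nlinarith
      have h7 : Real.log 3 + Ct p ≤ K3 :=
        Finset.single_le_sum (f := fun p => Real.log 3 + Ct p)
          (fun p _ => add_nonneg (Real.log_nonneg (by norm_num)) (Ct_nonneg p)) hp
      linarith
    have h3 : lD (ep c β) (x - p) - P.card * K4 ≤ ∑ b ∈ P, lD (ep c β) (x - b) := by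
      rw [← Finset.add_sum_erase P _ hp]
      have h5 : -(((P.erase p).card : ℝ) * K4) ≤ ∑ b ∈ P.erase p, lD (ep c β) (x - b) := by
        have : -(((P.erase p).card : ℝ) * K4) = ∑ b ∈ P.erase p, (-K4) := by simp
        rw [this]
        apply Finset.sum_le_sum
        intro b hb
        have hb1 := Finset.ne_of_mem_erase hb
        have hb2 := Finset.mem_of_mem_erase hb
        have h6 := hsep b hb2 p hp hb1
        have h7 : d ≤ ‖x - b‖ := by
          have : ‖b - p‖ ≤ ‖x - b‖ + ‖x - p‖ := by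
            have := norm_sub_le (x - p) (x - b)
            have e : (x - p) - (x - b) = b - p := by abel
            rw [e] at this; linarith
          linarith
        rw [hK4, neg_neg]
        unfold lD
        apply Real.log_le_log (by positivity)
        have := pow_pos (ep_pos c β) 2
        nlinarith
      have h6 : ((P.erase p).card : ℝ) ≤ P.card := by
        exact_mod_cast Finset.card_le_card (Finset.erase_subset _ _)
      nlinarith
    have hlam1 : (4 * ((P.card : ℝ) - 7 / 8)) * lam x ≤ 4 * P.card * K3 := by nlinarith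
    have h5 : 4 * uu P c β δ x ≤ (K1 + (4 * P.card + 5) * K3 + 4 * P.card * K4 + 4) +
        ((4 * β * phi x + 4 * c) - 4 * lD (ep c β) (x - p)) := by
      rw [uu_eq]
      nlinarith
    have h6 : Real.exp (4 * lD (ep c β) (x - p)) = ((ep c β) ^ 2 + ‖x - p‖ ^ 2) ^ 4 := by
      unfold lD
      rw [show (4:ℝ) = ((4:ℕ):ℝ) by norm_num, Real.exp_nat_mul, Real.exp_log (sq_add_pos (ep_pos c β) _)]
    calc Real.exp (4 * uu P c β δ x) ≤ Real.exp ((K1 + (4 * P.card + 5) * K3 + 4 * P.card * K4 + 4) +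
        ((4 * β * phi x + 4 * c) - 4 * lD (ep c β) (x - p))) := Real.exp_le_exp.2 h5
      _ = Real.exp (K1 + (4 * P.card + 5) * K3 + 4 * P.card * K4 + 4) * (Fs c β (ep c β) (x - p) / 6) := by
          rw [Real.exp_add, Real.exp_sub, h6, Fs_eq hx (hP p hp)]; ring
      _ ≤ _ := by
          have e1 := Real.exp_pos (K1 + (4 * P.card + 5) * K3 + 4 * P.card * K4 + 4)
          have e6 : Fs c β (ep c β) (x - p) ≤ ∑ p ∈ P, Fs c β (ep c β) (x - p) :=
            Finset.single_le_sum (f := fun p => Fs c β (ep c β) (x - p)) hFn hp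
          have e7 := hFn p hp
          have e8 : Real.exp (K1 + (4 * P.card + 5) * K3 + 4 * P.card * K4 + 4) * (Fs c β (ep c β) (x - p) / 6) ≤
            Real.exp (K1 + (4 * P.card + 5) * K3 + 4 * P.card * K4 + 4) * ∑ p ∈ P, Fs c β (ep c β) (x - p) :=
            mul_le_mul_of_nonneg_left (by linarith) e1.le
          exact aux1 e1.le (Real.exp_pos _).le hEn hsumn e8

end Pool.Agent.R207.MB.Main
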