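import Pool.Agent.R207.MB.Main2

set_option autoImplicit false

open MeasureTheory Filter Topology Metric

noncomputable section

namespace Pool.Agent.R207.MB.Main

open Pool.Agent.R207.MB

/-- all data of the construction: centres `P`, parameters `b k`, lifting `c (b k)`, mollification `δ k`, errors `ε k` -/
structure Dat (P : Finset E4) (c : ℝ → ℝ) (b δ ε : ℕ → ℝ) : Prop where
  hP : ∀ p ∈ P, p 0 = -1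
  hc : CGood c
  hb : Tendsto b atTop atTop
  hb1 : ∀ k, 1 ≤ b k
  hc0 : ∀ k, 0 ≤ c (b k)
  hc1 : ∀ k, c (b k) ≤ Real.sqrt (b k)
  hc2 : ∀ k, Real.exp (5 * c (b k)) * Jf (b k) ≤ 1
  hδ0 : ∀ k, 0 < δ k
  hδ1 : ∀ k, δ k ≤ 1
  hε : Tendsto ε atTop (𝓝 0)
  hε1 : ∀ k, ε k ≤ 1
  hH : ∀ k, Src (Hb (c (b k)) (b k))
  hF : ∀ k, Src (Fs (c (b k)) (b k) 1)
  hHL : ∀ k, ∫ y, |Hb (c (b k)) (b k) y| ≤ ε k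
  hFL : ∀ k, ∫ y, |Fs (c (b k)) (b k) 1 y| ≤ ε k
  hHp : ∀ k x, |pot (δ k) (Hb (c (b k)) (b k)) x| ≤ ε k * (1 + lam x)
  hFp : ∀ k x, |pot (δ k) (Fs (c (b k)) (b k) 1) x| ≤ ε k * (1 + lam x)
  hw : ∀ k x, |ww P (c (b k)) (b k) (δ k) x| ≤ 1 + lam x / 8
  hHm : ∀ k (z : E4), -1 + 1 / b k ≤ z 0 → ‖z‖ ≤ b k →
    |mol (δ k) (Hb (c (b k)) (b k)) z - Hb (c (b k)) (b k) z| ≤ Real.exp (-(10 * b k))
  hFm : ∀ k (z : E4), -1 + 1 / b k ≤ z 0 → ‖z‖ ≤ b k →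
    |mol (δ k) (Fs (c (b k)) (b k) 1) z - Fs (c (b k)) (b k) 1 z| ≤ Real.exp (-(10 * b k))

/-- the limit curvature -/
def V0 (P : Finset E4) (x : E4) : ℝ := 6 * Real.exp ((4 * ((P.card : ℝ) - 7 / 8)) * Bf 0 (x - q0)) *
  ((∑ p ∈ P, ∏ a ∈ P.erase p, (‖x - a‖ ^ 2) ^ 4) + (∏ a ∈ P, (‖x - a‖ ^ 2) ^ 4) / (1 + ‖x - ps‖ ^ 2) ^ 4)

/-- derivative bounds for the potential of `Fs c β 1`, the origin allowed -/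
def S_DER0 : Prop := ∀ c : ℝ → ℝ, CGood c → ∀ K : Set E4, IsCompact K →
  K ⊆ {z : E4 | -1 < z 0 ∧ z 0 ≠ 2} → ∀ α : ℝ, 0 ≤ α → α < 1 → ∃ C : ℝ, 0 < C ∧
  ∀ᶠ β in atTop, ∀ s : ℝ, 0 < s → s ≤ 1 →
    (∀ n : ℕ, n ≤ 3 → ∀ x ∈ K, ‖iteratedFDeriv ℝ n (pot s (Fs (c β) β 1)) x‖ ≤ C) ∧
    ∀ x ∈ K, ∀ y ∈ K, ‖iteratedFDeriv ℝ 3 (pot s (Fs (c β) β 1)) x - iteratedFDeriv ℝ 3 (pot s (Fs (c β) β 1)) y‖
      ≤ C * ‖x - y‖ ^ α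

/-- existence of the data -/
def S_DAT : Prop := ∀ P : Finset E4, (∀ p ∈ P, p 0 = -1) → ∃ (c : ℝ → ℝ) (b δ ε : ℕ → ℝ), Dat P c b δ ε

/-- boundedness of the curvatures -/
def S_VB : Prop := ∀ (P : Finset E4) (c : ℝ → ℝ) (b δ ε : ℕ → ℝ), Dat P c b δ ε → ∀ k, ∃ M : ℝ, ∀ x ∈ Om,
  |VV P (c (b k)) (b k) (δ k) x| ≤ M

/-- bounded volume -/
def S_INT : Prop := ∀ (P : Finset E4) (c : ℝ → ℝ) (b δ ε : ℕ → ℝ), Dat P c b δ ε → ∃ C : ℝ, ∀ k,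
  IntegrableOn (fun x => Real.exp (4 * uu P (c (b k)) (b k) (δ k) x)) Om ∧
  ∫ x in Om, Real.exp (4 * uu P (c (b k)) (b k) (δ k) x) ≤ C

/-- local masses -/
def S_LM : Prop := ∀ (P : Finset E4) (c : ℝ → ℝ) (b δ ε : ℕ → ℝ), Dat P c b δ ε → ∀ x ∈ Om,
  ∃ r0 : ℝ, 0 < r0 ∧ ball x r0 ⊆ Om ∧ ∀ r : ℝ, 0 < r → r < r0 →
    (x ∈ P → Tendsto (fun k => ∫ y in ball x r, ff P (c (b k)) (b k) (δ k) y) atTop (𝓝 (16 * Real.pi ^ 2))) ∧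
    (x ∉ P → Tendsto (fun k => ∫ y in ball x r, ff P (c (b k)) (b k) (δ k) y) atTop (𝓝 0))

/-- convergence of the curvatures -/
def S_VLIM : Prop := ∀ (P : Finset E4) (c : ℝ → ℝ) (b δ ε : ℕ → ℝ), Dat P c b δ ε →
  TendstoLocallyUniformlyOn (fun k => VV P (c (b k)) (b k) (δ k)) (V0 P) atTop Om

def S_V0 : Prop := ∀ P : Finset E4, ContinuousOn (V0 P) Om ∧ ∀ x ∈ Om, 0 < V0 P x

/-- `C^{3,α}` convergence of the rescaled solutions away from the singular set -/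
def S_C3 : Prop := ∀ (P : Finset E4) (c : ℝ → ℝ) (b δ ε : ℕ → ℝ), Dat P c b δ ε → ∀ K : Set E4, IsCompact K →
  K ⊆ {x : E4 | x ∈ Om ∧ x ∉ P ∧ x 0 ≠ 1} → ∀ α : ℝ, 0 ≤ α → α < 1 → ∀ e : ℝ, 0 < e → ∀ᶠ k in atTop,
  (∀ n : ℕ, n ≤ 3 → ∀ x ∈ K,
    ‖iteratedFDeriv ℝ n (fun z => uu P (c (b k)) (b k) (δ k) z / b k) x - iteratedFDeriv ℝ n phi x‖ ≤ e) ∧
  ∀ x ∈ K, ∀ y ∈ K,
    ‖(iteratedFDeriv ℝ 3 (fun z => uu P (c (b k)) (b k) (δ k) z / b k) x - iteratedFDeriv ℝ 3 phi x) -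
      (iteratedFDeriv ℝ 3 (fun z => uu P (c (b k)) (b k) (δ k) z / b k) y - iteratedFDeriv ℝ 3 phi y)‖
      ≤ e * ‖x - y‖ ^ α

/-- the solutions tend to infinity on the polyharmonic blow-up set -/
def S_UP : Prop := ∀ (P : Finset E4) (c : ℝ → ℝ) (b δ ε : ℕ → ℝ), Dat P c b δ ε → ∀ K : Set E4, IsCompact K →
  K ⊆ {x : E4 | x ∈ Om ∧ x 0 = 1} → ∀ M : ℝ, ∀ᶠ k in atTop, ∀ x ∈ K, M ≤ uu P (c (b k)) (b k) (δ k) x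

end Pool.Agent.R207.MB.Main
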