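import Pool.Agent.R207.MB.Main3

set_option autoImplicit false

open MeasureTheory Filter Topology Metric

noncomputable section

namespace Pool.Agent.R207.MB.Main

open Pool.Agent.R207.MB

/-- the centre `(-1, a)` -/
def pt (a : Fin 3 → ℝ) : E4 := WithLp.toLp 2 (Fin.cons (-1) a)

theorem pt_zero (a : Fin 3 → ℝ) : pt a 0 = -1 := rfl

theorem pt_succ (a : Fin 3 → ℝ) (i : Fin 3) : pt a i.succ = a i := rfl

theorem exists_P (A : Set (Fin 3 → ℝ)) (hA : A.Finite) : ∃ P : Finset E4, ∀ x : E4,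
    x ∈ P ↔ x 0 = -1 ∧ (fun i : Fin 3 => x i.succ) ∈ A := by
  classical
  refine ⟨hA.toFinset.image pt, ?_⟩
  intro x
  rw [Finset.mem_image]
  constructor
  · rintro ⟨a, ha, rfl⟩
    refine ⟨pt_zero a, ?_⟩
    have : (fun i : Fin 3 => pt a i.succ) = a := by funext i; rfl
    rw [this]; exact hA.mem_toFinset.1 ha
  · rintro ⟨h0, h1⟩
    refine ⟨fun i => x i.succ, hA.mem_toFinset.2 h1, ?_⟩
    ext i
    refine Fin.cases ?_ (fun j => ?_) i
    · rw [pt_zero, h0]
    · rw [pt_succ]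

theorem mem_Om_of_P {P : Finset E4} (hP : ∀ p ∈ P, p 0 = -1) {p : E4} (hp : p ∈ P) : p ∈ Om := by
  have := hP p hp
  constructor <;> rw [this] <;> norm_num

theorem ff_continuous (h2 : S_T2) (P : Finset E4) {c β δ : ℝ} (hδ : 0 < δ) (hH : Src (Hb c β)) (hF : Src (Fs c β 1)) :
    Continuous (ff P c β δ) := by
  unfold ff
  have c1 := (h2 δ _ hδ hH).1
  have c2 := (h2 δ _ hδ hF).1
  have c3 : Continuous (hs (ep c β)) := by
    unfold hs
    apply Continuous.div continuous_const (by fun_prop)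
    intro z
    have := sq_add_pos (ep_pos c β) z
    positivity
  refine Continuous.add (continuous_finset_sum _ fun p _ => ?_) (c2.comp (by fun_prop))
  exact (c3.comp (by fun_prop)).add (c1.comp (by fun_prop))

/-- masses computed in the extended reals -/
theorem conc_mem (hLM : S_LM) {P : Finset E4} {c : ℝ → ℝ} {b δ ε : ℕ → ℝ} (D : Dat P c b δ ε)
    (V u : ℕ → E4 → ℝ) (hV : ∀ k y, V k y * Real.exp (4 * u k y) = ff P (c (b k)) (b k) (δ k) y) (x : E4) (hx : x ∈ Om) :
    (∃ L : EReal, Tendsto (fun r : ℝ => liminf (fun k : ℕ =>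
      ((∫ y in ball x r ∩ Om, V k y * Real.exp (4 * u k y) : ℝ) : EReal)) atTop) (𝓝[>] 0) (𝓝 L) ∧
      (((16 * Real.pi ^ 2) / 2 : ℝ) : EReal) ≤ L) ↔ x ∈ P := by
  obtain ⟨r0, hr0, hball, hr⟩ := hLM P c b δ ε D x hx
  have key : ∀ v : ℝ, (∀ r : ℝ, 0 < r → r < r0 →
      Tendsto (fun k => ∫ y in ball x r, ff P (c (b k)) (b k) (δ k) y) atTop (𝓝 v)) →
      Tendsto (fun r : ℝ => liminf (fun k : ℕ =>
      ((∫ y in ball x r ∩ Om, V k y * Real.exp (4 * u k y) : ℝ) : EReal)) atTop) (𝓝[>] 0) (𝓝 (v : EReal)) := by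
    intro v hv
    have hev : (fun r : ℝ => liminf (fun k : ℕ =>
      ((∫ y in ball x r ∩ Om, V k y * Real.exp (4 * u k y) : ℝ) : EReal)) atTop) =ᶠ[𝓝[>] 0] fun _ => (v : EReal) := by
      have h1 : ∀ᶠ r : ℝ in 𝓝[>] 0, r < r0 := by
        filter_upwards [Ioo_mem_nhdsGT hr0] with r hr using hr.2
      filter_upwards [h1, self_mem_nhdsWithin] with r hr1 hr2
      have hsub : ball x r ∩ Om = ball x r :=
        Set.inter_eq_left.2 ((ball_subset_ball hr1.le).trans hball)
      have h2 : Tendsto (fun k : ℕ => ((∫ y in ball x r ∩ Om, V k y * Real.exp (4 * u k y) : ℝ) : EReal)) atTop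
          (𝓝 (v : EReal)) := by
        have h3 : (fun k : ℕ => (∫ y in ball x r ∩ Om, V k y * Real.exp (4 * u k y) : ℝ)) =
            fun k => ∫ y in ball x r, ff P (c (b k)) (b k) (δ k) y := by
          funext k; rw [hsub]; simp only [hV]
        have h4 := hv r hr2 hr1
        rw [← h3] at h4
        exact (continuous_coe_real_ereal.tendsto v).comp h4
      exact h2.liminf_eq
    exact (tendsto_congr' hev).2 tendsto_const_nhds
  constructor
  · rintro ⟨L, hL, hle⟩
    by_contra hxP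
    have h1 := key 0 (fun r h1 h2 => (hr r h1 h2).2 hxP)
    have h2 : L = ((0 : ℝ) : EReal) := tendsto_nhds_unique hL h1
    rw [h2] at hle
    have h3 := EReal.coe_le_coe_iff.1 hle
    have := Real.pi_pos
    nlinarith [pow_pos Real.pi_pos 2]
  · intro hxP
    refine ⟨((16 * Real.pi ^ 2 : ℝ) : EReal), key _ (fun r h1 h2 => (hr r h1 h2).1 hxP), ?_⟩
    apply EReal.coe_le_coe_iff.2
    have := pow_pos Real.pi_pos 2
    linarith

theorem zero_iff (x : E4) (hx : x ∈ Om) : phi x = 0 ↔ x 0 = 1 := by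
  unfold phi
  have h1 := hx.1
  constructor
  · intro h
    have h2 : (x 0 - 1) ^ 2 * (x 0 + 2) = 0 := by nlinarith
    rcases mul_eq_zero.1 h2 with h3 | h3
    · have := pow_eq_zero_iff (two_ne_zero) |>.1 h3
      linarith
    · linarith
  · intro h; rw [h]; norm_num

end Pool.Agent.R207.MB.Main
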