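import Pool.Agent.R207.MB.Stm

set_option autoImplicit false

open MeasureTheory Filter Topology Metric

noncomputable section

namespace Pool.Agent.R207.MB

namespace P6

lemma gf_smul (s : ℝ) (hs0 : 0 < s) (w : E4) : gf s (s • w) = (s ^ 4)⁻¹ * gf 1 w := by
  unfold gf hs
  have h1 : ‖s • w‖ ^ 2 = s ^ 2 * ‖w‖ ^ 2 := by
    rw [norm_smul, mul_pow, Real.norm_eq_abs, sq_abs]
  rw [h1]
  have h2 : s ^ 2 + s ^ 2 * ‖w‖ ^ 2 = s ^ 2 * (1 + ‖w‖ ^ 2) := by ring
  rw [h2]
  have h3 : (1 + ‖w‖ ^ 2) ≠ 0 := by positivity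
  have h4 : s ≠ 0 := hs0.ne'
  have h5 : Real.pi ≠ 0 := Real.pi_ne_zero
  rw [one_pow, one_pow]
  field_simp

lemma mol_eq (s : ℝ) (hs0 : 0 < s) (H : E4 → ℝ) (x : E4) :
    mol s H x = ∫ w, gf 1 w * H (x - s • w) := by
  unfold mol
  have h1 : (∫ y, gf s (x - y) * H y) = ∫ z, gf s z * H (x - z) := by
    have h := integral_sub_left_eq_self (fun z : E4 => gf s z * H (x - z)) volume x
    rw [← h]
    simp
  rw [h1]
  have h2 := Measure.integral_comp_smul (volume : Measure E4) (fun z : E4 => gf s z * H (x - z)) s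
  rw [finrank_euclideanSpace_fin] at h2
  have h3 : |(s ^ 4)⁻¹| = (s ^ 4)⁻¹ := abs_of_pos (by positivity)
  rw [h3, smul_eq_mul] at h2
  have h4 : (∫ z, gf s z * H (x - z)) = s ^ 4 * ∫ w, gf s (s • w) * H (x - s • w) := by
    rw [h2, ← mul_assoc, mul_inv_cancel₀ (by positivity), one_mul]
  rw [h4, ← integral_const_mul]
  congr 1
  ext w
  rw [gf_smul s hs0 w]
  have : (s ^ 4) ≠ 0 := by positivity
  field_simp

lemma src_bound {H : E4 → ℝ} (hH : Src H) : ∃ M : ℝ, ∀ y, |H y| ≤ M := by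
  obtain ⟨_, M, hM⟩ := hH
  have hM0 : 0 ≤ M := by
    have h := hM 0
    have h1 : (1 + ‖(0 : E4)‖ ^ 2) ^ 4 = 1 := by simp
    rw [h1, div_one] at h
    exact (abs_nonneg _).trans h
  refine ⟨M, fun y => (hM y).trans ?_⟩
  apply div_le_self hM0
  apply one_le_pow₀
  nlinarith [sq_nonneg ‖y‖]

lemma continuous_gf1 : Continuous (gf 1) := by
  unfold gf hs
  apply Continuous.div_const
  apply Continuous.div continuous_const (by fun_prop)
  intro x
  positivity

lemma gf1_nonneg (w : E4) : 0 ≤ gf 1 w := by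
  unfold gf hs
  positivity

end P6

open P6

theorem t_P6 (hM : S_MASS) : S_P6 := by
  intro H hH U hU hcont
  obtain ⟨M, hMb⟩ := src_bound hH
  obtain ⟨hint, hmass⟩ := hM 1 one_pos
  have hgint : Integrable (gf 1) := by
    unfold gf
    exact hint.div_const _
  have hgmass : ∫ w, gf 1 w = 1 := by
    unfold gf
    rw [integral_div, hmass]
    have : Real.pi ≠ 0 := Real.pi_ne_zero
    field_simp
  rw [tendstoLocallyUniformlyOn_iff_forall_tendsto]
  intro x hx
  have hHx : ContinuousAt H x := hcont.continuousAt (hU.mem_nhds hx)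
  have hlim : Tendsto (fun y : ℝ × E4 => mol y.1 H y.2) (𝓝[>] (0 : ℝ) ×ˢ 𝓝 x) (𝓝 (H x)) := by
    have h1 : Tendsto (fun y : ℝ × E4 => ∫ w, gf 1 w * H (y.2 - y.1 • w))
        (𝓝[>] (0 : ℝ) ×ˢ 𝓝 x) (𝓝 (∫ w, gf 1 w * H x)) := by
      refine tendsto_integral_filter_of_dominated_convergence (fun w => gf 1 w * M) ?_ ?_ ?_ ?_
      · refine Eventually.of_forall fun y => ?_
        refine AEStronglyMeasurable.mul continuous_gf1.aestronglyMeasurable ?_
        refine (hH.1.comp ?_).aestronglyMeasurable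
        fun_prop
      · refine Eventually.of_forall fun y => Eventually.of_forall fun w => ?_
        rw [norm_mul, Real.norm_eq_abs, Real.norm_eq_abs, abs_of_nonneg (gf1_nonneg w)]
        exact mul_le_mul_of_nonneg_left (hMb _) (gf1_nonneg w)
      · exact hgint.mul_const M
      · refine Eventually.of_forall fun w => ?_
        refine Tendsto.const_mul _ ?_
        refine hHx.tendsto.comp ?_
        have h2 : Tendsto (fun y : ℝ × E4 => y.2 - y.1 • w) (𝓝 (0 : ℝ) ×ˢ 𝓝 x)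
            (𝓝 (x - (0 : ℝ) • w)) := by
          rw [← nhds_prod_eq]
          have : Continuous (fun y : ℝ × E4 => y.2 - y.1 • w) := by fun_prop
          exact this.tendsto (0, x)
        rw [zero_smul, sub_zero] at h2
        exact h2.mono_left (Filter.prod_mono nhdsWithin_le_nhds le_rfl)
    rw [integral_mul_const, hgmass, one_mul] at h1
    refine h1.congr' ?_
    have h3 : ∀ᶠ y : ℝ × E4 in 𝓝[>] (0 : ℝ) ×ˢ 𝓝 x, 0 < y.1 := by
      have : ∀ᶠ s : ℝ in 𝓝[>] (0 : ℝ), 0 < s := self_mem_nhdsWithin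
      exact this.prod_inl _
    filter_upwards [h3] with y hy
    exact (mol_eq y.1 hy H y.2).symm
  rw [tendsto_uniformity_iff_dist_tendsto_zero]
  have h4 : Tendsto (fun y : ℝ × E4 => H y.2) (𝓝[>] (0 : ℝ) ×ˢ 𝓝 x) (𝓝 (H x)) :=
    hHx.tendsto.comp tendsto_snd
  have h5 := (h4.dist hlim)
  rw [dist_self] at h5
  exact h5.mono_left (Filter.prod_mono le_rfl nhdsWithin_le_nhds)

end Pool.Agent.R207.MB
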