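import Pool.Agent.R207.MB.Stm

set_option autoImplicit false

open MeasureTheory Filter Topology Metric

noncomputable section

namespace Pool.Agent.R207.MB

namespace POT0

/-- the truncated singular kernel -/
def K (z : E4) : ℝ := Set.indicator (ball (0 : E4) 1) (fun z => (‖z‖ ^ 3)⁻¹) z

lemma K_nonneg (z : E4) : 0 ≤ K z := by
  unfold K
  exact Set.indicator_nonneg (fun z _ => by positivity) z

lemma K_int : Integrable K := by
  unfold K
  rw [integrable_indicator_iff measurableSet_ball]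
  refine integrableOn_ball_of_norm_le_rpow (μ := (volume : Measure E4)) (C := 1) (α := 3) ?_ ?_ ?_ ?_
  · rw [finrank_euclideanSpace_fin]; norm_num
  · rw [finrank_euclideanSpace_fin]; norm_num
  · refine Eventually.of_forall fun z => ?_
    rw [one_mul, Real.norm_of_nonneg (by positivity), Real.rpow_neg (norm_nonneg z)]
    apply le_of_eq
    congr 1
    exact (Real.rpow_natCast ‖z‖ 3).symm
  · apply Measurable.aestronglyMeasurable
    fun_prop

lemma int3 : Integrable (fun y : E4 => 1 / (1 + ‖y‖ ^ 2) ^ 3) := by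
  have h := integrable_rpow_neg_one_add_norm_sq (E := E4) (μ := volume) (r := 6)
    (by rw [finrank_euclideanSpace_fin]; norm_num)
  refine h.congr (Eventually.of_forall fun y => ?_)
  have h1 : (0 : ℝ) < 1 + ‖y‖ ^ 2 := by positivity
  have h2 : (-6 / 2 : ℝ) = -(3 : ℕ) := by norm_num
  simp only
  rw [h2, Real.rpow_neg h1.le, Real.rpow_natCast, one_div]

lemma src_int {H : E4 → ℝ} (hH : Src H) : Integrable (fun y => (1 + ‖y‖) * |H y|) := by
  obtain ⟨hm, M, hM⟩ := hH
  have hM0 : 0 ≤ M := by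
    have h := hM 0
    have h1 : (1 + ‖(0 : E4)‖ ^ 2) ^ 4 = 1 := by simp
    rw [h1, div_one] at h
    exact (abs_nonneg _).trans h
  refine Integrable.mono' (int3.const_mul (2 * M)) ?_ (Eventually.of_forall fun y => ?_)
  · apply Measurable.aestronglyMeasurable
    fun_prop
  · rw [Real.norm_of_nonneg (by positivity)]
    have h1 : (0 : ℝ) < 1 + ‖y‖ ^ 2 := by positivity
    have h2 : 1 + ‖y‖ ≤ 2 * (1 + ‖y‖ ^ 2) := by nlinarith [norm_nonneg y, sq_nonneg (‖y‖ - 1)]
    calc (1 + ‖y‖) * |H y| ≤ (2 * (1 + ‖y‖ ^ 2)) * (M / (1 + ‖y‖ ^ 2) ^ 4) := by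
          gcongr
          exact hM y
      _ = 2 * M * (1 / (1 + ‖y‖ ^ 2) ^ 3) := by
          field_simp

/-- the elementary bound for the logarithm -/
lemma log_bound (s r L : ℝ) (hs0 : 0 < s) (hs1 : s ≤ 1) (hr : 0 < r) (hL : 0 ≤ L) :
    |Real.log (s ^ 2 + r ^ 2)| ≤ Real.log (1 + r ^ 2) +
      (2 * L + (if r < 1 then Real.exp (-(3 * L)) * (r ^ 3)⁻¹ else 0)) := by
  have hpos : 0 < s ^ 2 + r ^ 2 := by positivity
  have hs2 : s ^ 2 ≤ 1 := by nlinarith
  have h0 : 0 ≤ Real.log (1 + r ^ 2) := Real.log_nonneg (by nlinarith [sq_nonneg r])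
  have h1 : 0 ≤ (if r < 1 then Real.exp (-(3 * L)) * (r ^ 3)⁻¹ else 0) := by
    split_ifs
    · positivity
    · exact le_rfl
  rcases le_total 1 (s ^ 2 + r ^ 2) with h | h
  · rw [abs_of_nonneg (Real.log_nonneg h)]
    have h2 : Real.log (s ^ 2 + r ^ 2) ≤ Real.log (1 + r ^ 2) :=
      Real.log_le_log hpos (by linarith)
    linarith
  · rw [abs_of_nonpos (Real.log_nonpos hpos.le h)]
    have hr1 : r < 1 := by
      by_contra hcon
      push Not at hcon
      nlinarith [sq_nonneg s, pow_pos hs0 2]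
    rw [if_pos hr1]
    have h2 : Real.log (r ^ 2) ≤ Real.log (s ^ 2 + r ^ 2) :=
      Real.log_le_log (by positivity) (by nlinarith [sq_nonneg s])
    have h3 : Real.log (r ^ 2) = 2 * Real.log r := by
      rw [Real.log_pow]; norm_num
    have h4 : Real.log (Real.exp (-(3 * L)) * (r ^ 3)⁻¹) ≤ Real.exp (-(3 * L)) * (r ^ 3)⁻¹ - 1 :=
      Real.log_le_sub_one_of_pos (by positivity)
    have h5 : Real.log (Real.exp (-(3 * L)) * (r ^ 3)⁻¹) = -(3 * L) - 3 * Real.log r := by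
      rw [Real.log_mul (by positivity) (by positivity), Real.log_exp, Real.log_inv, Real.log_pow]
      norm_num
      ring
    rw [h5] at h4
    have h6 : 0 < Real.exp (-(3 * L)) * (r ^ 3)⁻¹ := by positivity
    linarith

lemma log_split (x y : E4) :
    Real.log (1 + ‖x - y‖ ^ 2) ≤ 1 + Real.log (1 + ‖x‖ ^ 2) + 2 * ‖y‖ := by
  have h1 : 1 + ‖x - y‖ ^ 2 ≤ 2 * (1 + ‖x‖ ^ 2) * (1 + ‖y‖) ^ 2 := by
    have h2 : ‖x - y‖ ≤ ‖x‖ + ‖y‖ := norm_sub_le x y
    have h3 := norm_nonneg x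
    have h4 := norm_nonneg y
    have h5 := norm_nonneg (x - y)
    have h6 : ‖x - y‖ ^ 2 ≤ (‖x‖ + ‖y‖) ^ 2 := by gcongr
    nlinarith [sq_nonneg (‖x‖ - ‖y‖), mul_nonneg (sq_nonneg ‖x‖) h4,
      mul_nonneg (sq_nonneg ‖x‖) (sq_nonneg ‖y‖)]
  have h2 : Real.log (1 + ‖x - y‖ ^ 2) ≤ Real.log (2 * (1 + ‖x‖ ^ 2) * (1 + ‖y‖) ^ 2) :=
    Real.log_le_log (by positivity) h1
  have h3 : Real.log (2 * (1 + ‖x‖ ^ 2) * (1 + ‖y‖) ^ 2) =
      Real.log 2 + Real.log (1 + ‖x‖ ^ 2) + 2 * Real.log (1 + ‖y‖) := by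
    rw [Real.log_mul (by positivity) (by positivity), Real.log_mul (by positivity) (by positivity),
      Real.log_pow]
    norm_num
  have h4 : Real.log (1 + ‖y‖) ≤ ‖y‖ := by
    have := Real.log_le_sub_one_of_pos (show (0 : ℝ) < 1 + ‖y‖ by positivity)
    linarith
  have h5 : Real.log 2 ≤ 1 := by
    have := Real.log_two_lt_d9
    linarith
  linarith

end POT0

open POT0

theorem t_POT0 : S_POT0 := by
  refine ⟨2 + ∫ z, K z, by
    have : 0 ≤ ∫ z, K z := integral_nonneg K_nonneg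
    linarith, ?_⟩
  intro s H hs0 hs1 hH M L hL hM x
  have hκ : 0 ≤ ∫ z, K z := integral_nonneg K_nonneg
  have hM0 : 0 ≤ M := (abs_nonneg _).trans (hM 0)
  set A : ℝ := Real.log (1 + ‖x‖ ^ 2) with hA
  have hA0 : 0 ≤ A := Real.log_nonneg (by nlinarith [sq_nonneg ‖x‖])
  have hpi : (1 : ℝ) ≤ 16 * Real.pi ^ 2 := by
    have := Real.pi_gt_three
    nlinarith
  have hKx : Integrable (fun y => K (x - y)) := K_int.comp_sub_left x
  have hKi : ∫ y, K (x - y) = ∫ z, K z := integral_sub_left_eq_self K volume x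
  have hg : Integrable (fun y => 2 * (1 + L + A) * ((1 + ‖y‖) * |H y|) +
      Real.exp (-(3 * L)) * M * K (x - y)) :=
    ((src_int hH).const_mul _).add (hKx.const_mul _)
  have hb : ∀ᵐ y : E4, ‖kf s (x - y) * H y‖ ≤ 2 * (1 + L + A) * ((1 + ‖y‖) * |H y|) +
      Real.exp (-(3 * L)) * M * K (x - y) := by
    have hne : ∀ᵐ y : E4, y ≠ x := by
      have : (volume : Measure E4) {x} = 0 := measure_singleton x
      exact compl_mem_ae_iff.mpr this
    filter_upwards [hne] with y hy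
    have hr : 0 < ‖x - y‖ := norm_pos_iff.mpr (sub_ne_zero.mpr (Ne.symm hy))
    have h1 := log_bound s ‖x - y‖ L hs0 hs1 hr hL
    have h2 := log_split x y
    have h3 : ‖kf s (x - y)‖ ≤ |Real.log (s ^ 2 + ‖x - y‖ ^ 2)| := by
      unfold kf Bf
      rw [Real.norm_eq_abs, abs_div, abs_neg, abs_of_pos (by linarith : (0 : ℝ) < 16 * Real.pi ^ 2)]
      exact div_le_self (abs_nonneg _) hpi
    have h4 : (if ‖x - y‖ < 1 then Real.exp (-(3 * L)) * (‖x - y‖ ^ 3)⁻¹ else 0) =
        Real.exp (-(3 * L)) * K (x - y) := by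
      unfold K
      by_cases h : ‖x - y‖ < 1
      · rw [if_pos h, Set.indicator_of_mem (by rw [mem_ball_zero_iff]; exact h)]
      · rw [if_neg h, Set.indicator_of_notMem (by rw [mem_ball_zero_iff]; exact h), mul_zero]
    rw [h4] at h1
    have h5 : ‖kf s (x - y)‖ ≤ 2 * (1 + L + A) * (1 + ‖y‖) + Real.exp (-(3 * L)) * K (x - y) := by
      have h6 : 1 + A + 2 * ‖y‖ + 2 * L ≤ 2 * (1 + L + A) * (1 + ‖y‖) := by
        nlinarith [norm_nonneg y, mul_nonneg hL (norm_nonneg y), mul_nonneg hA0 (norm_nonneg y)]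
      linarith
    have h7 : 0 ≤ Real.exp (-(3 * L)) * K (x - y) := mul_nonneg (Real.exp_pos _).le (K_nonneg _)
    rw [norm_mul, Real.norm_eq_abs (H y)]
    calc ‖kf s (x - y)‖ * |H y| ≤
        (2 * (1 + L + A) * (1 + ‖y‖) + Real.exp (-(3 * L)) * K (x - y)) * |H y| := by
          gcongr
      _ = 2 * (1 + L + A) * ((1 + ‖y‖) * |H y|) + Real.exp (-(3 * L)) * K (x - y) * |H y| := by
          ring
      _ ≤ 2 * (1 + L + A) * ((1 + ‖y‖) * |H y|) + Real.exp (-(3 * L)) * K (x - y) * M := by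
          gcongr
          exact hM y
      _ = _ := by ring
  have hmain : |pot s H x| ≤ ∫ y, (2 * (1 + L + A) * ((1 + ‖y‖) * |H y|) +
      Real.exp (-(3 * L)) * M * K (x - y)) := by
    unfold pot
    have := norm_integral_le_of_norm_le hg hb
    rwa [Real.norm_eq_abs] at this
  rw [integral_add ((src_int hH).const_mul _) (hKx.const_mul _), integral_const_mul,
    integral_const_mul, hKi] at hmain
  refine hmain.trans ?_
  have hI : 0 ≤ ∫ y, (1 + ‖y‖) * |H y| := integral_nonneg fun y => by positivity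
  have hE : 0 < Real.exp (-(3 * L)) := Real.exp_pos _
  have h1 : 0 ≤ (1 + L + A) * ∫ y, (1 + ‖y‖) * |H y| := by positivity
  have h2 : 0 ≤ Real.exp (-(3 * L)) * M := by positivity
  nlinarith [mul_nonneg hκ h1, mul_nonneg hκ h2]

end Pool.Agent.R207.MB
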