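import Pool.Agent.R207.MB.Stm

set_option autoImplicit false

open MeasureTheory Filter Topology Metric

namespace Pool.Agent.R207.MB

namespace POT1

/-- the local kernel -/
noncomputable def gK (σ : ℝ) : E4 → ℝ := (ball (0 : E4) 1).indicator fun z => ‖z‖ ^ (-σ)

theorem gK_nonneg (σ : ℝ) (z : E4) : 0 ≤ gK σ z := by
  unfold gK
  apply Set.indicator_nonneg
  intro z _
  positivity

theorem int_gK {σ : ℝ} (hσ : σ < 4) : Integrable (gK σ) := by
  unfold gK
  rw [integrable_indicator_iff measurableSet_ball]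
  rw [integrableOn_fun_norm_addHaar (E := E4) volume (f := fun r => r ^ (-σ))]
  have h1 : IntegrableOn (fun y : ℝ => y ^ (3 - σ)) (Set.Ioo 0 1) := by
    have := intervalIntegral.intervalIntegrable_rpow' (a := 0) (b := 1) (r := 3 - σ) (by linarith)
    rw [intervalIntegrable_iff_integrableOn_Ioo_of_le zero_le_one] at this
    exact this
  refine h1.congr_fun (fun y hy => ?_) measurableSet_Ioo
  have hd : Module.finrank ℝ E4 - 1 = 3 := by simp [E4]
  simp only [hd, smul_eq_mul]
  rw [sub_eq_add_neg, Real.rpow_add hy.1]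
  norm_num

theorem int_src {H : E4 → ℝ} (hH : Src H) : Integrable (fun y => |H y|) := by
  obtain ⟨hm, M, hM⟩ := hH
  have h := integrable_rpow_neg_one_add_norm_sq (E := E4) (μ := volume) (r := 8)
    (by simp [E4]; norm_num)
  refine (h.const_mul M).mono' (by fun_prop) (Eventually.of_forall fun z => ?_)
  have hp : (0 : ℝ) < 1 + ‖z‖ ^ 2 := by positivity
  have h2 : (1 + ‖z‖ ^ 2) ^ (-(8 : ℝ) / 2) = 1 / (1 + ‖z‖ ^ 2) ^ 4 := by
    rw [show -(8 : ℝ) / 2 = -((4 : ℕ) : ℝ) by norm_num, Real.rpow_neg hp.le, Real.rpow_natCast,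
      one_div]
  rw [Real.norm_eq_abs, abs_abs]
  show |H z| ≤ M * (1 + ‖z‖ ^ 2) ^ (-(8 : ℝ) / 2)
  rw [h2, mul_one_div]
  exact hM z

end POT1

open POT1 in
theorem t_POT1 : S_POT1 := by
  intro σ hσ0 hσ
  have hg := int_gK hσ
  have hg0 : 0 ≤ ∫ z, gK σ z := integral_nonneg (gK_nonneg σ)
  refine ⟨(∫ z, gK σ z) + 1, by linarith, ?_⟩
  intro H hH η m hη hη1 x hm
  have hm0 : 0 ≤ m := (abs_nonneg _).trans (hm x (mem_ball_self hη))
  have hHi := int_src hH
  have hgx : Integrable (fun y => gK σ (x - y)) := hg.comp_sub_left x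
  have hpt : ∀ y, ‖x - y‖ ^ (-σ) * |H y| ≤ η ^ (-σ) * |H y| + m * gK σ (x - y) := by
    intro y
    rcases le_or_gt η ‖x - y‖ with h | h
    · have h1 : ‖x - y‖ ^ (-σ) ≤ η ^ (-σ) :=
        Real.rpow_le_rpow_of_nonpos hη h (by linarith)
      have h2 : ‖x - y‖ ^ (-σ) * |H y| ≤ η ^ (-σ) * |H y| := by gcongr
      have h3 := mul_nonneg hm0 (gK_nonneg σ (x - y))
      linarith
    · have h1 : |H y| ≤ m := hm y (by rw [mem_ball, dist_comm, dist_eq_norm]; exact h)
      have h2 : gK σ (x - y) = ‖x - y‖ ^ (-σ) := by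
        unfold gK
        rw [Set.indicator_of_mem]
        rw [mem_ball_zero_iff]
        linarith
      rw [h2]
      have h3 : ‖x - y‖ ^ (-σ) * |H y| ≤ m * ‖x - y‖ ^ (-σ) := by
        rw [mul_comm]
        gcongr
      have h4 : 0 ≤ η ^ (-σ) * |H y| := by positivity
      linarith
  have hdom : Integrable (fun y => η ^ (-σ) * |H y| + m * gK σ (x - y)) :=
    (hHi.const_mul _).add (hgx.const_mul _)
  have hint : Integrable (fun y => ‖x - y‖ ^ (-σ) * |H y|) := by
    refine hdom.mono' ?_ (Eventually.of_forall fun y => ?_)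
    · have := hH.1
      apply Measurable.aestronglyMeasurable
      apply Measurable.mul
      · exact (by fun_prop : Measurable fun y : E4 => ‖x - y‖).pow_const _
      · fun_prop
    · rw [Real.norm_eq_abs, abs_of_nonneg (by positivity)]
      exact hpt y
  refine ⟨hint, ?_⟩
  refine (integral_mono hint hdom hpt).trans ?_
  rw [integral_add (hHi.const_mul _) (hgx.const_mul _), integral_const_mul, integral_const_mul,
    integral_sub_left_eq_self (gK σ) volume x]
  nlinarith

end Pool.Agent.R207.MB
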