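import Pool.Agent.R207.MB.Main3

set_option autoImplicit false

open MeasureTheory Filter Topology Metric

noncomputable section

namespace Pool.Agent.R207.MB.Main

open Pool.Agent.R207.MB

namespace PC3

/-- bounded up to order three with Hoelder bound for the third derivative -/
def Gd (K : Set E4) (α C : ℝ) (f : E4 → ℝ) : Prop :=
  (∀ x ∈ K, ContDiffAt ℝ (⊤ : ℕ∞) f x) ∧ (∀ n : ℕ, n ≤ 3 → ∀ x ∈ K, ‖iteratedFDeriv ℝ n f x‖ ≤ C) ∧
  ∀ x ∈ K, ∀ y ∈ K, ‖iteratedFDeriv ℝ 3 f x - iteratedFDeriv ℝ 3 f y‖ ≤ C * ‖x - y‖ ^ α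

variable {K : Set E4} {α : ℝ}

theorem cda {f : E4 → ℝ} {x : E4} (h : ContDiffAt ℝ (⊤ : ℕ∞) f x) (n : ℕ) : ContDiffAt ℝ n f x :=
  h.of_le (by exact_mod_cast le_top)

theorem Gd.add {C1 C2 : ℝ} {f g : E4 → ℝ} (hf : Gd K α C1 f) (hg : Gd K α C2 g) :
    Gd K α (C1 + C2) (fun x => f x + g x) := by
  have e : ∀ n : ℕ, ∀ x ∈ K, iteratedFDeriv ℝ n (fun x => f x + g x) x =
      iteratedFDeriv ℝ n f x + iteratedFDeriv ℝ n g x := by
    intro n x hx
    exact iteratedFDeriv_add_apply (cda (hf.1 x hx) n) (cda (hg.1 x hx) n)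
  refine ⟨fun x hx => (hf.1 x hx).add (hg.1 x hx), ?_, ?_⟩
  · intro n hn x hx
    rw [e n x hx]
    exact (norm_add_le _ _).trans (add_le_add (hf.2.1 n hn x hx) (hg.2.1 n hn x hx))
  · intro x hx y hy
    rw [e 3 x hx, e 3 y hy, add_sub_add_comm, add_mul]
    exact (norm_add_le _ _).trans (add_le_add (hf.2.2 x hx y hy) (hg.2.2 x hx y hy))

theorem Gd.mul {C a : ℝ} {f : E4 → ℝ} (hf : Gd K α C f) : Gd K α (|a| * C) (fun x => a * f x) := by
  have e : ∀ n : ℕ, ∀ x ∈ K, iteratedFDeriv ℝ n (fun x => a * f x) x = a • iteratedFDeriv ℝ n f x := by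
    intro n x hx
    exact iteratedFDeriv_const_smul_apply (𝕜 := ℝ) (a := a) (f := f) (cda (hf.1 x hx) n)
  refine ⟨fun x hx => contDiffAt_const.mul (hf.1 x hx), ?_, ?_⟩
  · intro n hn x hx
    rw [e n x hx, norm_smul, Real.norm_eq_abs]
    exact mul_le_mul_of_nonneg_left (hf.2.1 n hn x hx) (abs_nonneg _)
  · intro x hx y hy
    rw [e 3 x hx, e 3 y hy, ← smul_sub, norm_smul, Real.norm_eq_abs, mul_assoc]
    exact mul_le_mul_of_nonneg_left (hf.2.2 x hx y hy) (abs_nonneg _)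

theorem Gd.const (a : ℝ) : Gd K α |a| (fun _ => a) := by
  refine ⟨fun x _ => contDiffAt_const, ?_, ?_⟩
  · intro n _ x _
    rcases Nat.eq_zero_or_pos n with h | h
    · subst h; rw [norm_iteratedFDeriv_zero, Real.norm_eq_abs]
    · rw [iteratedFDeriv_const_of_ne (by omega)]
      simp
  · intro x _ y _
    rw [iteratedFDeriv_const_of_ne (by norm_num)]
    simp only [Pi.zero_apply, sub_self, norm_zero]
    positivity

theorem Gd.sum {ι : Type} (t : Finset ι) {f : ι → E4 → ℝ} {C : ι → ℝ} (h : ∀ i ∈ t, Gd K α (C i) (f i)) :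
    Gd K α (∑ i ∈ t, C i) (fun x => ∑ i ∈ t, f i x) := by
  classical
  induction t using Finset.induction_on with
  | empty =>
    simp only [Finset.sum_empty]
    have := Gd.const (K := K) (α := α) (0:ℝ)
    simpa using this
  | insert i t hi ih =>
    simp only [Finset.sum_insert hi]
    exact (h i (Finset.mem_insert_self _ _)).add (ih (fun j hj => h j (Finset.mem_insert_of_mem hj)))

theorem Gd.sub {C : ℝ} {f : E4 → ℝ} (p : E4) (hf : Gd ((fun z => z - p) '' K) α C f) :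
    Gd K α C (fun x => f (x - p)) := by
  have e : ∀ n : ℕ, ∀ x : E4, iteratedFDeriv ℝ n (fun x => f (x - p)) x = iteratedFDeriv ℝ n f (x - p) := by
    intro n x
    exact iteratedFDeriv_comp_sub n p x
  refine ⟨fun x hx => cd_sub (hf.1 _ ⟨x, hx, rfl⟩), ?_, ?_⟩
  · intro n hn x hx
    rw [e n x]
    exact hf.2.1 n hn _ ⟨x, hx, rfl⟩
  · intro x hx y hy
    rw [e 3 x, e 3 y]
    have := hf.2.2 _ ⟨x, hx, rfl⟩ _ ⟨y, hy, rfl⟩
    simpa using this

theorem Gd.mono {C1 C2 : ℝ} {f : E4 → ℝ} (hf : Gd K α C1 f) (h : C1 ≤ C2) : Gd K α C2 f := by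
  refine ⟨hf.1, fun n hn x hx => (hf.2.1 n hn x hx).trans h, fun x hx y hy => (hf.2.2 x hx y hy).trans ?_⟩
  exact mul_le_mul_of_nonneg_right h (by positivity)

theorem Gd.image_compact {K : Set E4} (hK : IsCompact K) (p : E4) : IsCompact ((fun z => z - p) '' K) :=
  hK.image (by fun_prop)

/-- kernels away from the origin -/
theorem Bgood (h1 : S_K1) (h2 : S_K2) (h3 : S_K3) (K : Set E4) (hK : IsCompact K) (h0 : (0 : E4) ∉ K) (α : ℝ)
    (hα0 : 0 ≤ α) (hα1 : α < 1) : ∃ C : ℝ, ∀ s : ℝ, 0 ≤ s → s ≤ 1 → Gd K α C (Bf s) := by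
  -- bounds for the norm
  have hbd : ∃ r R : ℝ, 0 < r ∧ r ≤ 1 ∧ ∀ z ∈ K, r ≤ ‖z‖ ∧ ‖z‖ ≤ R := by
    rcases K.eq_empty_or_nonempty with he | hne
    · exact ⟨1, 1, one_pos, le_refl _, fun z hz => by rw [he] at hz; exact absurd hz (Set.notMem_empty z)⟩
    · obtain ⟨z0, hz0, hmin⟩ := hK.exists_isMinOn hne (f := fun z => ‖z‖) (by fun_prop)
      obtain ⟨R, hR⟩ := hK.isBounded.exists_norm_le
      have hz0n : 0 < ‖z0‖ := norm_pos_iff.2 (fun h => h0 (h ▸ hz0))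
      refine ⟨min 1 ‖z0‖, R, lt_min one_pos hz0n, min_le_left _ _, fun z hz => ⟨?_, hR z hz⟩⟩
      exact (min_le_right _ _).trans (hmin hz)
  obtain ⟨r, R, hr0, hr1, hrR⟩ := hbd
  obtain ⟨M1, hM1, hb1⟩ := h1 1 (le_refl _)
  obtain ⟨M2, hM2, hb2⟩ := h1 2 (by norm_num)
  obtain ⟨M3, hM3, hb3⟩ := h1 3 (by norm_num)
  obtain ⟨C4, hC4, hb4⟩ := h2 α hα0 hα1.le
  set L : ℝ := |Real.log (r ^ 2)| + |Real.log (1 + R ^ 2)| with hL
  have hLn : 0 ≤ L := by positivity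
  have hr3 : 0 < r ^ 3 := by positivity
  have hra : 0 < r ^ (-(3 + α)) := Real.rpow_pos_of_pos hr0 _
  refine ⟨L + (M1 + M2 + M3) / r ^ 3 + C4 * (2 * r ^ (-(3 + α))), ?_⟩
  intro s hs0 hs1
  have hp1 : 0 < (M1 + M2 + M3) / r ^ 3 := by positivity
  have hp2 : 0 < C4 * (2 * r ^ (-(3 + α))) := by positivity
  have hpos : ∀ z ∈ K, 0 < s ^ 2 + ‖z‖ ^ 2 := fun z hz => by
    have := (hrR z hz).1
    have h4 : 0 < ‖z‖ := by linarith
    positivity
  have hsq : ∀ z ∈ K, r ≤ Real.sqrt (s ^ 2 + ‖z‖ ^ 2) := fun z hz => by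
    apply Real.le_sqrt_of_sq_le
    have := (hrR z hz).1
    nlinarith [sq_nonneg s]
  have hpw : ∀ n : ℕ, n ≤ 3 → r ^ 3 ≤ r ^ n := fun n hn => pow_le_pow_of_le_one hr0.le hr1 hn
  have hdiv : ∀ n : ℕ, n ≤ 3 → ∀ M : ℝ, 0 < M → ∀ z ∈ K, M / (Real.sqrt (s ^ 2 + ‖z‖ ^ 2)) ^ n ≤ M / r ^ 3 := by
    intro n hn M hM z hz
    apply div_le_div_of_nonneg_left hM.le hr3
    exact (hpw n hn).trans (pow_le_pow_left₀ hr0.le (hsq z hz) n)
  have hMle : ∀ M : ℝ, M ≤ M1 + M2 + M3 → M / r ^ 3 ≤ L + (M1 + M2 + M3) / r ^ 3 + C4 * (2 * r ^ (-(3 + α))) := by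
    intro M hM
    have : M / r ^ 3 ≤ (M1 + M2 + M3) / r ^ 3 := by gcongr
    linarith
  refine ⟨fun z hz => h3 s z (hpos z hz), ?_, ?_⟩
  · intro n hn z hz
    have hn4 : n = 0 ∨ n = 1 ∨ n = 2 ∨ n = 3 := by omega
    rcases hn4 with h | h | h | h
    · subst h
      rw [norm_iteratedFDeriv_zero, Real.norm_eq_abs]
      unfold Bf
      rw [abs_neg]
      have hz1 := (hrR z hz).1
      have hz2 := (hrR z hz).2
      have h5 : Real.log (r ^ 2) ≤ Real.log (s ^ 2 + ‖z‖ ^ 2) := by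
        apply Real.log_le_log (by positivity)
        nlinarith [sq_nonneg s]
      have h6 : Real.log (s ^ 2 + ‖z‖ ^ 2) ≤ Real.log (1 + R ^ 2) := by
        apply Real.log_le_log (hpos z hz)
        have : ‖z‖ ^ 2 ≤ R ^ 2 := by gcongr
        nlinarith
      have h7 := neg_abs_le (Real.log (r ^ 2))
      have h8 := le_abs_self (Real.log (1 + R ^ 2))
      have h9 := abs_nonneg (Real.log (r ^ 2))
      have h10 := abs_nonneg (Real.log (1 + R ^ 2))
      rw [abs_le]; constructor <;> linarith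
    · subst h
      exact ((hb1 s z (hpos z hz)).trans (hdiv 1 (by norm_num) M1 hM1 z hz)).trans (hMle M1 (by linarith))
    · subst h
      exact ((hb2 s z (hpos z hz)).trans (hdiv 2 (by norm_num) M2 hM2 z hz)).trans (hMle M2 (by linarith))
    · subst h
      exact ((hb3 s z (hpos z hz)).trans (hdiv 3 (by norm_num) M3 hM3 z hz)).trans (hMle M3 (by linarith))
  · intro z hz w hw
    have hz1 := (hrR z hz).1
    have hw1 := (hrR w hw).1
    have hz0 : z ≠ 0 := fun h => h0 (h ▸ hz)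
    have hw0 : w ≠ 0 := fun h => h0 (h ▸ hw)
    refine (hb4 s z w hz0 hw0).trans ?_
    have h5 : ‖z‖ ^ (-(3 + α)) ≤ r ^ (-(3 + α)) := Real.rpow_le_rpow_of_nonpos hr0 hz1 (by linarith)
    have h6 : ‖w‖ ^ (-(3 + α)) ≤ r ^ (-(3 + α)) := Real.rpow_le_rpow_of_nonpos hr0 hw1 (by linarith)
    have h7 : 0 ≤ ‖z - w‖ ^ α := by positivity
    calc C4 * ‖z - w‖ ^ α * (‖z‖ ^ (-(3 + α)) + ‖w‖ ^ (-(3 + α)))
        ≤ C4 * ‖z - w‖ ^ α * (2 * r ^ (-(3 + α))) := by
          apply mul_le_mul_of_nonneg_left _ (by positivity)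
          linarith
      _ = (C4 * (2 * r ^ (-(3 + α)))) * ‖z - w‖ ^ α := by ring
      _ ≤ _ := by
          apply mul_le_mul_of_nonneg_right _ h7
          linarith

end PC3

theorem t_C3 (h1 : S_K1) (h2 : S_K2) (h3 : S_K3) (hT : S_T1) (hD : S_DER) (hD0 : S_DER0) : S_C3 := by
  classical
  intro P c b δ ε h K hK hKs α hα0 hα1 e he
  -- kernel terms
  have hq : ∃ C : ℝ, PC3.Gd K α C (fun x => Bf 0 (x - q0)) := by
    obtain ⟨C, hC⟩ := PC3.Bgood h1 h2 h3 _ (PC3.Gd.image_compact hK q0) (by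
      rintro ⟨x, hx, hx2⟩
      have := norm_sub_q0 (hKs hx).1
      simp only at hx2
      rw [hx2, norm_zero] at this
      linarith) α hα0 hα1
    exact ⟨C, PC3.Gd.sub q0 (hC 0 (le_refl _) zero_le_one)⟩
  obtain ⟨Cq, hCq⟩ := hq
  have hBp : ∀ p ∈ P, ∃ C : ℝ, ∀ s : ℝ, 0 ≤ s → s ≤ 1 → PC3.Gd K α C (fun x => Bf s (x - p)) := by
    intro p hp
    obtain ⟨C, hC⟩ := PC3.Bgood h1 h2 h3 _ (PC3.Gd.image_compact hK p) (by
      rintro ⟨x, hx, hx2⟩
      simp only at hx2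
      have := sub_eq_zero.1 hx2
      exact (hKs hx).2.1 (this ▸ hp)) α hα0 hα1
    exact ⟨C, fun s hs0 hs1 => PC3.Gd.sub p (hC s hs0 hs1)⟩
  have hHp : ∀ p ∈ P, ∃ C : ℝ, ∀ᶠ k in atTop, PC3.Gd K α C (fun x => pot (δ k) (Hb (c (b k)) (b k)) (x - p)) := by
    intro p hp
    obtain ⟨C, hC, hev⟩ := hD c h.hc _ (PC3.Gd.image_compact hK p) (by
      rintro z ⟨x, hx, rfl⟩
      have hc0 : (x - p) 0 = x 0 + 1 := by simp [h.hP p hp]
      have hxx := hKs hx
      refine ⟨?_, ?_, ?_⟩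
      · simp only; rw [hc0]; linarith [hxx.1.1]
      · intro h5; simp only at h5
        exact hxx.2.1 ((sub_eq_zero.1 h5) ▸ hp)
      · simp only; rw [hc0]; intro h5; exact hxx.2.2 (by linarith)) α hα0 hα1
    refine ⟨C, ?_⟩
    filter_upwards [h.hb.eventually hev] with k hk
    apply PC3.Gd.sub p
    obtain ⟨g1, g2⟩ := hk _ (Or.inl rfl) (δ k) (h.hδ0 k) (h.hδ1 k)
    exact ⟨fun x _ => (hT (δ k) _ (h.hδ0 k) (h.hH k)).1.contDiffAt, g1, g2⟩
  have hFp : ∃ C : ℝ, ∀ᶠ k in atTop, PC3.Gd K α C (fun x => pot (δ k) (Fs (c (b k)) (b k) 1) (x - ps)) := by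
    obtain ⟨C, hC, hev⟩ := hD0 c h.hc _ (PC3.Gd.image_compact hK ps) (by
      rintro z ⟨x, hx, rfl⟩
      have hc0 : (x - ps) 0 = x 0 + 1 := by simp [ps]
      have hxx := hKs hx
      refine ⟨?_, ?_⟩
      · simp only; rw [hc0]; linarith [hxx.1.1]
      · simp only; rw [hc0]; intro h5; exact hxx.2.2 (by linarith)) α hα0 hα1
    refine ⟨C, ?_⟩
    filter_upwards [h.hb.eventually hev] with k hk
    apply PC3.Gd.sub ps
    obtain ⟨g1, g2⟩ := hk (δ k) (h.hδ0 k) (h.hδ1 k)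
    exact ⟨fun x _ => (hT (δ k) _ (h.hδ0 k) (h.hF k)).1.contDiffAt, g1, g2⟩
  obtain ⟨CF, hCF⟩ := hFp
  -- choose the constants
  have hex : ∀ p : E4, ∃ C : ℝ, p ∈ P → ∀ᶠ k in atTop, PC3.Gd K α C
      (fun x => Bf (ep (c (b k)) (b k)) (x - p) + pot (δ k) (Hb (c (b k)) (b k)) (x - p)) := by
    intro p
    by_cases hp : p ∈ P
    · obtain ⟨C1, hC1⟩ := hBp p hp
      obtain ⟨C2, hC2⟩ := hHp p hp
      refine ⟨C1 + C2, fun _ => ?_⟩
      filter_upwards [hC2] with k hk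
      have hep : ep (c (b k)) (b k) ≤ 1 := by
        apply ep_le_one
        have g1 := h.hb1 k
        have g2 : Real.sqrt (b k) ≤ b k := by
          rw [Real.sqrt_le_left (by linarith)]; nlinarith
        have g3 := h.hc1 k
        linarith
      exact (hC1 _ (ep_pos _ _).le hep).add hk
    · exact ⟨0, fun h => absurd h hp⟩
  choose Cp hCp using hex
  have hall : ∀ᶠ k in atTop, ∀ p ∈ P, PC3.Gd K α (Cp p)
      (fun x => Bf (ep (c (b k)) (b k)) (x - p) + pot (δ k) (Hb (c (b k)) (b k)) (x - p)) := by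
    rw [Filter.eventually_all_finset]
    intro p hp
    exact hCp p hp
  set Q : ℝ := |(-((P.card : ℝ) - 7 / 8))| * Cq + (∑ p ∈ P, Cp p + CF) with hQ
  -- the small factor
  have hlim : Tendsto (fun k => |1 / b k| * (|c (b k)| + Q)) atTop (𝓝 0) := by
    have g1 : Tendsto (fun k => 1 / Real.sqrt (b k) + |Q| / b k) atTop (𝓝 (0 + 0)) := by
      refine Tendsto.add ?_ (h.hb.const_div_atTop _)
      exact (Real.tendsto_sqrt_atTop.comp h.hb).const_div_atTop 1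
    rw [add_zero] at g1
    refine squeeze_zero_norm (fun k => ?_) g1
    have g2 := h.hb1 k
    have g3 := h.hc0 k
    have g4 := h.hc1 k
    have g5 : 0 < b k := by linarith
    have g6 : 0 < Real.sqrt (b k) := Real.sqrt_pos.2 g5
    have g7 : Real.sqrt (b k) * Real.sqrt (b k) = b k := Real.mul_self_sqrt g5.le
    rw [Real.norm_eq_abs, abs_mul, abs_abs, abs_of_pos (by positivity : 0 < 1 / b k)]
    have g8 : |(|c (b k)| + Q)| ≤ Real.sqrt (b k) + |Q| := by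
      refine (abs_add_le _ _).trans ?_
      rw [abs_abs, abs_of_nonneg g3]
      linarith
    calc 1 / b k * |(|c (b k)| + Q)| ≤ 1 / b k * (Real.sqrt (b k) + |Q|) := by gcongr
      _ = 1 / Real.sqrt (b k) + |Q| / b k := by
        rw [mul_add]
        congr 1
        · rw [div_mul_eq_mul_div, one_mul, div_eq_div_iff g5.ne' g6.ne', g7, one_mul]
        · ring
  have hsmall := hlim.eventually (gt_mem_nhds he)
  filter_upwards [hall, hCF, hsmall] with k k1 k2 k3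
  have hG : PC3.Gd K α (|1 / b k| * (|c (b k)| + Q)) (fun x => (1 / b k) * (c (b k) +
      ((-((P.card : ℝ) - 7 / 8)) * Bf 0 (x - q0) +
        ((∑ p ∈ P, (Bf (ep (c (b k)) (b k)) (x - p) + pot (δ k) (Hb (c (b k)) (b k)) (x - p))) +
          pot (δ k) (Fs (c (b k)) (b k) 1) (x - ps))))) :=
    PC3.Gd.mul ((PC3.Gd.const (c (b k))).add (hCq.mul.add ((PC3.Gd.sum P k1).add k2)))
  have hG2 := hG.mono k3.le
  have hb0 : b k ≠ 0 := by have := h.hb1 k; positivity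
  have heq : (fun z => uu P (c (b k)) (b k) (δ k) z / b k) = fun x => phi x + (1 / b k) * (c (b k) +
      ((-((P.card : ℝ) - 7 / 8)) * Bf 0 (x - q0) +
        ((∑ p ∈ P, (Bf (ep (c (b k)) (b k)) (x - p) + pot (δ k) (Hb (c (b k)) (b k)) (x - p))) +
          pot (δ k) (Fs (c (b k)) (b k) 1) (x - ps)))) := by
    funext x
    unfold uu
    field_simp
    ring
  have hder : ∀ n : ℕ, ∀ x ∈ K, iteratedFDeriv ℝ n (fun z => uu P (c (b k)) (b k) (δ k) z / b k) x -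
      iteratedFDeriv ℝ n phi x = iteratedFDeriv ℝ n (fun x => (1 / b k) * (c (b k) +
      ((-((P.card : ℝ) - 7 / 8)) * Bf 0 (x - q0) +
        ((∑ p ∈ P, (Bf (ep (c (b k)) (b k)) (x - p) + pot (δ k) (Hb (c (b k)) (b k)) (x - p))) +
          pot (δ k) (Fs (c (b k)) (b k) 1) (x - ps))))) x := by
    intro n x hx
    rw [heq, sub_eq_iff_eq_add']
    exact iteratedFDeriv_add_apply (PC3.cda phi_smooth.contDiffAt n) (PC3.cda (hG2.1 x hx) n)
  refine ⟨?_, ?_⟩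
  · intro n hn x hx
    rw [hder n x hx]
    exact hG2.2.1 n hn x hx
  · intro x hx y hy
    rw [hder 3 x hx, hder 3 y hy]
    exact hG2.2.2 x hx y hy

end Pool.Agent.R207.MB.Main
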