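import Pool.Agent.R207.MB.Main3

set_option autoImplicit false

open MeasureTheory Filter Topology Metric

noncomputable section

namespace Pool.Agent.R207.MB.Main

open Pool.Agent.R207.MB

namespace PDAT

theorem om_cont : Continuous om := by unfold om qf; fun_prop

theorem Fs_contOn (c β : ℝ) {s : ℝ} (hs : 0 < s) : ContinuousOn (Fs c β s) {z : E4 | -1 < z 0} := by
  have h1 : Continuous (fun z : E4 => Real.exp (-(4 * β * om (z 0))) * (6 * Real.exp (4 * c)) / (s ^ 2 + ‖z‖ ^ 2) ^ 4) := by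
    have h2 : Continuous (fun z : E4 => om (z 0)) := om_cont.comp (by fun_prop)
    apply Continuous.div (by fun_prop) (by fun_prop)
    intro z
    have := sq_add_pos hs z
    positivity
  refine h1.continuousOn.congr ?_
  intro z hz
  have hz' : -1 ≤ z 0 := le_of_lt hz
  unfold Fs; rw [if_pos hz']

theorem hs_cont {s : ℝ} (h : 0 < s) : Continuous (hs s) := by
  unfold hs
  apply Continuous.div continuous_const (by fun_prop)
  intro z
  have := sq_add_pos h z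
  positivity

theorem Hb_contOn (c β : ℝ) : ContinuousOn (Hb c β) {z : E4 | -1 < z 0} := by
  unfold Hb
  exact (Fs_contOn c β (ep_pos c β)).sub (hs_cont (ep_pos c β)).continuousOn

theorem pick1 (h6 : S_P6) (H : E4 → ℝ) (hH : Src H) (hcont : ContinuousOn H {z : E4 | -1 < z 0}) (β : ℝ) (hβ : 1 ≤ β)
    (e : ℝ) (he : 0 < e) : ∀ᶠ δ in 𝓝[>] (0:ℝ), ∀ z : E4, -1 + 1 / β ≤ z 0 → ‖z‖ ≤ β → |mol δ H z - H z| ≤ e := by
  have hU : IsOpen {z : E4 | -1 < z 0} := by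
    have h1 : Continuous (fun x : E4 => x 0) := by fun_prop
    exact isOpen_lt continuous_const h1
  have h := h6 H hH _ hU hcont
  rw [tendstoLocallyUniformlyOn_iff_forall_isCompact hU] at h
  set K : Set E4 := {z | -1 + 1 / β ≤ z 0 ∧ ‖z‖ ≤ β} with hK
  have hβ0 : 0 < 1 / β := by positivity
  have hKU : K ⊆ {z : E4 | -1 < z 0} := fun z hz => by
    have := hz.1
    show -1 < z 0
    linarith
  have hKc : IsCompact K := by
    have h1 : IsClosed K := by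
      have h1 : Continuous (fun x : E4 => x 0) := by fun_prop
      exact (isClosed_le continuous_const h1).inter (isClosed_le continuous_norm continuous_const)
    refine (isCompact_closedBall (0 : E4) β).of_isClosed_subset h1 ?_
    intro z hz; simpa using hz.2
  have h2 := h K hKU hKc
  rw [Metric.tendstoUniformlyOn_iff] at h2
  filter_upwards [h2 e he] with δ hδ z hz1 hz2
  have := hδ z ⟨hz1, hz2⟩
  rw [dist_comm, Real.dist_eq] at this
  exact this.le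

theorem pick (h6 : S_P6) (c β : ℝ) (hβ : 1 ≤ β) (hH : Src (Hb c β)) (hF : Src (Fs c β 1)) :
    ∃ δ : ℝ, 0 < δ ∧ δ ≤ 1 ∧ (∀ z : E4, -1 + 1 / β ≤ z 0 → ‖z‖ ≤ β → |mol δ (Hb c β) z - Hb c β z| ≤ Real.exp (-(10 * β))) ∧
    (∀ z : E4, -1 + 1 / β ≤ z 0 → ‖z‖ ≤ β → |mol δ (Fs c β 1) z - Fs c β 1 z| ≤ Real.exp (-(10 * β))) := by
  have h1 := pick1 h6 _ hH (Hb_contOn c β) β hβ _ (Real.exp_pos (-(10 * β)))
  have h2 := pick1 h6 _ hF (Fs_contOn c β one_pos) β hβ _ (Real.exp_pos (-(10 * β)))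
  have h3 : ∀ᶠ δ in 𝓝[>] (0:ℝ), δ ∈ Set.Ioo (0:ℝ) 1 := Ioo_mem_nhdsGT one_pos
  obtain ⟨δ, a1, a2, a3⟩ := (h1.and (h2.and h3)).exists
  exact ⟨δ, a3.1, a3.2.le, a1, a2⟩

theorem ww_le (P : Finset E4) (c β δ e : ℝ) (he : 0 ≤ e)
    (h1 : e * (8 * ((P.card : ℝ) + 1 + ∑ p ∈ P, Ct p + Ct ps)) ≤ 1)
    (hH : ∀ x : E4, |pot δ (Hb c β) x| ≤ e * (1 + lam x)) (hF : ∀ x : E4, |pot δ (Fs c β 1) x| ≤ e * (1 + lam x)) (x : E4) :
    |ww P c β δ x| ≤ 1 + lam x / 8 := by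
  unfold ww
  have a1 : |∑ p ∈ P, pot δ (Hb c β) (x - p)| ≤ ∑ p ∈ P, e * (1 + lam x + Ct p) := by
    refine (Finset.abs_sum_le_sum_abs _ _).trans (Finset.sum_le_sum fun p _ => ?_)
    refine (hH (x - p)).trans ?_
    have := lam_sub_le x p
    exact mul_le_mul_of_nonneg_left (by linarith) he
  have a2 : |pot δ (Fs c β 1) (x - ps)| ≤ e * (1 + lam x + Ct ps) := by
    refine (hF (x - ps)).trans ?_
    have := lam_sub_le x ps
    exact mul_le_mul_of_nonneg_left (by linarith) he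
  have a3 : ∑ p ∈ P, e * (1 + lam x + Ct p) = e * ((P.card : ℝ) * (1 + lam x) + ∑ p ∈ P, Ct p) := by
    rw [← Finset.mul_sum, Finset.sum_add_distrib]; simp only [Finset.sum_const, nsmul_eq_mul]
  have a4 := abs_add_le (∑ p ∈ P, pot δ (Hb c β) (x - p)) (pot δ (Fs c β 1) (x - ps))
  have hS : 0 ≤ ∑ p ∈ P, Ct p := Finset.sum_nonneg fun p _ => Ct_nonneg p
  have hps := Ct_nonneg ps
  have hl := lam_nonneg x
  have hN : (0:ℝ) ≤ P.card := Nat.cast_nonneg _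
  have b1 : e * ((P.card : ℝ) + 1) ≤ 1 / 8 := by nlinarith [mul_nonneg he hS, mul_nonneg he hps]
  have b2 : e * ((P.card : ℝ) + 1 + ∑ p ∈ P, Ct p + Ct ps) ≤ 1 / 8 := by linarith
  have b3 : e * ((P.card : ℝ) + 1) * lam x ≤ 1 / 8 * lam x := mul_le_mul_of_nonneg_right b1 hl
  calc _ ≤ e * ((P.card : ℝ) * (1 + lam x) + ∑ p ∈ P, Ct p) + e * (1 + lam x + Ct ps) := by linarith
    _ = e * ((P.card : ℝ) + 1 + ∑ p ∈ P, Ct p + Ct ps) + e * ((P.card : ℝ) + 1) * lam x := by ring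
    _ ≤ _ := by linarith

end PDAT

open PDAT in
theorem t_DAT (hC : S_C) (hE : S_EST) (h6 : S_P6) : S_DAT := by
  intro P hP
  obtain ⟨c, hc⟩ := hC
  obtain ⟨ε0, hε0, hev⟩ := hE c hc
  set Q : ℝ := (P.card : ℝ) + 1 + ∑ p ∈ P, Ct p + Ct ps with hQ
  have hS : 0 ≤ ∑ p ∈ P, Ct p := Finset.sum_nonneg fun p _ => Ct_nonneg p
  have hps := Ct_nonneg ps
  have hN : (0:ℝ) ≤ P.card := Nat.cast_nonneg _
  have hQ1 : 1 ≤ Q := by rw [hQ]; linarith
  have hsm : ∀ᶠ β in atTop, ε0 β * (8 * Q) < 1 := by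
    have h1 : Tendsto (fun β => ε0 β * (8 * Q)) atTop (𝓝 (0 * (8 * Q))) := hε0.mul_const _
    rw [zero_mul] at h1
    exact h1.eventually_lt_const one_pos
  have hall := (hc.2.and (hev.and (hsm.and (eventually_ge_atTop (1:ℝ)))))
  obtain ⟨B, hB⟩ := eventually_atTop.1 hall
  set b : ℕ → ℝ := fun k => B + k with hb
  have hbB : ∀ k, B ≤ b k := fun k => by
    have : (0:ℝ) ≤ (k:ℝ) := Nat.cast_nonneg k
    simp only [hb]; linarith
  have hfact := fun k => hB (b k) (hbB k)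
  have hpick : ∀ k, ∃ δ : ℝ, 0 < δ ∧ δ ≤ 1 ∧
      (∀ z : E4, -1 + 1 / b k ≤ z 0 → ‖z‖ ≤ b k → |mol δ (Hb (c (b k)) (b k)) z - Hb (c (b k)) (b k) z| ≤ Real.exp (-(10 * b k))) ∧
      (∀ z : E4, -1 + 1 / b k ≤ z 0 → ‖z‖ ≤ b k → |mol δ (Fs (c (b k)) (b k) 1) z - Fs (c (b k)) (b k) 1 z| ≤ Real.exp (-(10 * b k))) :=
    fun k => pick h6 (c (b k)) (b k) (hfact k).2.2.2 ((hfact k).2.1 _ (Or.inl rfl)).1 ((hfact k).2.1 _ (Or.inr rfl)).1
  choose δ hδ0 hδ1 hδH hδF using hpick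
  have htb : Tendsto b atTop atTop := tendsto_atTop_add_const_left _ _ tendsto_natCast_atTop_atTop
  have hen : ∀ k, 0 ≤ ε0 (b k) := fun k =>
    (integral_nonneg (fun _ => abs_nonneg _)).trans ((hfact k).2.1 _ (Or.inl rfl)).2.1
  refine ⟨c, b, δ, fun k => ε0 (b k), ⟨hP, hc, htb, fun k => (hfact k).2.2.2, fun k => (hfact k).1.1, fun k => (hfact k).1.2.1,
    fun k => (hfact k).1.2.2, hδ0, hδ1, hε0.comp htb, ?_, fun k => ((hfact k).2.1 _ (Or.inl rfl)).1,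
    fun k => ((hfact k).2.1 _ (Or.inr rfl)).1, fun k => ((hfact k).2.1 _ (Or.inl rfl)).2.1,
    fun k => ((hfact k).2.1 _ (Or.inr rfl)).2.1, fun k x => ((hfact k).2.1 _ (Or.inl rfl)).2.2 _ (hδ0 k) (hδ1 k) x,
    fun k x => ((hfact k).2.1 _ (Or.inr rfl)).2.2 _ (hδ0 k) (hδ1 k) x, ?_, hδH, hδF⟩⟩
  · intro k
    have h1 := (hfact k).2.2.1
    have h2 := hen k
    nlinarith
  · intro k x
    exact ww_le P _ _ _ (ε0 (b k)) (hen k) (hfact k).2.2.1.le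
      (fun x => ((hfact k).2.1 _ (Or.inl rfl)).2.2 _ (hδ0 k) (hδ1 k) x)
      (fun x => ((hfact k).2.1 _ (Or.inr rfl)).2.2 _ (hδ0 k) (hδ1 k) x) x

end Pool.Agent.R207.MB.Main
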