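import Pool.Agent.R207.MB.Main3
import Pool.Agent.R207.MB.LOC
import Pool.Agent.R207.MB.DER

set_option autoImplicit false

open MeasureTheory Filter Topology Metric

noncomputable section

namespace Pool.Agent.R207.MB.Main

open Pool.Agent.R207.MB

namespace PDER0

theorem loc0 (c : ℝ → ℝ) (hc : CGood c) (K : Set E4) (hK : IsCompact K)
    (hKs : K ⊆ {z : E4 | -1 < z 0 ∧ z 0 ≠ 2}) :
    ∀ᶠ β in atTop, ∀ z ∈ K, |Fs (c β) β 1 z| ≤ 1 := by
  obtain ⟨w, hw, hw3, hwK⟩ := LOC.om_lb K hK (fun z hz => ⟨(hKs hz).1, (hKs hz).2⟩)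
  have hlim : Tendsto (fun β : ℝ => 6 * Real.exp (-(2 * w * β))) atTop (𝓝 0) := by
    have h1 : Tendsto (fun β : ℝ => Real.exp (-(2 * w * β))) atTop (𝓝 0) := by
      apply Real.tendsto_exp_neg_atTop_nhds_zero.comp
      exact tendsto_id.const_mul_atTop (by positivity)
    have h2 := (h1.const_mul 6)
    simpa using h2
  have hsq : Tendsto (fun β : ℝ => Real.sqrt β) atTop atTop := Real.tendsto_sqrt_atTop
  filter_upwards [hc.2, hlim.eventually_lt_const one_pos, eventually_ge_atTop (0 : ℝ),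
    hsq.eventually_ge_atTop (2 / w)] with β h1 h2 h3 h4
  intro z hz
  obtain ⟨hc0, hc1, -⟩ := h1
  have hzw := hwK z hz
  have hz0 := (hKs hz).1
  have hexp : Real.exp (4 * c β - 4 * β * w) ≤ Real.exp (-(2 * w * β)) := by
    apply Real.exp_le_exp.2
    have h5 : 2 ≤ w * Real.sqrt β := by
      rw [div_le_iff₀ hw] at h4
      linarith
    have h6 : 2 * Real.sqrt β ≤ w * β := by
      calc 2 * Real.sqrt β ≤ (w * Real.sqrt β) * Real.sqrt β :=
            mul_le_mul_of_nonneg_right h5 (Real.sqrt_nonneg _)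
        _ = w * β := by rw [mul_assoc, Real.mul_self_sqrt h3]
    nlinarith
  have hn : 0 ≤ Fs (c β) β 1 z := by
    unfold Fs; rw [if_pos hz0.le]; positivity
  have hb : Fs (c β) β 1 z ≤ 6 * Real.exp (4 * c β - 4 * β * w) := by
    unfold Fs; rw [if_pos hz0.le]
    have h2 : Real.exp (-(4 * β * om (z 0))) * (6 * Real.exp (4 * c β))
        = 6 * Real.exp (4 * c β - 4 * β * om (z 0)) := by
      rw [sub_eq_add_neg, Real.exp_add]; ring
    rw [h2]
    have h3 : 4 * c β - 4 * β * om (z 0) ≤ 4 * c β - 4 * β * w := by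
      have := mul_le_mul_of_nonneg_left hzw h3
      nlinarith
    have h5 := Real.exp_le_exp.2 h3
    have h6 : (1 : ℝ) ≤ (1 ^ 2 + ‖z‖ ^ 2) ^ 4 := one_le_pow₀ (by nlinarith [sq_nonneg ‖z‖])
    calc 6 * Real.exp (4 * c β - 4 * β * om (z 0)) / (1 ^ 2 + ‖z‖ ^ 2) ^ 4
        ≤ 6 * Real.exp (4 * c β - 4 * β * om (z 0)) := div_le_self (by positivity) h6
      _ ≤ _ := by linarith
  rw [abs_of_nonneg hn]
  linarith

end PDER0

theorem t_DER0 (h1 : S_K1) (h2 : S_K2) (h3 : S_K3) (hT : S_T1) (hP : S_POT1) (hE : S_EST) : S_DER0 := by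
  intro c hc K hK hKU α hα hα1
  have hU : IsOpen {z : E4 | -1 < z 0 ∧ z 0 ≠ 2} := by
    have hcont : Continuous fun z : E4 => z 0 := by fun_prop
    exact (isOpen_lt continuous_const hcont).inter (isOpen_ne_fun hcont continuous_const)
  obtain ⟨δ, hδ, hδU⟩ := hK.exists_cthickening_subset_open hU hKU
  set η := min δ 1 with hη
  have hη0 : 0 < η := lt_min hδ one_pos
  have hη1 : η ≤ 1 := min_le_right _ _
  have hK'U : cthickening η K ⊆ {z : E4 | -1 < z 0 ∧ z 0 ≠ 2} :=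
    (cthickening_mono (min_le_left _ _) K).trans hδU
  have hK' : IsCompact (cthickening η K) := hK.cthickening
  have hball : ∀ x ∈ K, ball x η ⊆ cthickening η K := fun x hx =>
    ball_subset_closedBall.trans (closedBall_subset_cthickening hx η)
  obtain ⟨R, hR⟩ := hK.isBounded.exists_norm_le
  obtain ⟨C1, hC1, hd1⟩ := DER.der_le h1 h3 hT hP 1 le_rfl (by norm_num) η hη0 hη1
  obtain ⟨C2, hC2, hd2⟩ := DER.der_le h1 h3 hT hP 2 (by norm_num) (by norm_num) η hη0 hη1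
  obtain ⟨C3, hC3, hd3⟩ := DER.der_le h1 h3 hT hP 3 (by norm_num) le_rfl η hη0 hη1
  obtain ⟨C4, hC4, hd4⟩ := DER.hold_le h2 h3 hT hP α hα hα1 η hη0 hη1
  obtain ⟨ε, hε, hev⟩ := hE c hc
  have hloc := PDER0.loc0 c hc _ hK' hK'U
  have hε1 : ∀ᶠ β in atTop, ε β < 1 := hε.eventually_lt_const one_pos
  have hA : 0 ≤ Real.log (1 + R ^ 2) := Real.log_nonneg (by nlinarith [sq_nonneg R])
  refine ⟨1 + Real.log (1 + R ^ 2) + C1 + C2 + C3 + C4, by positivity, ?_⟩
  filter_upwards [hev, hloc, hε1] with β hβ hβl hβε s hs hs1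
  obtain ⟨hSrc, hint, hpot⟩ := hβ _ (Or.inr rfl)
  have hint1 : (∫ y, |Fs (c β) β 1 y|) ≤ 1 := hint.trans hβε.le
  have hb : ∀ x ∈ K, ∀ y ∈ ball x η, |Fs (c β) β 1 y| ≤ 1 := fun x hx y hy => hβl y (hball x hx hy)
  constructor
  · intro n hn x hx
    have h0 : ‖iteratedFDeriv ℝ 0 (pot s (Fs (c β) β 1)) x‖ ≤ 1 + Real.log (1 + R ^ 2) := by
      rw [norm_iteratedFDeriv_zero, Real.norm_eq_abs]
      have h4 := hpot s hs hs1 x
      have h5 : Real.log (1 + ‖x‖ ^ 2) ≤ Real.log (1 + R ^ 2) := by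
        apply Real.log_le_log (by positivity)
        have := hR x hx
        nlinarith [norm_nonneg x]
      have h6 : 0 ≤ Real.log (1 + ‖x‖ ^ 2) := Real.log_nonneg (by nlinarith [sq_nonneg ‖x‖])
      calc |pot s (Fs (c β) β 1) x| ≤ ε β * (1 + Real.log (1 + ‖x‖ ^ 2)) := h4
        _ ≤ 1 * (1 + Real.log (1 + ‖x‖ ^ 2)) := mul_le_mul_of_nonneg_right hβε.le (by positivity)
        _ ≤ 1 + Real.log (1 + R ^ 2) := by linarith
    have h1' := hd1 _ hSrc hint1 s hs x (hb x hx)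
    have h2' := hd2 _ hSrc hint1 s hs x (hb x hx)
    have h3' := hd3 _ hSrc hint1 s hs x (hb x hx)
    interval_cases n
    · linarith
    · linarith
    · linarith
    · linarith
  · intro x hx y hy
    have h4' := hd4 _ hSrc hint1 s hs x y (hb x hx) (hb y hy)
    have h5' : 0 ≤ ‖x - y‖ ^ α := by positivity
    refine h4'.trans (mul_le_mul_of_nonneg_right ?_ h5')
    linarith

end Pool.Agent.R207.MB.Main
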