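import Pool.Agent.R207.MB.Main3

/-! Piece INT of project MB (helper91): bounded volume. -/

set_option autoImplicit false

open MeasureTheory Filter Topology Metric

noncomputable section

namespace Pool.Agent.R207.MB.Main

open Pool.Agent.R207.MB

namespace PINT

/-- the integrand of `Jf` -/
def J1 (β : ℝ) (z : E4) : ℝ :=
  (if -1 ≤ z 0 then Real.exp (-(4 * β * om (z 0))) else 0) / (1 + ‖z‖ ^ 2) ^ 3

theorem J1_nonneg (β : ℝ) (z : E4) : 0 ≤ J1 β z := by
  unfold J1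
  split_ifs <;> positivity

theorem J1_eq {β : ℝ} {x : E4} (hx : x ∈ Om) :
    Real.exp (4 * β * phi x) / (1 + ‖x - ps‖ ^ 2) ^ 3 = J1 β (x - ps) := by
  have h : (x - ps) 0 = x 0 + 1 := by simp [ps]
  have h1 : -1 ≤ (x - ps) 0 := by rw [h]; linarith [hx.1]
  unfold J1
  rw [if_pos h1, phi_eq x ps ps_zero]
  congr 2
  ring

theorem Fs_nonneg (c β s : ℝ) (z : E4) : 0 ≤ Fs c β s z := by
  unfold Fs
  split_ifs <;> positivity

theorem src_int (hM : S_MASS) {H : E4 → ℝ} (h : Src H) : Integrable H := by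
  obtain ⟨hm, M, hb⟩ := h
  have h1 : Integrable (fun y : E4 => M / 96 * hs 1 y) := (hM 1 one_pos).1.const_mul _
  refine h1.mono' hm.aestronglyMeasurable (ae_of_all _ fun y => ?_)
  rw [Real.norm_eq_abs]
  refine (hb y).trans (le_of_eq ?_)
  unfold hs
  have : (1 : ℝ) ^ 2 + ‖y‖ ^ 2 = 1 + ‖y‖ ^ 2 := by ring
  rw [this]
  field_simp

theorem uu_cont (h3 : S_K3) (hT : S_T1) (P : Finset E4) {c β δ : ℝ} (hδ : 0 < δ) (hH : Src (Hb c β))
    (hF : Src (Fs c β 1)) {x : E4} (hx : x ∈ Om) : ContDiffAt ℝ (⊤ : ℕ∞) (uu P c β δ) x := by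
  have s1 : ContDiffAt ℝ (⊤ : ℕ∞) (fun y => β * phi y) x := contDiffAt_const.mul phi_smooth.contDiffAt
  have s2 : ContDiffAt ℝ (⊤ : ℕ∞) (fun _ : E4 => c) x := contDiffAt_const
  have s3 : ContDiffAt ℝ (⊤ : ℕ∞) (fun y => (-((P.card : ℝ) - 7 / 8)) * Bf 0 (y - q0)) x :=
    contDiffAt_const.mul (Bf0_smooth h3 hx)
  have s4 : ∀ p ∈ P, ContDiffAt ℝ (⊤ : ℕ∞) (fun y => Bf (ep c β) (y - p)) x := fun p _ =>
    cd_sub (Bf_smooth h3 (ep_pos c β) (x - p))
  have s5 : ∀ p ∈ P, ContDiffAt ℝ (⊤ : ℕ∞) (fun y => pot δ (Hb c β) (y - p)) x := fun p _ =>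
    cd_sub ((hT δ _ hδ hH).1.contDiffAt (x := x - p))
  have s6 : ContDiffAt ℝ (⊤ : ℕ∞) (fun y => pot δ (Fs c β 1) (y - ps)) x :=
    cd_sub ((hT δ _ hδ hF).1.contDiffAt (x := x - ps))
  have s7 : ∀ p ∈ P, ContDiffAt ℝ (⊤ : ℕ∞) (fun y => Bf (ep c β) (y - p) + pot δ (Hb c β) (y - p)) x :=
    fun p hp => (s4 p hp).add (s5 p hp)
  have s8 : ContDiffAt ℝ (⊤ : ℕ∞)
      (fun y => ∑ p ∈ P, (Bf (ep c β) (y - p) + pot δ (Hb c β) (y - p))) x := ContDiffAt.sum s7
  exact ((s1.add s2).add s3).add (s8.add s6)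

end PINT

open PINT in
theorem t_INT (hM : S_MASS) (hJ : S_J) (hT : S_T1) (h3 : S_K3) : S_INT := by
  intro P c b δ ε D
  obtain ⟨C0, hC0, hle⟩ := exp_uu_le P D.hP
  refine ⟨C0 * (1 + P.card * (1 + 16 * Real.pi ^ 2)), fun k => ?_⟩
  set β := b k with hβ
  set cc := c β with hcc
  have hβ0 : 0 ≤ β := zero_le_one.trans (D.hb1 k)
  have hFs_int : Integrable (Fs cc β (ep cc β)) := by
    have h1 := (src_int hM (D.hH k)).add (hM (ep cc β) (ep_pos cc β)).1
    refine h1.congr (ae_of_all _ fun z => ?_)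
    simp only [Pi.add_apply, Hb]
    ring
  have hFs_le : ∫ z, Fs cc β (ep cc β) z ≤ 1 + 16 * Real.pi ^ 2 := by
    have h1 : ∫ z, Fs cc β (ep cc β) z = (∫ z, Hb cc β z) + ∫ z, hs (ep cc β) z := by
      rw [← integral_add (src_int hM (D.hH k)) (hM (ep cc β) (ep_pos cc β)).1]
      refine integral_congr_ae (ae_of_all _ fun z => ?_)
      simp only [Hb]
      ring
    rw [h1, (hM (ep cc β) (ep_pos cc β)).2]
    have h2 : ∫ z, Hb cc β z ≤ ∫ z, |Hb cc β z| :=
      integral_mono (src_int hM (D.hH k)) (src_int hM (D.hH k)).abs fun z => le_abs_self _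
    have h4 := D.hHL k
    have h5 := D.hε1 k
    linarith
  have hJ1_int : Integrable (J1 β) := hJ.2.2 β hβ0
  set G : E4 → ℝ := fun x => C0 * (Real.exp (4 * cc) * J1 β (x - ps) + ∑ p ∈ P, Fs cc β (ep cc β) (x - p))
    with hG
  have i1 : Integrable (fun x : E4 => Real.exp (4 * cc) * J1 β (x - ps)) :=
    (hJ1_int.comp_sub_right ps).const_mul _
  have i2 : ∀ p ∈ P, Integrable (fun x : E4 => Fs cc β (ep cc β) (x - p)) := fun p _ =>
    hFs_int.comp_sub_right p
  have i3 : Integrable (fun x : E4 => ∑ p ∈ P, Fs cc β (ep cc β) (x - p)) := integrable_finsetSum _ i2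
  have hGint : Integrable G := (i1.add i3).const_mul C0
  have hGnn : ∀ x, 0 ≤ G x := fun x =>
    mul_nonneg hC0.le (add_nonneg (mul_nonneg (Real.exp_pos _).le (J1_nonneg _ _))
      (Finset.sum_nonneg fun p _ => Fs_nonneg _ _ _ _))
  have hbd : ∀ x ∈ Om, Real.exp (4 * uu P cc β (δ k) x) ≤ G x := by
    intro x hx
    have h1 := hle cc β (δ k) (D.hw k) x hx
    rw [J1_eq hx] at h1
    exact h1
  have hmeas : MeasurableSet Om := isOpen_Om.measurableSet
  have hcont : ContinuousOn (fun x => Real.exp (4 * uu P cc β (δ k) x)) Om := by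
    intro x hx
    have h1 : ContinuousAt (uu P cc β (δ k)) x :=
      (uu_cont h3 hT P (D.hδ0 k) (D.hH k) (D.hF k) hx).continuousAt
    exact (Real.continuous_exp.continuousAt.comp (continuousAt_const.mul h1)).continuousWithinAt
  have hInt : IntegrableOn (fun x => Real.exp (4 * uu P cc β (δ k) x)) Om := by
    refine Integrable.mono' hGint.integrableOn (hcont.aestronglyMeasurable hmeas) ?_
    refine (ae_restrict_iff' hmeas).2 (ae_of_all _ fun x hx => ?_)
    rw [Real.norm_eq_abs, abs_of_pos (Real.exp_pos _)]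
    exact hbd x hx
  refine ⟨hInt, ?_⟩
  calc ∫ x in Om, Real.exp (4 * uu P cc β (δ k) x) ≤ ∫ x in Om, G x :=
        setIntegral_mono_on hInt hGint.integrableOn hmeas hbd
    _ ≤ ∫ x, G x := setIntegral_le_integral hGint (ae_of_all _ hGnn)
    _ = C0 * (Real.exp (4 * cc) * Jf β + ∑ p ∈ P, ∫ x, Fs cc β (ep cc β) x) := by
        rw [hG, integral_const_mul, integral_add i1 i3, integral_const_mul, integral_finsetSum _ i2,
          integral_sub_right_eq_self (J1 β) ps]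
        congr 2
        refine Finset.sum_congr rfl fun p _ => ?_
        rw [integral_sub_right_eq_self (Fs cc β (ep cc β)) p]
    _ ≤ C0 * (1 + P.card * (1 + 16 * Real.pi ^ 2)) := by
        have h1 : Real.exp (4 * cc) * Jf β ≤ 1 := by
          have h4 : 0 ≤ Jf β := (hJ.2.1 β hβ0).le
          have h5 : Real.exp (4 * cc) ≤ Real.exp (5 * cc) :=
            Real.exp_le_exp.2 (by have := D.hc0 k; linarith)
          exact (mul_le_mul_of_nonneg_right h5 h4).trans (D.hc2 k)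
        have h2 : ∑ p ∈ P, ∫ x, Fs cc β (ep cc β) x ≤ P.card * (1 + 16 * Real.pi ^ 2) := by
          rw [Finset.sum_const, nsmul_eq_mul]
          exact mul_le_mul_of_nonneg_left hFs_le (Nat.cast_nonneg _)
        exact mul_le_mul_of_nonneg_left (add_le_add h1 h2) hC0.le

end Pool.Agent.R207.MB.Main
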