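import Pool.Agent.R207.MB.Main3

/-!
# MB2-LM (helper564): local masses
-/

set_option autoImplicit false

open MeasureTheory Filter Topology Metric

noncomputable section

namespace Pool.Agent.R207.MB.Main

open Pool.Agent.R207.MB

namespace PLM

theorem hs_nonneg (s : ℝ) (z : E4) : 0 ≤ hs s z := by
  unfold hs
  positivity

theorem tr (f : E4 → ℝ) (S : Set E4) (hS : MeasurableSet S) (p : E4) :
    ∫ y in {y : E4 | y - p ∈ S}, f (y - p) = ∫ z in S, f z := by
  have hm : MeasurableSet {y : E4 | y - p ∈ S} :=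
    hS.preimage (measurable_id.sub_const p)
  rw [← integral_indicator hS, ← integral_indicator hm,
    ← integral_sub_right_eq_self (fun z => S.indicator (fun z => f z) z) p]
  congr 1

theorem int_far (hM : S_MASS) {s : ℝ} (hs0 : 0 < s) (x p : E4) (r : ℝ)
    (hfar : ∀ y ∈ ball x r, r ≤ ‖y - p‖) :
    0 ≤ ∫ y in ball x r, hs s (y - p) ∧
      ∫ y in ball x r, hs s (y - p) ≤ ∫ z in {z : E4 | r ≤ ‖z‖}, hs s z := by
  refine ⟨integral_nonneg fun y => hs_nonneg _ _, ?_⟩
  have hS : MeasurableSet {z : E4 | r ≤ ‖z‖} := measurableSet_le measurable_const measurable_norm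
  rw [← tr (hs s) _ hS p]
  apply setIntegral_mono_set
  · exact ((hM s hs0).1.comp_sub_right p).integrableOn
  · exact Eventually.of_forall fun y => hs_nonneg _ _
  · exact Eventually.of_forall fun y hy => hfar y hy

theorem int_near (hM : S_MASS) {s : ℝ} (hs0 : 0 < s) (x : E4) (r : ℝ) :
    ∫ y in ball x r, hs s (y - x) =
      16 * Real.pi ^ 2 - ∫ z in {z : E4 | r ≤ ‖z‖}, hs s z := by
  have hS : MeasurableSet {z : E4 | r ≤ ‖z‖} := measurableSet_le measurable_const measurable_norm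
  rw [← tr (hs s) _ hS x]
  have h1 := integral_add_compl (μ := volume) (f := fun y => hs s (y - x))
    (measurableSet_ball (x := x) (ε := r)) ((hM s hs0).1.comp_sub_right x)
  have h2 : ∫ y, hs s (y - x) = 16 * Real.pi ^ 2 := by
    rw [integral_sub_right_eq_self (fun z => hs s z) x]
    exact (hM s hs0).2
  have h3 : (ball x r)ᶜ = {y : E4 | y - x ∈ {z : E4 | r ≤ ‖z‖}} := by
    ext y
    simp [mem_ball, dist_eq_norm]
  rw [h3, h2] at h1
  linarith

theorem int_mol (h2 : S_T2) {δ : ℝ} (hδ : 0 < δ) {H : E4 → ℝ} (hH : Src H) (x p : E4) (r : ℝ) :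
    |∫ y in ball x r, mol δ H (y - p)| ≤ ∫ y, |H y| := by
  obtain ⟨-, -, hi, hle⟩ := h2 δ H hδ hH
  refine le_trans ?_ hle
  calc |∫ y in ball x r, mol δ H (y - p)| ≤ ∫ y in ball x r, |mol δ H (y - p)| :=
        abs_integral_le_integral_abs
    _ ≤ ∫ y, |mol δ H (y - p)| :=
        setIntegral_le_integral ((hi.comp_sub_right p).abs)
          (Eventually.of_forall fun y => abs_nonneg _)
    _ = ∫ y, |mol δ H y| := integral_sub_right_eq_self (fun y => |mol δ H y|) p

theorem ep_tendsto {c : ℝ → ℝ} {b : ℕ → ℝ} (hb : Tendsto b atTop atTop) (hb1 : ∀ k, 1 ≤ b k)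
    (hc1 : ∀ k, c (b k) ≤ Real.sqrt (b k)) :
    Tendsto (fun k => ep (c (b k)) (b k)) atTop (𝓝 0) := by
  have h1 : Tendsto (fun k => Real.exp (-(b k / 3))) atTop (𝓝 0) := by
    apply Real.tendsto_exp_neg_atTop_nhds_zero.comp
    exact hb.atTop_div_const (by norm_num)
  refine squeeze_zero (fun k => (ep_pos _ _).le) (fun k => ?_) h1
  unfold ep
  have h2 : Real.sqrt (b k) ≤ b k := by
    rw [Real.sqrt_le_left (by linarith [hb1 k])]
    nlinarith [hb1 k]
  have h3 : Real.exp (-(4 * b k / 3) + c (b k)) ≤ Real.exp (-(b k / 3)) := by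
    apply Real.exp_le_exp.2
    linarith [hc1 k]
  linarith [Real.exp_pos (-(4 * b k / 3) + c (b k))]

theorem far (P : Finset E4) (x : E4) : ∃ r1 : ℝ, 0 < r1 ∧ ∀ p ∈ P, p ≠ x → r1 ≤ ‖p - x‖ := by
  classical
  have h1 : IsOpen ((↑(P.erase x) : Set E4)ᶜ) := (Finset.finite_toSet _).isClosed.isOpen_compl
  have h2 : x ∈ ((↑(P.erase x) : Set E4)ᶜ) := by simp
  obtain ⟨r1, hr1, hsub⟩ := Metric.isOpen_iff.1 h1 x h2
  refine ⟨r1, hr1, fun p hp hpx => ?_⟩
  by_contra hlt
  push Not at hlt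
  have : p ∈ ball x r1 := by rw [mem_ball, dist_eq_norm]; exact hlt
  have := hsub this
  simp [hp, hpx] at this

end PLM

open PLM in
theorem t_LM (hM : S_MASS) (hC : S_CONC) (h2 : S_T2) : S_LM := by
  classical
  intro P c b δ ε D x hx
  obtain ⟨ρ, hρ, hsub⟩ := Metric.isOpen_iff.1 isOpen_Om x hx
  obtain ⟨r1, hr1, hfar⟩ := far P x
  refine ⟨min ρ (r1 / 2), by positivity, (ball_subset_ball (min_le_left _ _)).trans hsub, ?_⟩
  intro r hr hr0
  have hrr : r < r1 / 2 := lt_of_lt_of_le hr0 (min_le_right _ _)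
  obtain ⟨C, hCpos, hCb⟩ := hC r hr
  have het := ep_tendsto D.hb D.hb1 D.hc1
  have hcon : Tendsto (fun k => ∫ z in {z : E4 | r ≤ ‖z‖}, hs (ep (c (b k)) (b k)) z) atTop (𝓝 0) := by
    have h4 : Tendsto (fun k => C * (ep (c (b k)) (b k)) ^ 4) atTop (𝓝 0) := by
      have := (het.pow 4).const_mul C
      simpa using this
    refine squeeze_zero (fun k => integral_nonneg fun y => hs_nonneg _ _) (fun k => ?_) h4
    exact hCb _ (ep_pos _ _)
  have hA : ∀ p ∈ P, Tendsto (fun k => ∫ y in ball x r, hs (ep (c (b k)) (b k)) (y - p)) atTop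
      (𝓝 (if p = x then 16 * Real.pi ^ 2 else 0)) := by
    intro p hp
    by_cases hpx : p = x
    · rw [if_pos hpx, hpx]
      have h5 : Tendsto (fun k => 16 * Real.pi ^ 2 -
          ∫ z in {z : E4 | r ≤ ‖z‖}, hs (ep (c (b k)) (b k)) z) atTop (𝓝 (16 * Real.pi ^ 2 - 0)) :=
        tendsto_const_nhds.sub hcon
      rw [sub_zero] at h5
      refine h5.congr fun k => ?_
      exact (int_near hM (ep_pos _ _) x r).symm
    · rw [if_neg hpx]
      have hf : ∀ y ∈ ball x r, r ≤ ‖y - p‖ := by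
        intro y hy
        rw [mem_ball, dist_eq_norm] at hy
        have h6 := hfar p hp hpx
        have h7 : ‖p - x‖ ≤ ‖y - p‖ + ‖y - x‖ := by
          have := norm_sub_le (y - x) (y - p)
          have e : (y - x) - (y - p) = p - x := by abel
          rw [e] at this
          linarith
        linarith
      exact squeeze_zero (fun k => (int_far hM (ep_pos _ _) x p r hf).1)
        (fun k => (int_far hM (ep_pos _ _) x p r hf).2) hcon
  have hB : ∀ p ∈ P, Tendsto (fun k => ∫ y in ball x r, mol (δ k) (Hb (c (b k)) (b k)) (y - p)) atTop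
      (𝓝 0) := by
    intro p _
    refine squeeze_zero_norm (fun k => ?_) D.hε
    rw [Real.norm_eq_abs]
    exact (int_mol h2 (D.hδ0 k) (D.hH k) x p r).trans (D.hHL k)
  have hF : Tendsto (fun k => ∫ y in ball x r, mol (δ k) (Fs (c (b k)) (b k) 1) (y - ps)) atTop
      (𝓝 0) := by
    refine squeeze_zero_norm (fun k => ?_) D.hε
    rw [Real.norm_eq_abs]
    exact (int_mol h2 (D.hδ0 k) (D.hF k) x ps r).trans (D.hFL k)
  have htot := (tendsto_finsetSum P fun p hp => (hA p hp).add (hB p hp)).add hF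
  have heq : ∀ k, (∑ p ∈ P, ((∫ y in ball x r, hs (ep (c (b k)) (b k)) (y - p)) +
      (∫ y in ball x r, mol (δ k) (Hb (c (b k)) (b k)) (y - p)))) +
      (∫ y in ball x r, mol (δ k) (Fs (c (b k)) (b k) 1) (y - ps)) =
      ∫ y in ball x r, ff P (c (b k)) (b k) (δ k) y := by
    intro k
    have i1 : ∀ p : E4, IntegrableOn (fun y => hs (ep (c (b k)) (b k)) (y - p)) (ball x r) :=
      fun p => ((hM _ (ep_pos _ _)).1.comp_sub_right p).integrableOn
    have i2 : ∀ p : E4, IntegrableOn (fun y => mol (δ k) (Hb (c (b k)) (b k)) (y - p)) (ball x r) :=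
      fun p => ((h2 _ _ (D.hδ0 k) (D.hH k)).2.2.1.comp_sub_right p).integrableOn
    have i3 : IntegrableOn (fun y => mol (δ k) (Fs (c (b k)) (b k) 1) (y - ps)) (ball x r) :=
      ((h2 _ _ (D.hδ0 k) (D.hF k)).2.2.1.comp_sub_right ps).integrableOn
    have s2 := integral_finsetSum (μ := volume.restrict (ball x r)) P
      (f := fun p y => hs (ep (c (b k)) (b k)) (y - p) + mol (δ k) (Hb (c (b k)) (b k)) (y - p))
      (fun p _ => (i1 p).add (i2 p))
    have i4 : Integrable (fun y => ∑ p ∈ P, (hs (ep (c (b k)) (b k)) (y - p) +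
        mol (δ k) (Hb (c (b k)) (b k)) (y - p))) (volume.restrict (ball x r)) :=
      integrable_finsetSum P fun p _ => (i1 p).add (i2 p)
    have s1 := integral_add i4 i3
    unfold ff
    refine Eq.trans ?_ s1.symm
    rw [s2]
    congr 1
    refine Finset.sum_congr rfl fun p _ => ?_
    exact (integral_add (i1 p) (i2 p)).symm
  have htot2 : Tendsto (fun k => ∫ y in ball x r, ff P (c (b k)) (b k) (δ k) y) atTop
      (𝓝 (if x ∈ P then 16 * Real.pi ^ 2 else 0)) := by
    have e1 : (∑ p ∈ P, ((if p = x then 16 * Real.pi ^ 2 else 0) + (0:ℝ))) + (0:ℝ) =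
        if x ∈ P then 16 * Real.pi ^ 2 else 0 := by
      simp only [add_zero]
      rw [Finset.sum_ite_eq']
    rw [e1] at htot
    exact htot.congr heq
  refine ⟨fun hxP => ?_, fun hxP => ?_⟩
  · rwa [if_pos hxP] at htot2
  · rwa [if_neg hxP] at htot2

end Pool.Agent.R207.MB.Main
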