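import Pool.Agent.R207.MB.Main3

/-!
# MP_e2b804_an, piece UP: the solutions tend to infinity on `{x 0 = 1}`
-/

set_option autoImplicit false

open MeasureTheory Filter Topology Metric

noncomputable section

namespace Pool.Agent.R207.MB.Main

open Pool.Agent.R207.MB

theorem t_UP : S_UP := by
  intro P c b δ ε hD K hK hKs M
  obtain ⟨R, hR⟩ := hK.isBounded.exists_norm_le
  set A : ℝ := (4 * (P.card : ℝ) + 4) * Real.log 34 + 4 * ∑ p ∈ P, Ct p + 4 with hA
  set L : ℝ := Real.log (1 + R ^ 2) with hL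
  have hct : Tendsto (fun k => c (b k)) atTop atTop := hD.hc.1.comp hD.hb
  filter_upwards [hct.eventually_ge_atTop ((4 * M + A + 4 * L) / 4)] with k hk x hx
  obtain ⟨hxO, hx1⟩ := hKs hx
  have hb1 := hD.hb1 k
  have hs : Real.sqrt (b k) ≤ b k := by
    rw [Real.sqrt_le_iff]; exact ⟨by linarith, by nlinarith⟩
  have hc : c (b k) ≤ 4 * b k / 3 := by
    have := hD.hc1 k
    linarith
  have hlam : lam x ≤ L := by
    unfold lam
    apply Real.log_le_log (by positivity)
    have h1 := hR x hx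
    have h2 := norm_nonneg x
    nlinarith
  have hphi : phi x = 0 := by
    unfold phi
    rw [hx1]; norm_num
  have h0 := uu_eq P (c (b k)) (b k) (δ k) x
  rw [hphi] at h0
  have h2 := (abs_le.1 (uq_bound P.card hxO)).1
  have h3 : ∑ p ∈ P, lD (ep (c (b k)) (b k)) (x - p) ≤ (P.card : ℝ) * lam x + ∑ p ∈ P, Ct p := by
    calc _ ≤ ∑ p ∈ P, (lam x + Ct p) :=
          Finset.sum_le_sum (fun p _ => lD_le (ep_pos _ _) (ep_le_one hc) x p)
      _ = _ := by rw [Finset.sum_add_distrib]; simp
  have h4 := (abs_le.1 (hD.hw k x)).1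
  have h5 := lam_nonneg x
  rw [div_le_iff₀ (by norm_num)] at hk
  nlinarith

end Pool.Agent.R207.MB.Main
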