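import Pool.Agent.R207.MB.Main3

set_option autoImplicit false

open MeasureTheory Filter Topology Metric

noncomputable section

namespace Pool.Agent.R207.MB.Main

open Pool.Agent.R207.MB

namespace PV0

theorem Bf0_cont {x : E4} (hx : x ∈ Om) : ContinuousAt (fun y : E4 => Bf 0 (y - q0)) x := by
  unfold Bf
  have h := norm_sub_q0 hx
  have h1 : ((0:ℝ) ^ 2 + ‖x - q0‖ ^ 2) ≠ 0 := by positivity
  have h2 : ContinuousAt (fun y : E4 => (0:ℝ) ^ 2 + ‖y - q0‖ ^ 2) x := by fun_prop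
  exact (h2.log h1).neg

theorem V0_cont (P : Finset E4) {x : E4} (hx : x ∈ Om) : ContinuousAt (V0 P) x := by
  unfold V0
  have h1 : ContinuousAt (fun y : E4 => 6 * Real.exp ((4 * ((P.card : ℝ) - 7 / 8)) * Bf 0 (y - q0))) x :=
    (continuousAt_const.mul (Real.continuous_exp.continuousAt.comp (continuousAt_const.mul (Bf0_cont hx))))
  have h2 : Continuous (fun y : E4 => ((∑ p ∈ P, ∏ a ∈ P.erase p, (‖y - a‖ ^ 2) ^ 4) +
      (∏ a ∈ P, (‖y - a‖ ^ 2) ^ 4) / (1 + ‖y - ps‖ ^ 2) ^ 4)) := by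
    refine Continuous.add ?_ (Continuous.div ?_ ?_ ?_)
    · exact continuous_finsetSum _ (fun p _ => continuous_finsetProd _ (fun a _ => by fun_prop))
    · exact continuous_finsetProd _ (fun a _ => by fun_prop)
    · fun_prop
    · intro y; positivity
  exact h1.mul h2.continuousAt

end PV0

theorem t_V0 : S_V0 := by
  classical
  intro P
  refine ⟨fun x hx => (PV0.V0_cont P hx).continuousWithinAt, ?_⟩
  intro x hx
  unfold V0
  have h1 : 0 < 6 * Real.exp ((4 * ((P.card : ℝ) - 7 / 8)) * Bf 0 (x - q0)) := by positivity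
  refine mul_pos h1 ?_
  have h2 : 0 ≤ ∑ p ∈ P, ∏ a ∈ P.erase p, (‖x - a‖ ^ 2) ^ 4 :=
    Finset.sum_nonneg (fun p _ => Finset.prod_nonneg (fun a _ => by positivity))
  have h3 : 0 ≤ (∏ a ∈ P, (‖x - a‖ ^ 2) ^ 4) / (1 + ‖x - ps‖ ^ 2) ^ 4 :=
    div_nonneg (Finset.prod_nonneg (fun a _ => by positivity)) (by positivity)
  by_cases hP : x ∈ P
  · have h4 : 0 < ∑ p ∈ P, ∏ a ∈ P.erase p, (‖x - a‖ ^ 2) ^ 4 := by
      refine Finset.sum_pos' (fun p _ => Finset.prod_nonneg (fun a _ => by positivity)) ⟨x, hP, ?_⟩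
      refine Finset.prod_pos (fun a ha => ?_)
      have : a ≠ x := Finset.ne_of_mem_erase ha
      have h5 : 0 < ‖x - a‖ := norm_pos_iff.2 (sub_ne_zero.2 this.symm)
      positivity
    linarith
  · have h4 : 0 < (∏ a ∈ P, (‖x - a‖ ^ 2) ^ 4) / (1 + ‖x - ps‖ ^ 2) ^ 4 := by
      refine div_pos (Finset.prod_pos (fun a ha => ?_)) (by positivity)
      have : x ≠ a := fun h => hP (h ▸ ha)
      have h5 : 0 < ‖x - a‖ := norm_pos_iff.2 (sub_ne_zero.2 this)
      positivity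
    linarith

end Pool.Agent.R207.MB.Main
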