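import Pool.Agent.R207.MB.Main3

/-!
# MP_e2b804_an, piece VB: the curvature functions are bounded on the slab
-/

set_option autoImplicit false

open MeasureTheory Filter Topology Metric

noncomputable section

namespace Pool.Agent.R207.MB.Main

open Pool.Agent.R207.MB

namespace PVB

theorem nonneg_of_bound {f : E4 → ℝ} {C : ℝ} (hC : ∀ x, |f x| ≤ C / (1 + ‖x‖ ^ 2) ^ 4) : 0 ≤ C := by
  have h2 := (abs_nonneg _).trans (hC 0)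
  simpa using h2

/-- decay around a shifted centre -/
theorem shift_bound {f : E4 → ℝ} {C : ℝ} (hC : ∀ x, |f x| ≤ C / (1 + ‖x‖ ^ 2) ^ 4) (p x : E4) :
    |f (x - p)| ≤ (C * (2 * (1 + ‖p‖ ^ 2)) ^ 4) / (1 + ‖x‖ ^ 2) ^ 4 := by
  have hC0 : 0 ≤ C := nonneg_of_bound hC
  refine (hC (x - p)).trans ?_
  rw [div_le_div_iff₀ (by positivity) (by positivity)]
  have h := one_add_le x p
  have h2 : (1 + ‖x‖ ^ 2) ^ 4 ≤ (2 * (1 + ‖x - p‖ ^ 2) * (1 + ‖p‖ ^ 2)) ^ 4 := by gcongr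
  calc C * (1 + ‖x‖ ^ 2) ^ 4 ≤ C * (2 * (1 + ‖x - p‖ ^ 2) * (1 + ‖p‖ ^ 2)) ^ 4 := by gcongr
    _ = C * (2 * (1 + ‖p‖ ^ 2)) ^ 4 * (1 + ‖x - p‖ ^ 2) ^ 4 := by ring

theorem hs_bound {e : ℝ} (h0 : 0 < e) (h1 : e ≤ 1) (z : E4) :
    |hs e z| ≤ (96 * e ^ 4 / (e ^ 2) ^ 4) / (1 + ‖z‖ ^ 2) ^ 4 := by
  have hpos := sq_add_pos h0 z
  have hn : 0 ≤ hs e z := by unfold hs; positivity
  rw [abs_of_nonneg hn]
  unfold hs
  rw [div_div]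
  apply div_le_div_of_nonneg_left (by positivity) (by positivity)
  rw [← mul_pow]
  apply pow_le_pow_left₀ (by positivity)
  nlinarith [sq_nonneg ‖z‖, mul_nonneg (sub_nonneg.2 h1) (by positivity : (0:ℝ) ≤ (1 + e) * ‖z‖ ^ 2)]

theorem sum_bound {ι : Type*} (P : Finset ι) (f : ι → E4 → ℝ)
    (h : ∀ p ∈ P, ∃ C : ℝ, ∀ x, |f p x| ≤ C / (1 + ‖x‖ ^ 2) ^ 4) :
    ∃ C : ℝ, ∀ x, |∑ p ∈ P, f p x| ≤ C / (1 + ‖x‖ ^ 2) ^ 4 := by
  classical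
  induction P using Finset.induction_on with
  | empty => exact ⟨0, fun x => by simp⟩
  | insert a s ha ih =>
    obtain ⟨C1, h1⟩ := ih (fun p hp => h p (Finset.mem_insert_of_mem hp))
    obtain ⟨C2, h2⟩ := h a (Finset.mem_insert_self _ _)
    refine ⟨C2 + C1, fun x => ?_⟩
    rw [Finset.sum_insert ha, add_div]
    exact (abs_add_le _ _).trans (add_le_add (h2 x) (h1 x))

theorem add_bound {f g : E4 → ℝ} (hf : ∃ C : ℝ, ∀ x, |f x| ≤ C / (1 + ‖x‖ ^ 2) ^ 4)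
    (hg : ∃ C : ℝ, ∀ x, |g x| ≤ C / (1 + ‖x‖ ^ 2) ^ 4) :
    ∃ C : ℝ, ∀ x, |f x + g x| ≤ C / (1 + ‖x‖ ^ 2) ^ 4 := by
  obtain ⟨C1, h1⟩ := hf
  obtain ⟨C2, h2⟩ := hg
  refine ⟨C1 + C2, fun x => ?_⟩
  rw [add_div]
  exact (abs_add_le _ _).trans (add_le_add (h1 x) (h2 x))

theorem ff_bound (h2 : S_T2) (P : Finset E4) {c β δ : ℝ} (hδ : 0 < δ) (hc : c ≤ 4 * β / 3)
    (hH : Src (Hb c β)) (hF : Src (Fs c β 1)) :
    ∃ C : ℝ, ∀ x, |ff P c β δ x| ≤ C / (1 + ‖x‖ ^ 2) ^ 4 := by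
  obtain ⟨CH, hCH⟩ := (h2 δ _ hδ hH).2.1
  obtain ⟨CF, hCF⟩ := (h2 δ _ hδ hF).2.1
  unfold ff
  apply add_bound
  · apply sum_bound
    intro p _
    apply add_bound
    · exact ⟨_, fun x => shift_bound (f := hs (ep c β)) (hs_bound (ep_pos c β) (ep_le_one hc)) p x⟩
    · exact ⟨_, fun x => shift_bound hCH p x⟩
  · exact ⟨_, fun x => shift_bound hCF ps x⟩

theorem exp_four_lam (x : E4) : Real.exp (4 * lam x) = (1 + ‖x‖ ^ 2) ^ 4 := by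
  rw [← exp_lam, ← Real.exp_nat_mul]; norm_num

end PVB

theorem t_VB (h2 : S_T2) : S_VB := by
  intro P c b δ ε hD k
  have hb1 := hD.hb1 k
  have hs : Real.sqrt (b k) ≤ b k := by
    rw [Real.sqrt_le_iff]; exact ⟨by linarith, by nlinarith⟩
  have hc : c (b k) ≤ 4 * b k / 3 := by
    have := hD.hc1 k
    linarith
  obtain ⟨C, hC⟩ := PVB.ff_bound h2 P (hD.hδ0 k) hc (hD.hH k) (hD.hF k)
  have hC0 : 0 ≤ C := PVB.nonneg_of_bound hC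
  set A : ℝ := 16 * b k / 3 + ((4 * (P.card : ℝ) + 4) * Real.log 34 + 4 * ∑ p ∈ P, Ct p + 4) with hA
  refine ⟨C * Real.exp A, fun x hx => ?_⟩
  have h1 := neg_uu_le P (c := c (b k)) (β := b k) (δ := δ k) (by linarith) (hD.hc0 k) hc (hD.hw k) hx
  have h3 : Real.exp (-(4 * uu P (c (b k)) (b k) (δ k) x)) ≤ Real.exp A * (1 + ‖x‖ ^ 2) ^ 4 := by
    rw [← PVB.exp_four_lam, ← Real.exp_add]
    exact Real.exp_le_exp.2 h1
  unfold VV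
  rw [abs_mul, abs_of_pos (Real.exp_pos _)]
  have hpos : (0 : ℝ) < (1 + ‖x‖ ^ 2) ^ 4 := by positivity
  calc |ff P (c (b k)) (b k) (δ k) x| * Real.exp (-(4 * uu P (c (b k)) (b k) (δ k) x))
      ≤ (C / (1 + ‖x‖ ^ 2) ^ 4) * (Real.exp A * (1 + ‖x‖ ^ 2) ^ 4) :=
        mul_le_mul (hC x) h3 (Real.exp_pos _).le (by positivity)
    _ = C * Real.exp A := by field_simp

end Pool.Agent.R207.MB.Main
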