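import Pool.Agent.R207.MB.Main3
import Pool.Agent.R207.MB.P_V0

set_option autoImplicit false

open MeasureTheory Filter Topology Metric

noncomputable section

namespace Pool.Agent.R207.MB.Main

open Pool.Agent.R207.MB

namespace PVLIM

/-- the error term -/
def Er (P : Finset E4) (c β δ : ℝ) (x : E4) : ℝ :=
  (∑ p ∈ P, (mol δ (Hb c β) (x - p) - Hb c β (x - p))) + (mol δ (Fs c β 1) (x - ps) - Fs c β 1 (x - ps))

/-- the algebraic factor -/
def Al (P : Finset E4) (e : ℝ) (x : E4) : ℝ :=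
  (∑ p ∈ P, ∏ a ∈ P.erase p, (e ^ 2 + ‖x - a‖ ^ 2) ^ 4) + (∏ a ∈ P, (e ^ 2 + ‖x - a‖ ^ 2) ^ 4) / (1 + ‖x - ps‖ ^ 2) ^ 4

theorem exp_sum_lD (P : Finset E4) {e : ℝ} (he : 0 < e) (x : E4) :
    Real.exp (4 * ∑ p ∈ P, lD e (x - p)) = ∏ a ∈ P, (e ^ 2 + ‖x - a‖ ^ 2) ^ 4 := by
  rw [Finset.mul_sum, Real.exp_sum]
  apply Finset.prod_congr rfl
  intro a _
  have h := sq_add_pos he (x - a)
  have : (4:ℝ) * lD e (x - a) = ((4:ℕ) : ℝ) * lD e (x - a) := by norm_num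
  rw [this, Real.exp_nat_mul]
  unfold lD
  rw [Real.exp_log h]

theorem VV_eq (P : Finset E4) (hP : ∀ p ∈ P, p 0 = -1) (c β δ : ℝ) {x : E4} (hx : x ∈ Om) :
    VV P c β δ x = 6 * Real.exp ((4 * ((P.card : ℝ) - 7 / 8)) * Bf 0 (x - q0)) * Real.exp (-(4 * ww P c β δ x))
      * Al P (ep c β) x + Er P c β δ x * Real.exp (-(4 * uu P c β δ x)) := by
  classical
  have he := ep_pos c β
  set e := ep c β with hedef
  set E := Real.exp (4 * β * phi x + 4 * c) with hE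
  have hEpos : 0 < E := Real.exp_pos _
  set G := Real.exp ((4 * ((P.card : ℝ) - 7 / 8)) * Bf 0 (x - q0)) with hG
  set W := Real.exp (-(4 * ww P c β δ x)) with hW
  have h1 : ff P c β δ x = (∑ p ∈ P, Fs c β e (x - p)) + Fs c β 1 (x - ps) + Er P c β δ x := by
    unfold ff Er
    have : ∀ p ∈ P, hs e (x - p) + mol δ (Hb c β) (x - p) =
        Fs c β e (x - p) + (mol δ (Hb c β) (x - p) - Hb c β (x - p)) := by
      intro p _; unfold Hb; rw [← hedef]; ring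
    rw [Finset.sum_congr rfl this, Finset.sum_add_distrib]
    ring
  have h2 : Real.exp (-(4 * uu P c β δ x)) = E⁻¹ * G * W * ∏ a ∈ P, (e ^ 2 + ‖x - a‖ ^ 2) ^ 4 := by
    rw [uu_eq, ← exp_sum_lD P he x, hE, hG, hW, ← Real.exp_neg, ← Real.exp_add, ← Real.exp_add, ← Real.exp_add]
    congr 1
    ring
  have h3 : ∀ p ∈ P, Fs c β e (x - p) * (E⁻¹ * G * W * ∏ a ∈ P, (e ^ 2 + ‖x - a‖ ^ 2) ^ 4) =
      6 * G * W * ∏ a ∈ P.erase p, (e ^ 2 + ‖x - a‖ ^ 2) ^ 4 := by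
    intro p hp
    rw [Fs_eq hx (hP p hp), ← Finset.mul_prod_erase P _ hp, ← hE]
    have := sq_add_pos he (x - p)
    field_simp
  have h4 : Fs c β 1 (x - ps) * (E⁻¹ * G * W * ∏ a ∈ P, (e ^ 2 + ‖x - a‖ ^ 2) ^ 4) =
      6 * G * W * ((∏ a ∈ P, (e ^ 2 + ‖x - a‖ ^ 2) ^ 4) / (1 + ‖x - ps‖ ^ 2) ^ 4) := by
    rw [Fs_eq hx ps_zero, ← hE]
    have : (0:ℝ) < 1 + ‖x - ps‖ ^ 2 := by positivity
    have h5 : ((1:ℝ) ^ 2 + ‖x - ps‖ ^ 2) = 1 + ‖x - ps‖ ^ 2 := by ring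
    rw [h5]
    field_simp
  unfold VV
  rw [h1, add_mul, add_mul, Finset.sum_mul]
  congr 1
  rw [h2, Finset.sum_congr rfl h3, h4]
  unfold Al
  rw [← Finset.mul_sum, ← mul_add]

section lim

variable {P : Finset E4} {c : ℝ → ℝ} {b δ ε : ℕ → ℝ}

theorem ep_le (h : Dat P c b δ ε) (k : ℕ) : ep (c (b k)) (b k) ≤ Real.exp (-(b k / 3)) := by
  have h1 := h.hb1 k
  have h2 : Real.sqrt (b k) ≤ b k := by
    rw [Real.sqrt_le_left (by linarith)]; nlinarith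
  have h3 := h.hc1 k
  unfold ep
  have h4 : Real.exp (-(4 * b k / 3) + c (b k)) ≤ Real.exp (-(b k / 3)) := Real.exp_le_exp.2 (by linarith)
  have h5 := Real.exp_pos (-(4 * b k / 3) + c (b k))
  linarith

theorem c_le (h : Dat P c b δ ε) (k : ℕ) : c (b k) ≤ 4 * b k / 3 := by
  have h1 := h.hb1 k
  have h2 : Real.sqrt (b k) ≤ b k := by
    rw [Real.sqrt_le_left (by linarith)]; nlinarith
  have h3 := h.hc1 k
  linarith

theorem ep_tendsto (h : Dat P c b δ ε) : Tendsto (fun k => ep (c (b k)) (b k)) atTop (𝓝 0) := by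
  have h1 : Tendsto (fun k => Real.exp (-(b k / 3))) atTop (𝓝 0) :=
    Real.tendsto_exp_neg_atTop_nhds_zero.comp (h.hb.atTop_div_const (by norm_num))
  exact squeeze_zero (fun k => (ep_pos _ _).le) (ep_le h) h1

theorem ww_le (h : Dat P c b δ ε) (k : ℕ) (x : E4) : |ww P (c (b k)) (b k) (δ k) x| ≤
    ε k * ((∑ p ∈ P, (1 + lam (x - p))) + (1 + lam (x - ps))) := by
  unfold ww
  refine (abs_add_le _ _).trans ?_
  rw [mul_add, Finset.mul_sum]
  refine add_le_add ((Finset.abs_sum_le_sum_abs _ _).trans (Finset.sum_le_sum (fun p _ => h.hHp k _))) (h.hFp k _)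

theorem lam_cont : Continuous lam := by
  unfold lam
  refine Continuous.log (by fun_prop) (fun x => by positivity)

variable (x : E4)

theorem tfst : Tendsto (fun q : ℕ × E4 => q.1) ((atTop : Filter ℕ) ×ˢ 𝓝[Om] x) atTop := tendsto_fst

theorem tsnd : Tendsto (fun q : ℕ × E4 => q.2) ((atTop : Filter ℕ) ×ˢ 𝓝[Om] x) (𝓝 x) :=
  tendsto_snd.mono_right nhdsWithin_le_nhds

theorem t_ww (h : Dat P c b δ ε) : Tendsto (fun q : ℕ × E4 => ww P (c (b q.1)) (b q.1) (δ q.1) q.2)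
    ((atTop : Filter ℕ) ×ˢ 𝓝[Om] x) (𝓝 0) := by
  have h1 : Tendsto (fun q : ℕ × E4 => ε q.1 * ((∑ p ∈ P, (1 + lam (q.2 - p))) + (1 + lam (q.2 - ps))))
      ((atTop : Filter ℕ) ×ˢ 𝓝[Om] x) (𝓝 (0 * ((∑ p ∈ P, (1 + lam (x - p))) + (1 + lam (x - ps))))) := by
    refine (h.hε.comp (tfst x)).mul ?_
    have h2 : Continuous (fun y : E4 => (∑ p ∈ P, (1 + lam (y - p))) + (1 + lam (y - ps))) := by
      refine Continuous.add (continuous_finsetSum _ (fun p _ => ?_)) ?_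
      · exact continuous_const.add (lam_cont.comp (by fun_prop))
      · exact continuous_const.add (lam_cont.comp (by fun_prop))
    exact (h2.tendsto x).comp (tsnd x)
  rw [zero_mul] at h1
  refine squeeze_zero_norm (fun q => ?_) h1
  exact ww_le h q.1 q.2

theorem cont_Al (P : Finset E4) : Continuous (fun r : ℝ × E4 => Al P r.1 r.2) := by
  have h0 : ∀ a : E4, Continuous (fun r : ℝ × E4 => (r.1 ^ 2 + ‖r.2 - a‖ ^ 2) ^ 4) := fun a =>
    ((continuous_fst.pow 2).add ((continuous_snd.sub continuous_const).norm.pow 2)).pow 4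
  have h0' : Continuous (fun r : ℝ × E4 => (1 + ‖r.2 - ps‖ ^ 2) ^ 4) :=
    (continuous_const.add ((continuous_snd.sub continuous_const).norm.pow 2)).pow 4
  unfold Al
  refine Continuous.add ?_ (Continuous.div ?_ h0' ?_)
  · exact continuous_finsetSum _ (fun p _ => continuous_finsetProd _ (fun a _ => h0 a))
  · exact continuous_finsetProd _ (fun a _ => h0 a)
  · intro y; positivity

theorem t_Al (h : Dat P c b δ ε) : Tendsto (fun q : ℕ × E4 => Al P (ep (c (b q.1)) (b q.1)) q.2)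
    ((atTop : Filter ℕ) ×ˢ 𝓝[Om] x) (𝓝 (Al P 0 x)) := by
  have h2 : Tendsto (fun q : ℕ × E4 => (ep (c (b q.1)) (b q.1), q.2)) ((atTop : Filter ℕ) ×ˢ 𝓝[Om] x) (𝓝 ((0:ℝ), x)) :=
    ((ep_tendsto h).comp (tfst x)).prodMk_nhds (tsnd x)
  have h3 := ((cont_Al P).tendsto ((0:ℝ), x)).comp h2
  exact h3

theorem ev_norm (h : Dat P c b δ ε) (p : E4) :
    ∀ᶠ q : ℕ × E4 in (atTop : Filter ℕ) ×ˢ 𝓝[Om] x, ‖q.2 - p‖ ≤ b q.1 := by
  have h1 : Tendsto (fun q : ℕ × E4 => ‖q.2 - p‖) ((atTop : Filter ℕ) ×ˢ 𝓝[Om] x) (𝓝 ‖x - p‖) := by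
    have : Continuous (fun y : E4 => ‖y - p‖) := by fun_prop
    exact (this.tendsto x).comp (tsnd x)
  have h2 := h1.eventually (gt_mem_nhds (lt_add_one ‖x - p‖))
  have h3 := (h.hb.comp (tfst x)).eventually_ge_atTop (‖x - p‖ + 1)
  filter_upwards [h2, h3] with q h4 h5
  simp only [Function.comp] at h5
  linarith

theorem ev_coord (h : Dat P c b δ ε) (hx : x ∈ Om) (p : E4) (hp : p 0 = -1) :
    ∀ᶠ q : ℕ × E4 in (atTop : Filter ℕ) ×ˢ 𝓝[Om] x, -1 + 1 / b q.1 ≤ (q.2 - p) 0 := by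
  have h1 : Tendsto (fun q : ℕ × E4 => q.2 0) ((atTop : Filter ℕ) ×ˢ 𝓝[Om] x) (𝓝 (x 0)) := by
    have : Continuous (fun y : E4 => y 0) := by fun_prop
    exact (this.tendsto x).comp (tsnd x)
  have h2 : Tendsto (fun q : ℕ × E4 => -2 + 1 / b q.1) ((atTop : Filter ℕ) ×ˢ 𝓝[Om] x) (𝓝 (-2 + 0)) := by
    refine tendsto_const_nhds.add ?_
    have := tendsto_inv_atTop_zero.comp (h.hb.comp (tfst x))
    simp only [one_div]
    exact this
  have h3 : -2 + 0 < x 0 := by linarith [hx.1]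
  filter_upwards [h2.eventually_lt h1 h3] with q h4
  have h5 : (q.2 - p) 0 = q.2 0 + 1 := by simp [hp]
  rw [h5]; linarith

theorem ev_Er (h : Dat P c b δ ε) (hx : x ∈ Om) :
    ∀ᶠ q : ℕ × E4 in (atTop : Filter ℕ) ×ˢ 𝓝[Om] x,
      |Er P (c (b q.1)) (b q.1) (δ q.1) q.2| ≤ (P.card + 1) * Real.exp (-(10 * b q.1)) := by
  have h1 : ∀ᶠ q : ℕ × E4 in (atTop : Filter ℕ) ×ˢ 𝓝[Om] x, ∀ p ∈ P,
      |mol (δ q.1) (Hb (c (b q.1)) (b q.1)) (q.2 - p) - Hb (c (b q.1)) (b q.1) (q.2 - p)| ≤ Real.exp (-(10 * b q.1)) := by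
    rw [Filter.eventually_all_finset]
    intro p hp
    filter_upwards [ev_norm x h p, ev_coord x h hx p (h.hP p hp)] with q h2 h3
    exact h.hHm q.1 _ h3 h2
  filter_upwards [h1, ev_norm x h ps, ev_coord x h hx ps ps_zero] with q h2 h3 h4
  have h5 := h.hFm q.1 _ h4 h3
  unfold Er
  refine (abs_add_le _ _).trans ?_
  have h6 : |∑ p ∈ P, (mol (δ q.1) (Hb (c (b q.1)) (b q.1)) (q.2 - p) - Hb (c (b q.1)) (b q.1) (q.2 - p))| ≤
      P.card * Real.exp (-(10 * b q.1)) := by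
    refine (Finset.abs_sum_le_sum_abs _ _).trans ((Finset.sum_le_sum h2).trans ?_)
    simp
  linarith

theorem t_Er (h : Dat P c b δ ε) (hx : x ∈ Om) :
    Tendsto (fun q : ℕ × E4 => Er P (c (b q.1)) (b q.1) (δ q.1) q.2 *
      Real.exp (-(4 * uu P (c (b q.1)) (b q.1) (δ q.1) q.2))) ((atTop : Filter ℕ) ×ˢ 𝓝[Om] x) (𝓝 0) := by
  set K : ℝ := (4 * (P.card : ℝ) + 4) * Real.log 34 + 4 * ∑ p ∈ P, Ct p + 4 with hK
  have hmem : ∀ᶠ q : ℕ × E4 in (atTop : Filter ℕ) ×ˢ 𝓝[Om] x, q.2 ∈ Om :=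
    tendsto_snd.eventually self_mem_nhdsWithin
  have h1 : ∀ᶠ q : ℕ × E4 in (atTop : Filter ℕ) ×ˢ 𝓝[Om] x, ‖Er P (c (b q.1)) (b q.1) (δ q.1) q.2 *
      Real.exp (-(4 * uu P (c (b q.1)) (b q.1) (δ q.1) q.2))‖ ≤
      ((P.card + 1) * Real.exp (K + 4 * lam q.2)) * Real.exp (-(b q.1)) := by
    filter_upwards [ev_Er x h hx, hmem] with q h2 h3
    have hb1 := h.hb1 q.1
    have h4 := neg_uu_le P (c := c (b q.1)) (β := b q.1) (δ := δ q.1) (by linarith) (h.hc0 q.1) (c_le h q.1)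
      (h.hw q.1) h3
    rw [Real.norm_eq_abs, abs_mul, abs_of_pos (Real.exp_pos _)]
    have h5 : Real.exp (-(4 * uu P (c (b q.1)) (b q.1) (δ q.1) q.2)) ≤
        Real.exp (9 * b q.1) * Real.exp (K + 4 * lam q.2) := by
      rw [← Real.exp_add]
      apply Real.exp_le_exp.2
      rw [← hK] at h4
      linarith
    calc _ ≤ ((P.card + 1) * Real.exp (-(10 * b q.1))) * (Real.exp (9 * b q.1) * Real.exp (K + 4 * lam q.2)) :=
          mul_le_mul h2 h5 (Real.exp_pos _).le (by positivity)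
      _ = ((P.card + 1) * Real.exp (K + 4 * lam q.2)) * (Real.exp (-(10 * b q.1)) * Real.exp (9 * b q.1)) := by ring
      _ = _ := by rw [← Real.exp_add]; congr 2; ring
  have h2 : Tendsto (fun q : ℕ × E4 => ((P.card + 1) * Real.exp (K + 4 * lam q.2)) * Real.exp (-(b q.1)))
      ((atTop : Filter ℕ) ×ˢ 𝓝[Om] x) (𝓝 (((P.card + 1) * Real.exp (K + 4 * lam x)) * 0)) := by
    refine Tendsto.mul ?_ (Real.tendsto_exp_neg_atTop_nhds_zero.comp (h.hb.comp (tfst x)))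
    have h3 : Continuous (fun y : E4 => ((P.card : ℝ) + 1) * Real.exp (K + 4 * lam y)) := by
      have := lam_cont
      fun_prop
    exact (h3.tendsto x).comp (tsnd x)
  rw [mul_zero] at h2
  exact squeeze_zero_norm' h1 h2

theorem t_VV (h : Dat P c b δ ε) (hx : x ∈ Om) :
    Tendsto (fun q : ℕ × E4 => VV P (c (b q.1)) (b q.1) (δ q.1) q.2) ((atTop : Filter ℕ) ×ˢ 𝓝[Om] x)
      (𝓝 (V0 P x)) := by
  have hmem : ∀ᶠ q : ℕ × E4 in (atTop : Filter ℕ) ×ˢ 𝓝[Om] x, q.2 ∈ Om :=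
    tendsto_snd.eventually self_mem_nhdsWithin
  have h1 : Tendsto (fun q : ℕ × E4 => 6 * Real.exp ((4 * ((P.card : ℝ) - 7 / 8)) * Bf 0 (q.2 - q0)) *
      Real.exp (-(4 * ww P (c (b q.1)) (b q.1) (δ q.1) q.2))
      * Al P (ep (c (b q.1)) (b q.1)) q.2 + Er P (c (b q.1)) (b q.1) (δ q.1) q.2 *
      Real.exp (-(4 * uu P (c (b q.1)) (b q.1) (δ q.1) q.2))) ((atTop : Filter ℕ) ×ˢ 𝓝[Om] x)
      (𝓝 (6 * Real.exp ((4 * ((P.card : ℝ) - 7 / 8)) * Bf 0 (x - q0)) * Real.exp (-(4 * 0)) * Al P 0 x + 0)) := by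
    refine Tendsto.add (Tendsto.mul (Tendsto.mul ?_ ?_) (t_Al x h)) (t_Er x h hx)
    · have h2 : ContinuousAt (fun y : E4 => 6 * Real.exp ((4 * ((P.card : ℝ) - 7 / 8)) * Bf 0 (y - q0))) x :=
        (continuousAt_const.mul (Real.continuous_exp.continuousAt.comp (continuousAt_const.mul (PV0.Bf0_cont hx))))
      exact h2.tendsto.comp (tsnd x)
    · exact (Real.continuous_exp.tendsto _).comp (((t_ww x h).const_mul 4).neg)
  have h2 : V0 P x = 6 * Real.exp ((4 * ((P.card : ℝ) - 7 / 8)) * Bf 0 (x - q0)) * Real.exp (-(4 * 0)) * Al P 0 x + 0 := by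
    unfold V0 Al
    simp
  rw [h2]
  refine h1.congr' ?_
  filter_upwards [hmem] with q hq
  exact (VV_eq P h.hP _ _ _ hq).symm

end lim

end PVLIM

theorem t_VLIM : S_VLIM := by
  intro P c b δ ε h
  rw [tendstoLocallyUniformlyOn_iff_forall_tendsto]
  intro x hx
  have h1 := PVLIM.t_VV x h hx
  have h2 : Tendsto (fun q : ℕ × E4 => V0 P q.2) ((atTop : Filter ℕ) ×ˢ 𝓝[Om] x) (𝓝 (V0 P x)) :=
    (PV0.V0_cont P hx).tendsto.comp (PVLIM.tsnd x)
  exact (h2.prodMk_nhds h1).mono_right (nhds_le_uniformity _)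

end Pool.Agent.R207.MB.Main
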