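import Pool.Agent.R207.MB.Stm

/-!
# Piece T1: calculus of the mollified potential (helper359)
-/

set_option autoImplicit false
set_option linter.unusedVariables false

open MeasureTheory Filter Topology Metric

noncomputable section

namespace Pool.Agent.R207.MB

namespace T1

/-- One differentiation under the integral. -/
theorem conv_fderiv {G A : Type} [NormedAddCommGroup G] [NormedSpace ℝ G] [CompleteSpace G]
    [NormedAddCommGroup A] [NormedSpace ℝ A] [CompleteSpace A]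
    (e : A ≃ₗᵢ[ℝ] (E4 →L[ℝ] G)) (K : E4 → G) (K1 : E4 → A) (hK : Continuous K)
    (hK1 : Continuous K1) (hd : ∀ z, HasFDerivAt K (e (K1 z)) z) (C : ℝ) (hC : ∀ z, ‖K1 z‖ ≤ C)
    (H : E4 → ℝ) (hHm : Measurable H) (hHi : Integrable H) (x : E4)
    (hint : Integrable (fun y => H y • K (x - y))) :
    HasFDerivAt (fun x => ∫ y, H y • K (x - y)) (e (∫ y, H y • K1 (x - y))) x := by
  have hmeas : ∀ x : E4, AEStronglyMeasurable (fun y => H y • K (x - y)) volume := fun x =>
    hHm.aestronglyMeasurable.smul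
      (hK.comp (continuous_const.sub continuous_id)).aestronglyMeasurable
  have hmeas1 : ∀ x : E4, AEStronglyMeasurable (fun y => H y • K1 (x - y)) volume := fun x =>
    hHm.aestronglyMeasurable.smul
      (hK1.comp (continuous_const.sub continuous_id)).aestronglyMeasurable
  have h1 : e (∫ y, H y • K1 (x - y)) = ∫ y, H y • e (K1 (x - y)) := by
    have h2 := e.toLinearIsometry.integral_comp_comm (fun y => H y • K1 (x - y)) (μ := volume)
    rw [LinearIsometryEquiv.coe_toLinearIsometry] at h2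
    rw [← h2]
    refine integral_congr_ae (Eventually.of_forall fun y => ?_)
    simp only [map_smul]
  rw [h1]
  refine hasFDerivAt_integral_of_dominated_of_fderiv_le (s := Set.univ)
    (F := fun x y => H y • K (x - y)) (F' := fun x y => H y • e (K1 (x - y)))
    (bound := fun y => ‖H y‖ * C) univ_mem (Eventually.of_forall hmeas) hint ?_ ?_
    (hHi.norm.mul_const _) ?_
  · exact hHm.aestronglyMeasurable.smul
      ((e.continuous.comp hK1).comp (continuous_const.sub continuous_id)).aestronglyMeasurable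
  · refine Eventually.of_forall fun y z _ => ?_
    rw [norm_smul, e.norm_map]
    exact mul_le_mul_of_nonneg_left (hC _) (norm_nonneg _)
  · refine Eventually.of_forall fun y z _ => ?_
    have h4 : HasFDerivAt (fun z : E4 => z - y) (ContinuousLinearMap.id ℝ E4) z :=
      (hasFDerivAt_id z).sub_const y
    have h5 := (HasFDerivAt.comp z (hd (z - y)) h4).const_smul (H y)
    rw [ContinuousLinearMap.comp_id] at h5
    exact h5

/-- Taylor series of a convolution with a smooth kernel with bounded derivatives. -/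
theorem conv_taylor (K : E4 → ℝ) (hK : ContDiff ℝ (⊤ : ℕ∞) K) (C : ℕ → ℝ)
    (hC : ∀ n : ℕ, 1 ≤ n → ∀ z, ‖iteratedFDeriv ℝ n K z‖ ≤ C n) (H : E4 → ℝ)
    (hHm : Measurable H) (hHi : Integrable H)
    (hKH : ∀ x, Integrable (fun y => K (x - y) * H y)) :
    (∀ n : ℕ, ∀ x, Integrable (fun y => H y • iteratedFDeriv ℝ n K (x - y))) ∧
    HasFTaylorSeriesUpTo (⊤ : ℕ∞) (fun x => ∫ y, K (x - y) * H y)
      (fun x n => ∫ y, H y • iteratedFDeriv ℝ n K (x - y)) := by
  have hT : HasFTaylorSeriesUpTo (⊤ : ℕ∞) K (ftaylorSeries ℝ K) :=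
    contDiff_iff_ftaylorSeries.mp hK
  have hcont : ∀ n : ℕ, Continuous (fun z => iteratedFDeriv ℝ n K z) := fun n =>
    hT.cont n (by exact_mod_cast le_top)
  have hmeas : ∀ (n : ℕ) (x : E4),
      AEStronglyMeasurable (fun y => H y • iteratedFDeriv ℝ n K (x - y)) volume := by
    intro n x
    exact hHm.aestronglyMeasurable.smul
      ((hcont n).comp (continuous_const.sub continuous_id)).aestronglyMeasurable
  have hint : ∀ (n : ℕ) (x : E4),
      Integrable (fun y => H y • iteratedFDeriv ℝ n K (x - y)) := by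
    intro n x
    rcases Nat.eq_zero_or_pos n with rfl | hn
    · refine (hKH x).norm.mono' (hmeas 0 x) (Eventually.of_forall fun y => ?_)
      rw [norm_smul, norm_iteratedFDeriv_zero, norm_mul, mul_comm]
    · refine (hHi.norm.mul_const (C n)).mono' (hmeas n x) (Eventually.of_forall fun y => ?_)
      rw [norm_smul]
      exact mul_le_mul_of_nonneg_left (hC n hn _) (norm_nonneg _)
  refine ⟨hint, ?_⟩
  have hderiv : ∀ (m : ℕ) (x : E4),
      HasFDerivAt (fun x => ∫ y, H y • iteratedFDeriv ℝ m K (x - y))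
        (∫ y, H y • iteratedFDeriv ℝ (m + 1) K (x - y)).curryLeft x := by
    intro m x
    exact conv_fderiv (continuousMultilinearCurryLeftEquiv ℝ (fun _ : Fin (m + 1) => E4) ℝ)
      (fun z => iteratedFDeriv ℝ m K z) (fun z => iteratedFDeriv ℝ (m + 1) K z) (hcont m)
      (hcont (m + 1)) (fun z => hT.fderiv m (by exact_mod_cast ENat.natCast_lt_top m) z)
      (C (m + 1)) (hC (m + 1) (Nat.succ_pos m)) H hHm hHi x (hint m x)
  refine ⟨fun x => ?_, fun m _ x => hderiv m x, fun m _ => ?_⟩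
  · rw [ContinuousMultilinearMap.curry0, ContinuousMultilinearMap.integral_apply (hint 0 x)]
    refine integral_congr_ae (Eventually.of_forall fun y => ?_)
    simp only [smul_apply, iteratedFDeriv_zero_apply, smul_eq_mul]
    ring
  · rw [continuous_iff_continuousAt]
    exact fun x => (hderiv m x).continuousAt

theorem int3 : Integrable (fun y : E4 => ((1 + ‖y‖ ^ 2) ^ 3)⁻¹) := by
  have h := integrable_rpow_neg_one_add_norm_sq (E := E4) (μ := volume) (r := 6)
    (by simp [E4]; norm_num)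
  refine h.congr (Eventually.of_forall fun y => ?_)
  have h1 : (0 : ℝ) < 1 + ‖y‖ ^ 2 := by positivity
  show (1 + ‖y‖ ^ 2) ^ (-6 / 2 : ℝ) = _
  rw [show (-6 / 2 : ℝ) = -((3 : ℕ) : ℝ) by norm_num, Real.rpow_neg h1.le, Real.rpow_natCast]

theorem log_bound (s : ℝ) (hs : 0 < s) (t : ℝ) (ht : 0 ≤ t) :
    |Real.log (s ^ 2 + t)| ≤ |Real.log (s ^ 2)| + t / s ^ 2 := by
  have hs2 : 0 < s ^ 2 := by positivity
  have h1 : s ^ 2 + t = s ^ 2 * (1 + t / s ^ 2) := by field_simp
  have h2 : 0 ≤ t / s ^ 2 := by positivity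
  rw [h1, Real.log_mul hs2.ne' (by positivity)]
  refine (abs_add_le _ _).trans ?_
  have h3 : 0 ≤ Real.log (1 + t / s ^ 2) := Real.log_nonneg (by linarith)
  have h4 : Real.log (1 + t / s ^ 2) ≤ t / s ^ 2 := by
    have := Real.log_le_sub_one_of_pos (show 0 < 1 + t / s ^ 2 by positivity)
    linarith
  rw [abs_of_nonneg h3]
  linarith

theorem src_int (H : E4 → ℝ) (hH : Src H) : Integrable H := by
  obtain ⟨hm, M, hM⟩ := hH
  have hM0 : 0 ≤ M := by
    have := (abs_nonneg _).trans (hM 0)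
    simpa using this
  refine (int3.const_mul M).mono' hm.aestronglyMeasurable (Eventually.of_forall fun y => ?_)
  rw [Real.norm_eq_abs]
  refine (hM y).trans ?_
  rw [div_eq_mul_inv]
  refine mul_le_mul_of_nonneg_left ?_ hM0
  have h1 : (1 : ℝ) ≤ 1 + ‖y‖ ^ 2 := by nlinarith [sq_nonneg ‖y‖]
  exact inv_anti₀ (by positivity) (pow_le_pow_right₀ h1 (by norm_num))

theorem kf_cont (s : ℝ) (hs : 0 < s) (h3 : S_K3) : ContDiff ℝ (⊤ : ℕ∞) (kf s) := by
  have h1 : ContDiff ℝ (⊤ : ℕ∞) (Bf s) := by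
    rw [contDiff_iff_contDiffAt]
    intro z
    exact h3 s z (by positivity)
  exact h1.div_const _

theorem kf_int (s : ℝ) (hs : 0 < s) (h3 : S_K3) (H : E4 → ℝ) (hH : Src H) (x : E4) :
    Integrable (fun y => kf s (x - y) * H y) := by
  obtain ⟨hm, M, hM⟩ := hH
  have hM0 : 0 ≤ M := by
    have := (abs_nonneg _).trans (hM 0)
    simpa using this
  have hs2 : 0 < s ^ 2 := by positivity
  set A : ℝ := |Real.log (s ^ 2)| with hA
  set D : ℝ := (A + (2 * ‖x‖ ^ 2 + 2) / s ^ 2) * M with hD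
  have hmeas : AEStronglyMeasurable (fun y => kf s (x - y) * H y) volume :=
    (((kf_cont s hs h3).continuous.comp
      (continuous_const.sub continuous_id)).aestronglyMeasurable).mul hm.aestronglyMeasurable
  refine (int3.const_mul D).mono' hmeas (Eventually.of_forall fun y => ?_)
  rw [norm_mul, Real.norm_eq_abs, Real.norm_eq_abs]
  have hpi : (1 : ℝ) ≤ 16 * Real.pi ^ 2 := by nlinarith [Real.pi_gt_three]
  have hk : |kf s (x - y)| ≤ A + ‖x - y‖ ^ 2 / s ^ 2 := by
    rw [kf, abs_div, abs_of_pos (show (0 : ℝ) < 16 * Real.pi ^ 2 by positivity), Bf, abs_neg]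
    refine (div_le_self (abs_nonneg _) hpi).trans ?_
    exact log_bound s hs _ (by positivity)
  have hq : (1 : ℝ) ≤ 1 + ‖y‖ ^ 2 := by nlinarith [sq_nonneg ‖y‖]
  have hxy : ‖x - y‖ ^ 2 ≤ (2 * ‖x‖ ^ 2 + 2) * (1 + ‖y‖ ^ 2) := by
    have h1 : ‖x - y‖ ≤ ‖x‖ + ‖y‖ := norm_sub_le _ _
    have h2 : ‖x - y‖ ^ 2 ≤ (‖x‖ + ‖y‖) ^ 2 := by gcongr
    nlinarith [sq_nonneg (‖x‖ - ‖y‖), mul_nonneg (sq_nonneg ‖x‖) (sq_nonneg ‖y‖)]
  have hk2 : |kf s (x - y)| ≤ (A + (2 * ‖x‖ ^ 2 + 2) / s ^ 2) * (1 + ‖y‖ ^ 2) := by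
    refine hk.trans ?_
    have hA0 : 0 ≤ A := abs_nonneg _
    have h1 : ‖x - y‖ ^ 2 / s ^ 2 ≤ (2 * ‖x‖ ^ 2 + 2) / s ^ 2 * (1 + ‖y‖ ^ 2) := by
      rw [div_mul_eq_mul_div]
      gcongr
    have h2 : A ≤ A * (1 + ‖y‖ ^ 2) := le_mul_of_one_le_right hA0 hq
    nlinarith
  calc |kf s (x - y)| * |H y|
      ≤ ((A + (2 * ‖x‖ ^ 2 + 2) / s ^ 2) * (1 + ‖y‖ ^ 2)) * (M / (1 + ‖y‖ ^ 2) ^ 4) :=
        mul_le_mul hk2 (hM y) (abs_nonneg _) ((abs_nonneg _).trans hk2)
    _ = D * ((1 + ‖y‖ ^ 2) ^ 3)⁻¹ := by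
        have h1 : (1 + ‖y‖ ^ 2 : ℝ) ≠ 0 := by positivity
        rw [hD]
        field_simp

end T1

theorem t_T1 (h1 : S_K1) (h3 : S_K3) : S_T1 := by
  intro s H hs hH
  have hHi := T1.src_int H hH
  have hint := T1.kf_int s hs h3 H hH
  have hcont := T1.kf_cont s hs h3
  have hbd : ∀ n : ℕ, ∃ C : ℝ, 1 ≤ n → ∀ z, ‖iteratedFDeriv ℝ n (kf s) z‖ ≤ C := by
    intro n
    by_cases hn : 1 ≤ n
    · obtain ⟨M, hM0, hM⟩ := h1 n hn
      refine ⟨M / s ^ n, fun _ z => ?_⟩
      have h4 : kf s = fun z => (1 / (16 * Real.pi ^ 2)) • Bf s z := by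
        ext z
        rw [kf, smul_eq_mul]
        ring
      have hB : ContDiff ℝ (⊤ : ℕ∞) (Bf s) := by
        rw [contDiff_iff_contDiffAt]
        intro z
        exact h3 s z (by positivity)
      have h5 : iteratedFDeriv ℝ n (kf s) z =
          (1 / (16 * Real.pi ^ 2)) • iteratedFDeriv ℝ n (Bf s) z := by
        rw [h4]
        exact iteratedFDeriv_const_smul_apply' (𝕜 := ℝ) (a := (1 / (16 * Real.pi ^ 2) : ℝ))
          (f := Bf s) (hB.contDiffAt.of_le (by exact_mod_cast le_top))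
      rw [h5, norm_smul]
      have h6 := hM s z (by positivity)
      have h7 : s ≤ Real.sqrt (s ^ 2 + ‖z‖ ^ 2) := by
        refine Real.le_sqrt_of_sq_le ?_
        nlinarith [sq_nonneg ‖z‖]
      have h8 : M / Real.sqrt (s ^ 2 + ‖z‖ ^ 2) ^ n ≤ M / s ^ n := by gcongr
      have h9 : ‖(1 / (16 * Real.pi ^ 2) : ℝ)‖ ≤ 1 := by
        rw [Real.norm_eq_abs, abs_of_pos (by positivity)]
        rw [div_le_one (by positivity)]
        nlinarith [Real.pi_gt_three]
      calc ‖(1 / (16 * Real.pi ^ 2) : ℝ)‖ * ‖iteratedFDeriv ℝ n (Bf s) z‖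
          ≤ 1 * (M / s ^ n) := mul_le_mul h9 (h6.trans h8) (norm_nonneg _) zero_le_one
        _ = M / s ^ n := one_mul _
    · exact ⟨0, fun h => absurd h hn⟩
  choose C hC using hbd
  obtain ⟨hi, hT⟩ := T1.conv_taylor (kf s) hcont C hC H hH.1 hHi hint
  refine ⟨hT.contDiff, hint, fun n _ x => ?_, fun n _ x => hi n x⟩
  exact (hT.eq_iteratedFDeriv (by exact_mod_cast le_top) x).symm

end Pool.Agent.R207.MB
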