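import Pool.Agent.R207.MB.Stm

set_option autoImplicit false

open MeasureTheory Filter Topology Metric

noncomputable section

namespace Pool.Agent.R207.MB

namespace T1b

lemma smooth_dir {f : E4 → ℝ} (hf : ContDiff ℝ (⊤ : ℕ∞) f) (v : E4) :
    ContDiff ℝ (⊤ : ℕ∞) (fun y => fderiv ℝ f y v) := by
  have h1 : ContDiff ℝ (⊤ : ℕ∞) (fderiv ℝ f) := by
    apply hf.fderiv_right
    norm_num
  exact h1.clm_apply contDiff_const

lemma succ_dir {f : E4 → ℝ} (hf : ContDiff ℝ (⊤ : ℕ∞) f) (n : ℕ) (x : E4)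
    (m : Fin (n + 1) → E4) :
    iteratedFDeriv ℝ (n + 1) f x m =
      iteratedFDeriv ℝ n (fun y => fderiv ℝ f y (m (Fin.last n))) x (Fin.init m) := by
  have h1 : ContDiff ℝ (⊤ : ℕ∞) (fderiv ℝ f) := by
    apply hf.fderiv_right
    norm_num
  rw [iteratedFDeriv_succ_apply_right]
  rw [iteratedFDeriv_clm_apply_const_apply h1 (by exact_mod_cast le_top)]

lemma four {f : E4 → ℝ} (hf : ContDiff ℝ (⊤ : ℕ∞) f) (x : E4) (i j : Fin 4) :
    pd i (pd i (pd j (pd j f))) x =
      iteratedFDeriv ℝ 4 f x ![bv i, bv i, bv j, bv j] := by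
  have h1 : ContDiff ℝ (⊤ : ℕ∞) (pd j f) := smooth_dir hf _
  have h2 : ContDiff ℝ (⊤ : ℕ∞) (pd j (pd j f)) := smooth_dir h1 _
  have h3 : ContDiff ℝ (⊤ : ℕ∞) (pd i (pd j (pd j f))) := smooth_dir h2 _
  rw [succ_dir hf 3]
  have e1 : (fun y => fderiv ℝ f y ((![bv i, bv i, bv j, bv j] : Fin 4 → E4) (Fin.last 3))) = pd j f := rfl
  rw [e1, succ_dir h1 2]
  have e2 : (fun y => fderiv ℝ (pd j f) y (Fin.init (![bv i, bv i, bv j, bv j] : Fin 4 → E4)
      (Fin.last 2))) = pd j (pd j f) := rfl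
  rw [e2, succ_dir h2 1]
  have e3 : (fun y => fderiv ℝ (pd j (pd j f)) y (Fin.init (Fin.init
      (![bv i, bv i, bv j, bv j] : Fin 4 → E4)) (Fin.last 1))) = pd i (pd j (pd j f)) := rfl
  rw [e3, succ_dir h3 0]
  rw [iteratedFDeriv_zero_apply]
  rfl

lemma bilap_eq {f : E4 → ℝ} (hf : ContDiff ℝ (⊤ : ℕ∞) f) (x : E4) :
    bilap f x = ∑ i, ∑ j, iteratedFDeriv ℝ 4 f x ![bv i, bv i, bv j, bv j] := by
  have hj : ∀ j, ContDiff ℝ (⊤ : ℕ∞) (pd j (pd j f)) := fun j =>
    smooth_dir (smooth_dir hf _) _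
  unfold bilap
  show ∑ i, pd i (pd i (lap f)) x = _
  refine Finset.sum_congr rfl fun i _ => ?_
  have e1 : pd i (lap f) = fun y => ∑ j, pd i (pd j (pd j f)) y := by
    funext y
    have := fderiv_fun_sum (𝕜 := ℝ) (u := (Finset.univ : Finset (Fin 4)))
      (A := fun j => pd j (pd j f)) (x := y)
      (fun j _ => ((hj j).differentiable (by norm_num)).differentiableAt)
    show fderiv ℝ (fun y => ∑ j, pd j (pd j f) y) y (bv i) = _
    rw [this]
    simp [pd]
  have e2 : pd i (fun y => ∑ j, pd i (pd j (pd j f)) y) x =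
      ∑ j, pd i (pd i (pd j (pd j f))) x := by
    have := fderiv_fun_sum (𝕜 := ℝ) (u := (Finset.univ : Finset (Fin 4)))
      (A := fun j => pd i (pd j (pd j f))) (x := x)
      (fun j _ => ((smooth_dir (hj j) (bv i)).differentiable (by norm_num)).differentiableAt)
    show fderiv ℝ (fun y => ∑ j, pd i (pd j (pd j f)) y) x (bv i) = _
    rw [this]
    simp [pd]
  rw [e1, e2]
  exact Finset.sum_congr rfl fun j _ => four hf x i j

lemma pd_div (i : Fin 4) (f : E4 → ℝ) (c : ℝ) :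
    pd i (fun z => f z / c) = fun z => pd i f z / c := by
  funext z
  unfold pd
  have h : (fun z => f z / c) = (c⁻¹ : ℝ) • f := by
    funext z
    simp [div_eq_inv_mul]
  rw [h, fderiv_const_smul_field]
  simp [div_eq_inv_mul]

lemma lap_div (f : E4 → ℝ) (c : ℝ) :
    lap (fun z => f z / c) = fun z => lap f z / c := by
  funext z
  unfold lap
  simp only [pd_div]
  rw [Finset.sum_div]

lemma bilap_div (f : E4 → ℝ) (c : ℝ) (x : E4) :
    bilap (fun z => f z / c) x = bilap f x / c := by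
  unfold bilap
  rw [lap_div, lap_div]

end T1b

open T1b in
theorem t_T1b (h1 : S_T1) (h3 : S_K3) (hB : S_BL) : S_T1b := by
  intro s H hs0 hH x
  obtain ⟨hsm, -, hfor, hint⟩ := h1 s H hs0 hH
  have hpos : ∀ z : E4, 0 < s ^ 2 + ‖z‖ ^ 2 := fun z => by positivity
  have hBs : ContDiff ℝ (⊤ : ℕ∞) (Bf s) := contDiff_iff_contDiffAt.2 fun z => h3 s z (hpos z)
  have hks : ContDiff ℝ (⊤ : ℕ∞) (kf s) := by
    unfold kf
    exact hBs.div_const _
  rw [bilap_eq hsm x]
  have hev : ∀ i j : Fin 4, iteratedFDeriv ℝ 4 (pot s H) x ![bv i, bv i, bv j, bv j] =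
      ∫ y, H y * iteratedFDeriv ℝ 4 (kf s) (x - y) ![bv i, bv i, bv j, bv j] := by
    intro i j
    rw [hfor 4 (by norm_num) x]
    have := ContinuousLinearMap.integral_comp_comm
      (ContinuousMultilinearMap.apply ℝ (fun _ : Fin 4 => E4) ℝ ![bv i, bv i, bv j, bv j])
      (hint 4 (by norm_num) x)
    simp only [ContinuousMultilinearMap.apply_apply] at this
    rw [← this]
    rfl
  have hev2 : ∀ i j : Fin 4, Integrable (fun y =>
      H y * iteratedFDeriv ℝ 4 (kf s) (x - y) ![bv i, bv i, bv j, bv j]) := by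
    intro i j
    exact (ContinuousMultilinearMap.apply ℝ (fun _ : Fin 4 => E4) ℝ
      ![bv i, bv i, bv j, bv j]).integrable_comp (hint 4 (by norm_num) x)
  simp only [hev]
  have h5 : ∑ i : Fin 4, ∑ j : Fin 4,
      ∫ y, H y * iteratedFDeriv ℝ 4 (kf s) (x - y) ![bv i, bv i, bv j, bv j] =
      ∫ y, ∑ i : Fin 4, ∑ j : Fin 4,
        H y * iteratedFDeriv ℝ 4 (kf s) (x - y) ![bv i, bv i, bv j, bv j] := by
    rw [integral_finsetSum _ fun i _ => integrable_finsetSum _ fun j _ => hev2 i j]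
    refine Finset.sum_congr rfl fun i _ => ?_
    rw [integral_finsetSum _ fun j _ => hev2 i j]
  rw [h5]
  unfold mol
  congr 1
  funext y
  have h6 : bilap (kf s) (x - y) = gf s (x - y) := by
    have : kf s = fun z => Bf s z / (16 * Real.pi ^ 2) := rfl
    rw [this, bilap_div, hB s (x - y) (hpos _)]
    rfl
  rw [← h6, bilap_eq hks (x - y)]
  simp only [Finset.sum_mul]
  refine Finset.sum_congr rfl fun i _ => Finset.sum_congr rfl fun j _ => ?_
  ring

end Pool.Agent.R207.MB
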