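import Pool.Agent.R207.MB.Stm

set_option autoImplicit false

open MeasureTheory Filter Topology Metric

noncomputable section

namespace Pool.Agent.R207.MB.T2

/-- the weight `(1 + |z|^2)^{-4}` -/
def wt (z : E4) : ℝ := 1 / (1 + ‖z‖ ^ 2) ^ 4

theorem wt_pos (z : E4) : 0 < wt z := by unfold wt; positivity

theorem wt_eq (z : E4) : wt z = 1 / 96 * hs 1 z := by
  unfold wt hs
  field_simp

theorem wt_integrable (hM : S_MASS) : Integrable wt := by
  have h := (hM 1 one_pos).1.const_mul (1 / 96)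
  have e : wt = fun z => 1 / 96 * hs 1 z := funext wt_eq
  rw [e]
  exact h

theorem hs_continuous (s : ℝ) (h : 0 < s) : Continuous (hs s) := by
  unfold hs
  refine continuous_const.div (by fun_prop) fun z => ?_
  positivity

theorem gf_continuous (s : ℝ) (h : 0 < s) : Continuous (gf s) :=
  (hs_continuous s h).div_const _

theorem gf_nonneg (s : ℝ) (z : E4) : 0 ≤ gf s z := by
  unfold gf hs
  positivity

theorem gf_le (s : ℝ) (h : 0 < s) : ∃ C : ℝ, 0 < C ∧ ∀ z, gf s z ≤ C * wt z := by
  refine ⟨96 * s ^ 4 * (1 + 1 / s ^ 2) ^ 4 / (16 * Real.pi ^ 2), by positivity, fun z => ?_⟩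
  have h1 : 1 + ‖z‖ ^ 2 ≤ (1 + 1 / s ^ 2) * (s ^ 2 + ‖z‖ ^ 2) := by
    have h2 : 1 / s ^ 2 * s ^ 2 = 1 := by field_simp
    have h3 : 0 ≤ 1 / s ^ 2 * ‖z‖ ^ 2 := by positivity
    have h4 : 0 ≤ s ^ 2 := by positivity
    nlinarith
  have h4 : (1 + ‖z‖ ^ 2) ^ 4 ≤ (1 + 1 / s ^ 2) ^ 4 * (s ^ 2 + ‖z‖ ^ 2) ^ 4 := by
    rw [← mul_pow]
    gcongr
  have h5 : hs s z ≤ 96 * s ^ 4 * (1 + 1 / s ^ 2) ^ 4 * wt z := by
    unfold hs wt
    rw [mul_one_div, div_le_div_iff₀ (by positivity) (by positivity)]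
    calc 96 * s ^ 4 * (1 + ‖z‖ ^ 2) ^ 4
        ≤ 96 * s ^ 4 * ((1 + 1 / s ^ 2) ^ 4 * (s ^ 2 + ‖z‖ ^ 2) ^ 4) := by gcongr
      _ = 96 * s ^ 4 * (1 + 1 / s ^ 2) ^ 4 * (s ^ 2 + ‖z‖ ^ 2) ^ 4 := by ring
  unfold gf
  calc hs s z / (16 * Real.pi ^ 2)
      ≤ 96 * s ^ 4 * (1 + 1 / s ^ 2) ^ 4 * wt z / (16 * Real.pi ^ 2) := by gcongr
    _ = _ := by ring

theorem wt_mul (x y : E4) : wt (x - y) * wt y ≤ 256 * wt x * (wt (x - y) + wt y) := by
  have key : ∀ a b : E4, ‖a‖ ≤ ‖b‖ → ‖x‖ ≤ ‖a‖ + ‖b‖ → wt b ≤ 256 * wt x := by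
    intro a b hab hx
    have h1 : 1 + ‖x‖ ^ 2 ≤ 4 * (1 + ‖b‖ ^ 2) := by
      have h2 : ‖x‖ ≤ 2 * ‖b‖ := by linarith
      have h3 := norm_nonneg x
      nlinarith
    unfold wt
    rw [mul_one_div, div_le_div_iff₀ (by positivity) (by positivity)]
    calc 1 * (1 + ‖x‖ ^ 2) ^ 4 = (1 + ‖x‖ ^ 2) ^ 4 := one_mul _
      _ ≤ (4 * (1 + ‖b‖ ^ 2)) ^ 4 := by gcongr
      _ = 256 * (1 + ‖b‖ ^ 2) ^ 4 := by ring
  have hx : ‖x‖ ≤ ‖x - y‖ + ‖y‖ := by
    have := norm_add_le (x - y) y
    rwa [sub_add_cancel] at this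
  have p1 := wt_pos (x - y)
  have p2 := wt_pos y
  have p3 := wt_pos x
  rcases le_total ‖x - y‖ ‖y‖ with h | h
  · have := key (x - y) y h hx
    nlinarith [mul_pos p3 p2]
  · have := key y (x - y) h (by linarith)
    nlinarith [mul_pos p3 p1]

end Pool.Agent.R207.MB.T2

namespace Pool.Agent.R207.MB

open T2 in
theorem t_T2 (hM : S_MASS) : S_T2 := by
  intro s H hs0 hH
  obtain ⟨hHm, M, hHM⟩ := hH
  obtain ⟨C, hC, hCg⟩ := gf_le s hs0
  have hwt := wt_integrable hM
  have hM0 : 0 ≤ M := by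
    have := (abs_nonneg _).trans (hHM 0)
    simpa using this
  have hHM' : ∀ y, |H y| ≤ M * wt y := by
    intro y
    unfold wt
    rw [mul_one_div]
    exact hHM y
  have hHi : Integrable H := by
    refine (hwt.const_mul M).mono' hHm.aestronglyMeasurable (Eventually.of_forall fun y => ?_)
    rw [Real.norm_eq_abs]
    exact hHM' y
  have hwt1 : ∀ z, wt z ≤ 1 := by
    intro z
    unfold wt
    rw [div_le_one (by positivity)]
    exact one_le_pow₀ (by nlinarith [sq_nonneg ‖z‖])
  have hmeas : ∀ x : E4, AEStronglyMeasurable (fun y => gf s (x - y) * H y) volume := by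
    intro x
    exact (((gf_continuous s hs0).comp (continuous_const.sub continuous_id)).aestronglyMeasurable).mul
      hHm.aestronglyMeasurable
  have hcont : Continuous (mol s H) := by
    refine continuous_of_dominated (bound := fun y => C * |H y|) (fun x => hmeas x)
      (fun x => Eventually.of_forall fun y => ?_) (hHi.abs.const_mul C)
      (Eventually.of_forall fun y => ?_)
    · rw [norm_mul, Real.norm_eq_abs, Real.norm_eq_abs, abs_of_nonneg (gf_nonneg s _)]
      have h1 : gf s (x - y) ≤ C := (hCg _).trans (by nlinarith [hwt1 (x - y)])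
      gcongr
    · exact ((gf_continuous s hs0).comp (continuous_id.sub continuous_const)).mul continuous_const
  have hdecay : ∀ x, |mol s H x| ≤ C * M * 256 * (2 * ∫ y, wt y) * wt x := by
    intro x
    have hint : Integrable fun y => C * M * 256 * wt x * (wt (x - y) + wt y) :=
      ((hwt.comp_sub_left x).add hwt).const_mul _
    calc |mol s H x| ≤ ∫ y, C * M * 256 * wt x * (wt (x - y) + wt y) := by
          rw [← Real.norm_eq_abs]
          refine norm_integral_le_of_norm_le hint (Eventually.of_forall fun y => ?_)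
          rw [norm_mul, Real.norm_eq_abs, Real.norm_eq_abs, abs_of_nonneg (gf_nonneg s _)]
          have p1 := wt_pos (x - y)
          calc gf s (x - y) * |H y| ≤ (C * wt (x - y)) * (M * wt y) :=
                mul_le_mul (hCg _) (hHM' y) (abs_nonneg _) (by positivity)
            _ = C * M * (wt (x - y) * wt y) := by ring
            _ ≤ C * M * (256 * wt x * (wt (x - y) + wt y)) :=
                mul_le_mul_of_nonneg_left (wt_mul x y) (by positivity)
            _ = _ := by ring
      _ = C * M * 256 * (2 * ∫ y, wt y) * wt x := by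
          rw [integral_const_mul, integral_add (hwt.comp_sub_left x) hwt,
            integral_sub_left_eq_self wt volume x]
          ring
  have hmi : Integrable (mol s H) := by
    refine (hwt.const_mul (C * M * 256 * (2 * ∫ y, wt y))).mono' hcont.aestronglyMeasurable
      (Eventually.of_forall fun x => ?_)
    rw [Real.norm_eq_abs]
    exact hdecay x
  refine ⟨hcont, ⟨C * M * 256 * (2 * ∫ y, wt y), fun x => ?_⟩, hmi, ?_⟩
  · have := hdecay x
    unfold wt at this
    rw [mul_one_div] at this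
    exact this
  · have hgi : Integrable (gf s) := (hM s hs0).1.div_const _
    have hg1 : ∫ z, gf s z = 1 := by
      unfold gf
      rw [integral_div, (hM s hs0).2]
      exact div_self (by positivity)
    have hconv := integral_convolution (ContinuousLinearMap.mul ℝ ℝ) (μ := (volume : Measure E4))
      (ν := volume) hHi.abs hgi
    have hci := Integrable.integrable_convolution (ContinuousLinearMap.mul ℝ ℝ)
      (μ := (volume : Measure E4)) hHi.abs hgi
    calc ∫ x, |mol s H x| ≤ ∫ x, (convolution (fun y => |H y|) (gf s)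
            (ContinuousLinearMap.mul ℝ ℝ) volume) x := by
          refine integral_mono hmi.abs hci fun x => ?_
          show |mol s H x| ≤ ∫ y, |H y| * gf s (x - y)
          unfold mol
          refine (abs_integral_le_integral_abs).trans (le_of_eq ?_)
          refine integral_congr_ae (Eventually.of_forall fun y => ?_)
          show |gf s (x - y) * H y| = |H y| * gf s (x - y)
          rw [abs_mul, abs_of_nonneg (gf_nonneg s _), mul_comm]
      _ = (∫ x, |H x|) * ∫ x, gf s x := hconv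
      _ = ∫ x, |H x| := by rw [hg1, mul_one]

end Pool.Agent.R207.MB
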